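import Pool.Agent.H97.MR.Reg

set_option autoImplicit false
set_option linter.unusedSectionVars false

/-!
# The Lie algebra is stable under commutators
-/

namespace Pool.Agent.H97.MR

open Matrix

section ring

variable {R : Type} [CommRing R] [Algebra ℂ R] [Algebra ℚ R]

/-- the homomorphism `ℂ[ε] → R` with `ε ↦ r`, for `r² = 0` -/
noncomputable def epsHomC (r : R) (hr : r * r = 0) : DualNumber ℂ →ₐ[ℂ] R :=
  DualNumber.lift ⟨(Algebra.ofId ℂ R, r), hr, fun _ => Commute.all _ _⟩

theorem epsHomC_eps (r : R) (hr : r * r = 0) : epsHomC r hr DualNumber.eps = r := DualNumber.lift_apply_eps _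

theorem epsHomC_inl (r : R) (hr : r * r = 0) (x : ℂ) : epsHomC r hr (TrivSqZeroExt.inl x) = algebraMap ℂ R x := by
  unfold epsHomC
  rw [DualNumber.lift_apply_inl]
  rfl

theorem epsHomC_apply (r : R) (hr : r * r = 0) (z : DualNumber ℂ) :
    epsHomC r hr z = algebraMap ℂ R z.fst + r * algebraMap ℂ R z.snd := by
  have h1 : z = TrivSqZeroExt.inl z.fst + DualNumber.eps * TrivSqZeroExt.inl z.snd := by
    refine TrivSqZeroExt.ext ?_ ?_
    · simp
    · simp
  conv_lhs => rw [h1]
  rw [map_add, map_mul, epsHomC_eps, epsHomC_inl, epsHomC_inl]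

theorem oe_epsHom {m : Type} [DecidableEq m] (r : R) (hr : r * r = 0) (X : Matrix m m ℂ) :
    (oe X).map (epsHomC r hr) = 1 + r • X.map (algebraMap ℂ R) := by
  refine Matrix.ext fun i j => ?_
  unfold oe
  rw [Matrix.map_apply, Matrix.add_apply, Matrix.add_apply, map_add, Matrix.smul_apply, Matrix.smul_apply,
    smul_eq_mul, smul_eq_mul, map_mul, epsHomC_eps]
  have h1 : epsHomC r hr (il X i j) = X.map (algebraMap ℂ R) i j := epsHomC_inl r hr _
  rw [h1]
  congr 1
  by_cases h : i = j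
  · subst h
    simp
  · simp [h]

theorem group_comm {A : Type} [Ring A] (a b : A) (ha : a * a = 0) (hb : b * b = 0) (haba : a * b * a = 0)
    (hbab : b * a * b = 0) : (1 + a) * (1 + b) * (1 + -a) * (1 + -b) = 1 + (a * b - b * a) := by
  have h1 : (1 + a) * (1 + b) = 1 + a + b + a * b := by noncomm_ring
  have h2 : (1 + a + b + a * b) * (1 + -a) = 1 + b + a * b - b * a := by
    have : (1 + a + b + a * b) * (1 + -a) = 1 + b + a * b - b * a - a * a - a * b * a := by noncomm_ring
    rw [this, ha, haba, sub_zero, sub_zero]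
  have h3 : (1 + b + a * b - b * a) * (1 + -b) = 1 + (a * b - b * a) := by
    have : (1 + b + a * b - b * a) * (1 + -b) = 1 + (a * b - b * a) - b * b - a * (b * b) + b * a * b := by
      noncomm_ring
    rw [this, hb, hbab, mul_zero, sub_zero, sub_zero, add_zero]
  rw [h1, h2, h3]

theorem mat_comm {m : Type} [Fintype m] [DecidableEq m] (r s : R) (hr : r * r = 0) (hs : s * s = 0)
    (X Y : Matrix m m R) : (1 + r • X) * (1 + s • Y) * (1 + r • -X) * (1 + s • -Y) =
      1 + (r * s) • (X * Y - Y * X) := by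
  have h := group_comm (r • X) (s • Y)
    (by rw [Matrix.smul_mul, Matrix.mul_smul, smul_smul, hr, zero_smul])
    (by rw [Matrix.smul_mul, Matrix.mul_smul, smul_smul, hs, zero_smul])
    (by
      rw [Matrix.smul_mul, Matrix.mul_smul, Matrix.mul_smul, Matrix.smul_mul, Matrix.smul_mul, smul_smul, smul_smul,
        hr, zero_mul, zero_smul])
    (by
      rw [Matrix.smul_mul, Matrix.mul_smul, Matrix.mul_smul, Matrix.smul_mul, Matrix.smul_mul, smul_smul, smul_smul,
        hs, zero_mul, zero_smul])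
  rw [smul_neg, smul_neg, h, smul_sub, Matrix.smul_mul, Matrix.mul_smul, Matrix.smul_mul, Matrix.mul_smul,
    smul_smul, smul_smul, mul_comm s r]

theorem mat_key {m : Type} [Fintype m] [DecidableEq m] (r s : R) (hr : r * r = 0) (hs : s * s = 0)
    (hrs : (r * s) * (r * s) = 0) (X Y : Matrix m m ℂ) :
    (oe X).map (epsHomC r hr) * (oe Y).map (epsHomC s hs) * (oe (-X)).map (epsHomC r hr) *
      (oe (-Y)).map (epsHomC s hs) = (oe (X * Y - Y * X)).map (epsHomC (r * s) hrs) := by
  have hneg : ∀ Z : Matrix m m ℂ, (-Z).map (algebraMap ℂ R) = -Z.map (algebraMap ℂ R) := by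
    intro Z
    ext1 a b
    exact map_neg (algebraMap ℂ R) _
  rw [oe_epsHom, oe_epsHom, oe_epsHom, oe_epsHom, oe_epsHom, hneg, hneg, mat_comm r s hr hs,
    Matrix.map_sub _ (map_sub (algebraMap ℂ R)), Matrix.map_mul, Matrix.map_mul]

end ring

variable {ι : Type} {N : ι → ℕ}

theorem value_bcs' {A B : Type} [CommRing A] [Algebra ℚ A] [CommRing B] [Algebra ℚ B] (φ : A →ₐ[ℚ] B)
    (g : GLs N A) (f : MvPolynomial (Co N) ℚ) : value f (bcs (φ : A →+* B) g) = φ (value f g) := by
  have h1 : coords (bcs (φ : A →+* B) g) = fun c => φ (coords g c) := by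
    funext c
    rcases c with ⟨i, x, y⟩ | ⟨i, x, y⟩
    · rfl
    · have h2 : (bcs (φ : A →+* B) g i)⁻¹ = Matrix.GeneralLinearGroup.map (φ : A →+* B) (g i)⁻¹ :=
        (map_inv _ _).symm
      show (((bcs (φ : A →+* B) g i)⁻¹ : GL (Fin (N i)) B) : Matrix (Fin (N i)) (Fin (N i)) B) x y = _
      rw [h2]
      rfl
  unfold value
  rw [h1]
  exact (MvPolynomial.comp_aeval_apply (coords g) φ f).symm

theorem lie_comm_aux {G : SubgroupFunctor N} (hG : IsClosedQ (N := N) fun A _ _ => (G.pts A : Set (GLs N A)))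
    {R : Type} [CommRing R] [Algebra ℂ R] [Algebra ℚ R] (r s : R) (hr : r * r = 0) (hs : s * s = 0)
    (hrs : (r * s) * (r * s) = 0) (hinj : Function.Injective (epsHomC (r * s) hrs))
    {X Y : Mats N} (hX : X ∈ G.lie) (hY : Y ∈ G.lie) : X * Y - Y * X ∈ G.lie := by
  obtain ⟨J, hJ⟩ := hG
  have hJ' : ∀ (A : Type) [CommRing A] [Algebra ℚ A] (g : GLs N A), g ∈ G.pts A ↔ ∀ f ∈ J, value f g = 0 := hJ
  let φ : ∀ r : R, r * r = 0 → (DualNumber ℂ →ₐ[ℚ] R) := fun r hr =>
    (epsHomC r hr : DualNumber ℂ →+* R).toRatAlgHom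
  let B : (DualNumber ℂ →ₐ[ℚ] R) → GLs N (DualNumber ℂ) → GLs N R := fun f g => bcs (f : DualNumber ℂ →+* R) g
  rw [mem_lie]
  refine (hJ' _ _).2 fun f hf => hinj ?_
  rw [map_zero]
  have g1 := G.map_mem (DualNumber ℂ) R (φ r hr) _ hX
  have g2 := G.map_mem (DualNumber ℂ) R (φ s hs) _ hY
  have g3 := G.map_mem (DualNumber ℂ) R (φ r hr) _ (G.lie.neg_mem hX)
  have g4 := G.map_mem (DualNumber ℂ) R (φ s hs) _ (G.lie.neg_mem hY)
  have g5 := mul_mem (mul_mem (mul_mem g1 g2) g3) g4
  have key : B (φ r hr) (ogs X) * B (φ s hs) (ogs Y) * B (φ r hr) (ogs (-X)) * B (φ s hs) (ogs (-Y)) =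
      B (φ (r * s) hrs) (ogs (X * Y - Y * X)) := by
    funext i
    apply Units.ext
    exact mat_key r s hr hs hrs (X i) (Y i)
  have g6 : B (φ (r * s) hrs) (ogs (X * Y - Y * X)) ∈ G.pts R := key ▸ g5
  have h6 := (hJ' _ _).1 g6 f hf
  exact (value_bcs' (φ (r * s) hrs) (ogs (X * Y - Y * X)) f).symm.trans h6

theorem eps_inj {he : ((TrivSqZeroExt.inl DualNumber.eps : DualNumber (DualNumber ℂ)) * DualNumber.eps) *
    ((TrivSqZeroExt.inl DualNumber.eps : DualNumber (DualNumber ℂ)) * DualNumber.eps) = 0} :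
    Function.Injective (epsHomC _ he) := by
  intro z w h1
  rw [epsHomC_apply, epsHomC_apply] at h1
  have e2 : ∀ x : ℂ, (algebraMap ℂ (DualNumber (DualNumber ℂ)) x) = TrivSqZeroExt.inl (TrivSqZeroExt.inl x) :=
    fun x => rfl
  have e3 : ∀ z : DualNumber ℂ, algebraMap ℂ (DualNumber (DualNumber ℂ)) z.fst +
      ((TrivSqZeroExt.inl DualNumber.eps : DualNumber (DualNumber ℂ)) * DualNumber.eps) *
        algebraMap ℂ (DualNumber (DualNumber ℂ)) z.snd =
      TrivSqZeroExt.inl (TrivSqZeroExt.inl z.fst) + TrivSqZeroExt.inr (TrivSqZeroExt.inr z.snd) := by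
    intro z
    have e4 : (TrivSqZeroExt.inl (DualNumber.eps : DualNumber ℂ) : DualNumber (DualNumber ℂ)) * DualNumber.eps =
        TrivSqZeroExt.inr (DualNumber.eps : DualNumber ℂ) := by
      show (TrivSqZeroExt.inl (DualNumber.eps : DualNumber ℂ) : DualNumber (DualNumber ℂ)) * TrivSqZeroExt.inr 1 = _
      rw [TrivSqZeroExt.inl_mul_inr, smul_eq_mul, mul_one]
    rw [e2, e2, e4, TrivSqZeroExt.inr_mul_inl]
    congr 2
    refine TrivSqZeroExt.ext ?_ ?_
    · simp
    · simp
  rw [e3, e3] at h1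
  refine TrivSqZeroExt.ext ?_ ?_
  · have := congrArg (fun z : DualNumber (DualNumber ℂ) => z.fst.fst) h1
    simpa using this
  · have := congrArg (fun z : DualNumber (DualNumber ℂ) => z.snd.snd) h1
    simpa using this

/-- **The Lie algebra of a closed subgroup is stable under commutators.** -/
theorem lie_comm {G : SubgroupFunctor N} (hG : IsClosedQ (N := N) fun A _ _ => (G.pts A : Set (GLs N A)))
    {X Y : Mats N} (hX : X ∈ G.lie) (hY : Y ∈ G.lie) : X * Y - Y * X ∈ G.lie := by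
  have he₁ : (TrivSqZeroExt.inl DualNumber.eps : DualNumber (DualNumber ℂ)) * TrivSqZeroExt.inl DualNumber.eps = 0 := by
    rw [← TrivSqZeroExt.inl_mul, DualNumber.eps_mul_eps, TrivSqZeroExt.inl_zero]
  have he₂ : (DualNumber.eps : DualNumber (DualNumber ℂ)) * DualNumber.eps = 0 := DualNumber.eps_mul_eps
  have he : ((TrivSqZeroExt.inl DualNumber.eps : DualNumber (DualNumber ℂ)) * DualNumber.eps) *
      ((TrivSqZeroExt.inl DualNumber.eps : DualNumber (DualNumber ℂ)) * DualNumber.eps) = 0 := by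
    linear_combination ((DualNumber.eps : DualNumber (DualNumber ℂ)) * DualNumber.eps) * he₁
  exact lie_comm_aux hG _ _ he₁ he₂ he eps_inj hX hY

end Pool.Agent.H97.MR
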