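import Pool.Agent.H97.MR.Local

set_option autoImplicit false
set_option linter.unusedSectionVars false

/-!
# Monomials of periods
-/

namespace Pool.Agent.H97.MR

open Matrix Pool.Agent.X33.DP

section

variable {ι : Type} (T : ι → PMot ℚ ℂ)

/-- the ranks -/
abbrev rks : ι → ℕ := fun i => (T i).N

/-- a functor of isomorphisms `T_B ⊗ A → T_DR ⊗ A` -/
structure TorsorFunctor (N : ι → ℕ) where
  /-- the `A`-valued points -/
  pts : ∀ (A : Type) [CommRing A] [Algebra ℚ A], Set (GLs N A)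
  map_mem : ∀ (A B : Type) [CommRing A] [Algebra ℚ A] [CommRing B] [Algebra ℚ B] (f : A →ₐ[ℚ] B),
    ∀ g ∈ pts A, bcs (f : A →+* B) g ∈ pts B

/-- the involutions `F_∞` -/
def frobs (A : Type) [CommRing A] [Algebra ℚ A] : GLs (rks T) A :=
  bcs (algebraMap ℚ A) fun i => (⟨(T i).F, (T i).F, (T i).F_sq, (T i).F_sq⟩ : GL (Fin (T i).N) ℚ)

/-- the comparison isomorphisms -/
noncomputable def comps : GLs (rks T) ℂ := fun i => (T i).P_unit.unit

/-- the conditions on the group -/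
structure IsGrp (G : SubgroupFunctor (rks T)) (P : TorsorFunctor (rks T)) : Prop where
  torsor : ∀ (A : Type) [CommRing A] [Algebra ℚ A], ∀ p ∈ P.pts A, ∀ q ∈ P.pts A, p⁻¹ * q ∈ G.pts A
  comp : comps T ∈ P.pts ℂ
  frob : ∀ (A : Type) [CommRing A] [Algebra ℚ A], ∀ g ∈ G.pts A, frobs T A * g * frobs T A ∈ G.pts A
  mu : ∀ (z : ℂˣ) (g : GLs (rks T) ℂ),
    (∀ i p, ∀ x ∈ (T i).H p, (g i : Matrix (Fin (T i).N) (Fin (T i).N) ℂ).mulVec x = ((z ^ p : ℂˣ) : ℂ) • x) →
    g ∈ G.pts ℂ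

variable {T} {G : SubgroupFunctor (rks T)} {P : TorsorFunctor (rks T)} (h : IsGrp T G P)

include h in
theorem frob_lie {X : Mats (rks T)} (hX : X ∈ G.lie) : (fun i => rc (T i).F * X i * rc (T i).F) ∈ G.lie := by
  rw [mem_lie] at *
  have h1 := h.frob (DualNumber ℂ) _ hX
  have h2 : ogs (N := rks T) (fun i => rc (T i).F * X i * rc (T i).F) =
      frobs T (DualNumber ℂ) * ogs X * frobs T (DualNumber ℂ) := by
    funext i
    apply Units.ext
    show oe (rc (T i).F * X i * rc (T i).F) =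
      (T i).F.map (algebraMap ℚ (DualNumber ℂ)) * oe (X i) * (T i).F.map (algebraMap ℚ (DualNumber ℂ))
    have e1 : (T i).F.map (algebraMap ℚ (DualNumber ℂ)) = il (rc (T i).F) := by
      refine Matrix.ext fun a b => ?_
      show algebraMap ℚ (DualNumber ℂ) _ = algebraMap ℂ (DualNumber ℂ) (algebraMap ℚ ℂ _)
      rw [← IsScalarTower.algebraMap_apply]
    have e2 : il (rc (T i).F) * il (rc (T i).F) = 1 := by rw [← il_mul, F_sq', il_one]
    rw [e1]
    unfold oe
    rw [il_mul, il_mul, Matrix.mul_add, Matrix.mul_one, Matrix.add_mul, e2, Matrix.mul_smul, Matrix.smul_mul]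
  rwa [h2]

theorem exists_hcoord (T : PMot ℚ ℂ) : Nonempty (HCoord T) := by
  obtain ⟨v, t, hv⟩ := T.hodge
  exact ⟨⟨v, t, hv⟩⟩

theorem exists_lowProj (T : PMot ℚ ℂ) (p : ℤ) : ∃ π, IsLowProj T p π := by
  obtain ⟨v, t, hv⟩ := T.hodge
  let f : (Fin T.N → ℂ) →ₗ[ℂ] (Fin T.N → ℂ) := v.constr ℂ fun j => if t j < p then v j else 0
  have hf : ∀ x, (LinearMap.toMatrix' f).mulVec x = f x := fun x => by
    rw [← Matrix.toLin'_apply, Matrix.toLin'_toMatrix']
  refine ⟨LinearMap.toMatrix' f, ?_, ?_⟩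
  · intro q hq x hx
    rw [hf]
    rw [hv q] at hx
    induction hx using Submodule.span_induction with
    | mem x hx =>
      obtain ⟨j, hj, rfl⟩ := hx
      have hj' : t j = q := hj
      rw [show f (v j) = _ from v.constr_basis ℂ _ j, if_pos (by omega)]
    | zero => rw [map_zero]
    | add x y _ _ hx hy => rw [map_add, hx, hy]
    | smul c x _ hx => rw [map_smul, hx]
  · intro q hq x hx
    rw [hf]
    rw [hv q] at hx
    induction hx using Submodule.span_induction with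
    | mem x hx =>
      obtain ⟨j, hj, rfl⟩ := hx
      have hj' : t j = q := hj
      rw [show f (v j) = _ from v.constr_basis ℂ _ j, if_neg (by omega)]
    | zero => rw [map_zero]
    | add x y _ _ hx hy => rw [map_add, hx, hy, add_zero]
    | smul c x _ hx => rw [map_smul, hx, smul_zero]

/-- a matrix over `ℂ[ε]` that reduces to `1` -/
theorem eq_oe {n : ℕ} {Z : Matrix (Fin n) (Fin n) (DualNumber ℂ)}
    (hZ : Z.map TrivSqZeroExt.fst = (1 : Matrix (Fin n) (Fin n) ℂ)) : Z = oe (Z.map TrivSqZeroExt.snd) := by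
  refine Matrix.ext fun i j => ?_
  have h1 := congrFun (congrFun hZ i) j
  rw [Matrix.map_apply] at h1
  have h2 : TrivSqZeroExt.fst (Z i j) = TrivSqZeroExt.fst (oe (Z.map TrivSqZeroExt.snd) i j) := by
    rw [h1]
    by_cases hij : i = j
    · subst hij
      simp [oe]
    · simp [oe, hij]
  have h3 : TrivSqZeroExt.snd (Z i j) = TrivSqZeroExt.snd (oe (Z.map TrivSqZeroExt.snd) i j) := by
    by_cases hij : i = j
    · subst hij
      simp [oe]
    · simp [oe, hij]
  exact TrivSqZeroExt.ext h2 h3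

theorem main [Fintype ι] (h : IsGrp T G P) (a : ι → ℤˣ → ℤ) (d : ι → ℤ) (p : ι → ℤˣ → ℤ)
    (π : ∀ i, ℤˣ → Matrix (Fin (T i).N) (Fin (T i).N) ℂ) (hπ : ∀ i s, IsLowProj (T i) (p i s) (π i s))
    (h1 : ∀ X ∈ G.lie, (∀ i, X i * rc (T i).F = rc (T i).F * X i) →
      ∑ i, (∑ s, a i s * (X i * rc (eproj (T i) s)).trace + d i * (X i).trace) = 0)
    (h2 : ∀ X ∈ G.lie, (∀ i q, ∀ x ∈ (T i).H q, (X i).mulVec x ∈ (T i).H q) →
      ∑ i, (∑ s, a i s * (π i s * X i).trace + d i * (X i).trace) = 0)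
    (c : ι → ℤˣ → ℂ) (hc : ∀ i s, IsStepPeriod (T i) s (p i s) (c i s)) :
    IsAlgebraic ℚ (∏ i, ((∏ s, c i s ^ a i s) * (T i).P.det ^ d i)) := by
  refine algebraic_of_hom fun φ hφ => ?_
  -- the derivative of the comparison isomorphism
  set I := comps T with hI
  have e1 : bcs (φ : ℂ →+* DualNumber ℂ) I ∈ P.pts (DualNumber ℂ) := P.map_mem _ _ φ _ h.comp
  have e2 : bcs (inlHom : ℂ →+* DualNumber ℂ) I ∈ P.pts (DualNumber ℂ) := P.map_mem _ _ inlHom _ h.comp
  have e3 := h.torsor _ _ e2 _ e1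
  let Z : ∀ i, Matrix (Fin (T i).N) (Fin (T i).N) (DualNumber ℂ) := fun i =>
    (((bcs (inlHom : ℂ →+* DualNumber ℂ) I)⁻¹ * bcs (φ : ℂ →+* DualNumber ℂ) I) i :
      Matrix (Fin (T i).N) (Fin (T i).N) (DualNumber ℂ))
  let X : Mats (rks T) := fun i => (Z i).map TrivSqZeroExt.snd
  have hPZ : ∀ i, (T i).P.map φ = il (T i).P * Z i := by
    intro i
    have : (bcs (inlHom : ℂ →+* DualNumber ℂ) I i) * ((bcs (inlHom : ℂ →+* DualNumber ℂ) I)⁻¹ *
        bcs (φ : ℂ →+* DualNumber ℂ) I) i = bcs (φ : ℂ →+* DualNumber ℂ) I i := by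
      show (bcs (inlHom : ℂ →+* DualNumber ℂ) I i) * ((bcs (inlHom : ℂ →+* DualNumber ℂ) I i)⁻¹ *
        bcs (φ : ℂ →+* DualNumber ℂ) I i) = _
      rw [mul_inv_cancel_left]
    exact (congrArg (fun g : GL (Fin (T i).N) (DualNumber ℂ) =>
      (g : Matrix (Fin (T i).N) (Fin (T i).N) (DualNumber ℂ))) this).symm
  have hZ1 : ∀ i, (Z i).map TrivSqZeroExt.fst = (1 : Matrix (Fin (T i).N) (Fin (T i).N) ℂ) := by
    intro i
    have f1 := congrArg (fun Y : Matrix (Fin (T i).N) (Fin (T i).N) (DualNumber ℂ) =>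
      Y.map (TrivSqZeroExt.fstHom ℂ ℂ ℂ)) (hPZ i)
    simp only [Matrix.map_mul] at f1
    have f2 : ((T i).P.map φ).map (TrivSqZeroExt.fstHom ℂ ℂ ℂ) = (T i).P := by
      ext a b
      exact hφ _
    have f3 : (il (T i).P).map (TrivSqZeroExt.fstHom ℂ ℂ ℂ) = (T i).P := by
      ext a b
      rfl
    rw [f2, f3] at f1
    obtain ⟨P', hP'⟩ : ∃ P', P' * (T i).P = 1 := ⟨_, (T i).P_unit.val_inv_mul⟩
    have f4 := congrArg (fun Y => P' * Y) f1
    simp only [← Matrix.mul_assoc, hP', Matrix.one_mul] at f4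
    exact f4.symm
  have hZX : ∀ i, Z i = oe (X i) := fun i => eq_oe (hZ1 i)
  have hX : X ∈ G.lie := by
    rw [mem_lie]
    have : ogs X = (bcs (inlHom : ℂ →+* DualNumber ℂ) I)⁻¹ * bcs (φ : ℂ →+* DualNumber ℂ) I := by
      funext i
      apply Units.ext
      exact (hZX i).symm
    rw [this]
    exact e3
  have hPX : ∀ i, (T i).P.map φ = il (T i).P * oe (X i) := fun i => by rw [hPZ, hZX]
  -- the parts of `X`
  let H : ∀ i, HCoord (T i) := fun i => (exists_hcoord (T i)).some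
  have hmu : ∀ z : ℂˣ, (fun i => mu (H i).V (H i).t z : GLs (rks T) ℂ) ∈ G.pts ℂ := fun z =>
    h.mu z _ fun i p x hx => (H i).mu_eig z p x hx
  have hX0 : (fun i => (H i).X0 (X i) : Mats (rks T)) ∈ G.lie :=
    part_mem G (fun i => (H i).V) (fun i => (H i).t) hmu _ hX
  have hXm : (fun i => (H i).Xm (X i) : Mats (rks T)) ∈ G.lie :=
    part_mem G (fun i => (H i).V) (fun i => (H i).t) hmu _ hX
  have hXh : (fun i => (H i).Xh (X i) : Mats (rks T)) ∈ G.lie :=
    G.lie.add_mem hXm (frob_lie h hXm)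
  have k1 := h1 _ hXh fun i => (H i).Xh_comm (X i)
  have k2 := h2 _ hX0 fun i q x hx => (H i).X0_hodge (X i) q x hx
  -- the logarithmic derivative
  have hdet : ∀ i, LD φ (T i).P.det (X i).trace := by
    intro i
    have f1 : (T i).P.map φ = oe (0 : Matrix (Fin (T i).N) (Fin (T i).N) ℂ) * il (T i).P * oe (X i) := by
      rw [hPX, oe_zero, Matrix.one_mul]
    have := LD_det f1
    rwa [Matrix.trace_zero, zero_add] at this
  have hall := LD.prod hφ (Finset.univ : Finset ι)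
    (f := fun i => (∏ s, c i s ^ a i s) * (T i).P.det ^ d i)
    (τ := fun i => ∑ s, a i s * (((π i s * (H i).X0 (X i)).trace + ((H i).Xh (X i) * rc (eproj (T i) s)).trace)) +
      d i * (X i).trace)
    fun i _ => LD.mul hφ (LD.prod hφ _ fun s _ => LD.zpow hφ (LD_period (H i) (hPX i) (hc i s) (hπ i s)) _)
      (LD.zpow hφ (hdet i) _)
  have hzero : ∑ i, (∑ s, (a i s : ℂ) * (((π i s * (H i).X0 (X i)).trace +
      ((H i).Xh (X i) * rc (eproj (T i) s)).trace)) + d i * (X i).trace) = 0 := by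
    have k3 := congrArg₂ (· + ·) k1 k2
    simp only [add_zero] at k3
    rw [← Finset.sum_add_distrib] at k3
    rw [← k3]
    refine Finset.sum_congr rfl fun i _ => ?_
    have k4 : (X i).trace = ((H i).Xh (X i)).trace + ((H i).X0 (X i)).trace := (H i).trace_X (X i)
    rw [k4]
    simp only [mul_add, Finset.sum_add_distrib]
    ring
  unfold LD at hall
  rw [hall, hzero, mul_zero]

end

end Pool.Agent.H97.MR
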