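import Pool.Agent.H97.MR.Filt
import Pool.Agent.H97.MR.Main

set_option autoImplicit false
set_option linter.unusedSectionVars false

/-!
# Automorphisms of `ℂ`
-/

namespace Pool.Agent.H97.MR

open Matrix Pool.Agent.X33.DP

/-- the action of an endomorphism of `ℂ` on `ℂ[ε]` -/
noncomputable def dmap (σ : ℂ →+* ℂ) : DualNumber ℂ →ₐ[ℚ] DualNumber ℂ :=
  ({ toFun := fun z => TrivSqZeroExt.inl (σ z.fst) + TrivSqZeroExt.inr (σ z.snd)
     map_one' := by
       ext <;> simp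
     map_mul' := fun x y => by
       ext
       · simp
       · simp [mul_comm]
     map_zero' := by
       ext <;> simp
     map_add' := fun x y => by
       ext <;> simp } : DualNumber ℂ →+* DualNumber ℂ).toRatAlgHom

theorem fst_dmap (σ : ℂ →+* ℂ) (z : DualNumber ℂ) : TrivSqZeroExt.fst (dmap σ z) = σ z.fst := by
  show TrivSqZeroExt.fst (TrivSqZeroExt.inl (σ z.fst) + TrivSqZeroExt.inr (σ z.snd)) = _
  simp

theorem snd_dmap (σ : ℂ →+* ℂ) (z : DualNumber ℂ) : TrivSqZeroExt.snd (dmap σ z) = σ z.snd := by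
  show TrivSqZeroExt.snd (TrivSqZeroExt.inl (σ z.fst) + TrivSqZeroExt.inr (σ z.snd)) = _
  simp

theorem oe_dmap (σ : ℂ →+* ℂ) {n : ℕ} (X : Matrix (Fin n) (Fin n) ℂ) : (oe X).map (dmap σ) = oe (X.map σ) := by
  refine Matrix.ext fun i j => ?_
  rw [Matrix.map_apply]
  refine TrivSqZeroExt.ext ?_ ?_
  · rw [fst_dmap]
    by_cases hij : i = j
    · subst hij
      simp [oe]
    · simp [oe, hij]
  · rw [snd_dmap]
    by_cases hij : i = j
    · subst hij
      simp [oe]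
    · simp [oe, hij]

section

variable {ι : Type} {N : ι → ℕ}

/-- the action of `σ` on points -/
def sg (σ : ℂ →+* ℂ) (g : GLs N ℂ) : GLs N ℂ := bcs σ g

/-- the action of `σ` on families of matrices -/
def sm (σ : ℂ →+* ℂ) (X : Mats N) : Mats N := fun i => (X i).map σ

theorem sg_mem (σ : ℂ →+* ℂ) (P : TorsorFunctor N) {g : GLs N ℂ} (hg : g ∈ P.pts ℂ) : sg σ g ∈ P.pts ℂ :=
  P.map_mem _ _ σ.toRatAlgHom g hg

theorem sm_lie (σ : ℂ →+* ℂ) (G : SubgroupFunctor N) {X : Mats N} (hX : X ∈ G.lie) : sm σ X ∈ G.lie := by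
  rw [mem_lie] at *
  have h1 := G.map_mem _ _ (dmap σ) _ hX
  have h2 : bcs (dmap σ : DualNumber ℂ →+* DualNumber ℂ) (ogs X) = ogs (sm σ X) := by
    funext i
    apply Units.ext
    exact oe_dmap σ (X i)
  rwa [h2] at h1

theorem inv_sg (σ : ℂ →+* ℂ) (g : GLs N ℂ) : (sg σ g)⁻¹ = sg σ g⁻¹ := by
  funext i
  exact (map_inv (Matrix.GeneralLinearGroup.map σ) (g i)).symm

theorem sm_adj (σ : ℂ →+* ℂ) (g : GLs N ℂ) (X : Mats N) : sm σ (adj g X) = adj (sg σ g) (sm σ X) := by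
  funext i
  show ((g i : Matrix (Fin (N i)) (Fin (N i)) ℂ) * X i * (((g i)⁻¹ : GL (Fin (N i)) ℂ) :
    Matrix (Fin (N i)) (Fin (N i)) ℂ)).map σ = _
  have h1 : (sg σ g i)⁻¹ = sg σ g⁻¹ i := congrFun (inv_sg σ g) i
  show _ = (sg σ g i : Matrix (Fin (N i)) (Fin (N i)) ℂ) * sm σ X i * (((sg σ g i)⁻¹ : GL (Fin (N i)) ℂ) :
    Matrix (Fin (N i)) (Fin (N i)) ℂ)
  rw [h1, Matrix.map_mul, Matrix.map_mul]
  rfl

theorem sm_sub (σ : ℂ →+* ℂ) (X Y : Mats N) : sm σ (X - Y) = sm σ X - sm σ Y := by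
  funext i
  exact Matrix.map_sub _ (map_sub σ) _ _

theorem sm_symm (σ : ℂ ≃+* ℂ) (X : Mats N) : sm (σ : ℂ →+* ℂ) (sm (σ.symm : ℂ →+* ℂ) X) = X := by
  funext i
  ext a b
  exact σ.apply_symm_apply _

end

theorem rc_map (σ : ℂ →+* ℂ) {m n : Type} (X : Matrix m n ℚ) : (rc X).map σ = rc X := by
  ext i j
  show σ (algebraMap ℚ ℂ (X i j)) = algebraMap ℚ ℂ (X i j)
  simp

variable {T : PMot ℚ ℂ}

theorem comp_mem_cfil (σ : ℂ →+* ℂ) {q : ℤ} {z : Fin T.N → ℂ} (hz : z ∈ cfil T q) : (fun j => σ (z j)) ∈ cfil T q := by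
  unfold cfil at *
  induction hz using Submodule.span_induction with
  | mem z hz =>
    obtain ⟨y, hy, rfl⟩ := hz
    refine Submodule.subset_span ⟨y, hy, ?_⟩
    funext j
    simp
  | zero =>
    have : (fun j => σ ((0 : Fin T.N → ℂ) j)) = 0 := by
      funext j
      simp
    rw [this]
    exact Submodule.zero_mem _
  | add x y _ _ hx hy =>
    have : (fun j => σ ((x + y) j)) = (fun j => σ (x j)) + fun j => σ (y j) := by
      funext j
      simp
    rw [this]
    exact Submodule.add_mem _ hx hy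
  | smul c x _ hx =>
    have : (fun j => σ ((c • x) j)) = σ c • fun j => σ (x j) := by
      funext j
      simp
    rw [this]
    exact Submodule.smul_mem _ _ hx

theorem PresFil.map (σ : ℂ →+* ℂ) {Y : Matrix (Fin T.N) (Fin T.N) ℂ} (hY : PresFil T Y) : PresFil T (Y.map σ) := by
  intro q z hz
  unfold cfil at hz
  induction hz using Submodule.span_induction with
  | mem z hz =>
    obtain ⟨y, hy, rfl⟩ := hz
    have h1 := comp_mem_cfil σ (hY q _ (Submodule.subset_span ⟨y, hy, rfl⟩))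
    have h2 : (Y.map σ).mulVec (fun j => algebraMap ℚ ℂ (y j)) =
        fun i => σ (Y.mulVec (fun j => algebraMap ℚ ℂ (y j)) i) := by
      funext i
      simp [Matrix.mulVec, dotProduct]
    show (Y.map σ).mulVec (fun j => algebraMap ℚ ℂ (y j)) ∈ _
    rw [h2]
    exact h1
  | zero => rw [Matrix.mulVec_zero]; exact Submodule.zero_mem _
  | add x y _ _ hx hy => rw [Matrix.mulVec_add]; exact Submodule.add_mem _ hx hy
  | smul c x _ hx => rw [Matrix.mulVec_smul]; exact Submodule.smul_mem _ _ hx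

end Pool.Agent.H97.MR
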