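import Pool.Agent.H97.MR.Curve

set_option autoImplicit false
set_option linter.unusedSectionVars false

/-!
# Necessity of the trace conditions
-/

namespace Pool.Agent.H97.MR

open Matrix NormedSpace Pool.Agent.X33.DP

section

variable {ι : Type} {T : ι → PMot ℚ ℂ} {G : SubgroupFunctor (rks T)} {P : TorsorFunctor (rks T)}

open scoped Matrix.Norms.Operator in
theorem exp_comm {n : ℕ} (X : Matrix (Fin n) (Fin n) ℂ) (t : ℂ) : exp (t • X) * X = X * exp (t • X) :=
  (((Commute.refl X).smul_left t).exp_left).eq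

theorem gam_conj (X : Mats (rks T)) (q : GLs (rks T) ℂ) (t : ℂ) (i : ι) :
    ((q * gam X t) i : Matrix (Fin (T i).N) (Fin (T i).N) ℂ) * X i *
      ((((q * gam X t) i)⁻¹ : GL (Fin (T i).N) ℂ) : Matrix (Fin (T i).N) (Fin (T i).N) ℂ) = adj q X i := by
  have h1 : (((q * gam X t) i)⁻¹ : GL (Fin (T i).N) ℂ) = (gam X t i)⁻¹ * (q i)⁻¹ := _root_.mul_inv_rev _ _
  have h2 : (gam X t i : Matrix (Fin (T i).N) (Fin (T i).N) ℂ) * X i = X i *
      (gam X t i : Matrix (Fin (T i).N) (Fin (T i).N) ℂ) := exp_comm (X i) t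
  rw [h1]
  show (q i : Matrix (Fin (T i).N) (Fin (T i).N) ℂ) * (gam X t i : Matrix (Fin (T i).N) (Fin (T i).N) ℂ) * X i *
    ((((gam X t i)⁻¹ : GL (Fin (T i).N) ℂ) : Matrix (Fin (T i).N) (Fin (T i).N) ℂ) *
      (((q i)⁻¹ : GL (Fin (T i).N) ℂ) : Matrix (Fin (T i).N) (Fin (T i).N) ℂ)) = _
  rw [Matrix.mul_assoc (q i : Matrix (Fin (T i).N) (Fin (T i).N) ℂ), h2, ← Matrix.mul_assoc, ← Matrix.mul_assoc,
    Matrix.mul_assoc _ (gam X t i : Matrix (Fin (T i).N) (Fin (T i).N) ℂ), Units.mul_inv, Matrix.mul_one]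
  rfl

/-- if the monomial takes only finitely many values, the trace conditions hold -/
theorem conv [Fintype ι] (h : IsGrp T G P)
    (hG : IsClosedQ (N := rks T) fun A _ _ => (G.pts A : Set (GLs (rks T) A)))
    (hPG : ∀ p ∈ P.pts ℂ, ∀ g ∈ G.pts ℂ, p * g ∈ P.pts ℂ)
    (a : ι → ℤˣ → ℤ) (d : ι → ℤ) (p : ι → ℤˣ → ℤ)
    (π : ∀ i, ℤˣ → Matrix (Fin (T i).N) (Fin (T i).N) ℂ) (hπ : ∀ i s, IsLowProj (T i) (p i s) (π i s))
    {n : ι → ℤˣ → ℕ} {Q : ∀ i s, Matrix (Fin (n i s)) (Fin (T i).N) ℚ}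
    {B : ∀ i s, Matrix (Fin (T i).N) (Fin (n i s)) ℚ}
    (hB : ∀ i s, Function.Injective (B i s).mulVec)
    (hB' : ∀ i s, LinearMap.range (B i s).mulVecLin = (T i).eig s)
    (hQ0 : ∀ i s, Function.Surjective (Q i s).mulVec)
    (hQ : ∀ i s, LinearMap.ker (Q i s).mulVecLin = (T i).fil (p i s))
    {S : Set ℂ} (hS : S.Finite)
    (hval : ∀ g ∈ P.pts ℂ, (∀ i s, perf (Q i s) (B i s) g ≠ 0) → mono a d (fun i s => perf (Q i s) (B i s)) g ∈ S) :
    (∀ X ∈ G.lie, (∀ i, X i * rc (T i).F = rc (T i).F * X i) →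
      ∑ i, (∑ s, a i s * (X i * rc (eproj (T i) s)).trace + d i * (X i).trace) = 0) ∧
    (∀ X ∈ G.lie, (∀ i q, ∀ x ∈ (T i).H q, (X i).mulVec x ∈ (T i).H q) →
      ∑ i, (∑ s, a i s * (π i s * X i).trace + d i * (X i).trace) = 0) := by
  choose R hR using fun i s => exists_right_inv' (hQ0 i s)
  have hne : ∀ i s, perf (Q i s) (B i s) (comps T) ≠ 0 := by
    intro i s
    have h1 : IsStepPeriod (T i) s (p i s) (perf (Q i s) (B i s) (comps T)) :=
      ⟨n i s, B i s, Q i s, hB i s, hB' i s, hQ0 i s, hQ i s, rfl⟩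
    exact h1.ne_zero
  have hm0 : mono a d (fun i s => perf (Q i s) (B i s)) (comps T) ≠ 0 := by
    unfold mono
    refine Finset.prod_ne_zero_iff.2 fun i _ => mul_ne_zero (Finset.prod_ne_zero_iff.2 fun s _ => ?_) ?_
    · exact zpow_ne_zero _ (hne i s)
    · refine zpow_ne_zero _ ?_
      exact ((Matrix.isUnit_iff_isUnit_det _).1 (comps T i).isUnit).ne_zero
  have key : ∀ (X : Mats (rks T)) (_ : X ∈ G.lie) (l : ι → ℤˣ → ℂ),
      (∀ i s t, HasDerivAt (fun t => perf (Q i s) (B i s) (comps T * gam X t))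
        (perf (Q i s) (B i s) (comps T * gam X t) * l i s) t) →
      ∑ i, (∑ s, a i s * l i s + d i * (X i).trace) = 0 := by
    intro X hX l hl
    have h1 : ∀ i s t, perf (Q i s) (B i s) (comps T * gam X t) =
        perf (Q i s) (B i s) (comps T) * Complex.exp (l i s * t) := by
      intro i s t
      have h2 := ode (hl i s) t
      rw [gam_zero, mul_one] at h2
      exact h2
    refine zero_of_finite hm0 hS fun t => ?_
    have h2 := mono_curve a d (fun i s => perf (Q i s) (B i s)) X (comps T) l h1 t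
    rw [← h2]
    refine hval _ (hPG _ h.comp _ (gam_mem hG hX t)) fun i s => ?_
    rw [h1]
    exact mul_ne_zero (hne i s) (Complex.exp_ne_zero _)
  constructor
  · intro X hX hXF
    refine key X hX (fun i s => (X i * rc (eproj (T i) s)).trace) fun i s t => ?_
    have h1 := perf_deriv X (comps T) (hB i s) (hB' i s) (hQ i s) (hR i s) (Xh := X i) (Y := 0) (hXF i)
      (fun q z _ => by rw [Matrix.zero_mulVec]; exact Submodule.zero_mem _) t (by rw [zero_add])
    rwa [Matrix.mul_zero, Matrix.zero_mul, Matrix.trace_zero, zero_add] at h1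
  · intro X hX hXH
    let H : ∀ i, HCoord (T i) := fun i => (exists_hcoord (T i)).some
    have hup : ∀ i, (H i).Up (X i) := by
      intro i k l hkl
      exact ((H i).entry (X i) k l).trans ((H i).repr_zero (hXH i _ _ ((H i).v_mem l)) hkl.ne)
    have hpres : ∀ i, PresFil (T i) (adj (comps T) X i) := fun i =>
      (H i).pres_of_up (inv_comps_val i) (hup i)
    have hinv : ∀ i, (((comps T)⁻¹ i : GL (Fin (T i).N) ℂ) : Matrix (Fin (T i).N) (Fin (T i).N) ℂ) *
        adj (comps T) X i * (T i).P = X i := by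
      intro i
      rw [← adj_inv_comps, adj_mul, inv_mul_cancel, adj_one]
    have htr : ∀ i s, (rc (Q i s) * adj (comps T) X i * rc (R i s)).trace = (π i s * X i).trace := by
      intro i s
      rw [trace_quot (H i) (hπ i s) (inv_comps_val i) (hpres i) (hQ i s) (hR i s), hinv, ← (H i).trace_proj_up (hπ i s)]
    refine key X hX (fun i s => (π i s * X i).trace) fun i s t => ?_
    have h1 := perf_deriv X (comps T) (hB i s) (hB' i s) (hQ i s) (hR i s) (Xh := 0) (Y := adj (comps T) X i)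
      (by rw [Matrix.zero_mul, Matrix.mul_zero]) (hpres i) t (by
        rw [gam_conj, Matrix.mul_zero, Matrix.zero_mul, add_zero])
    rwa [Matrix.zero_mul, Matrix.trace_zero, add_zero, htr] at h1

/-- the values of an algebraic function on the points with a generic comparison isomorphism -/
theorem finite_of_generic [Fintype ι]
    (hgen : ∀ f : MvPolynomial (Co (rks T)) ℚ, value f (comps T) = 0 → ∀ g ∈ P.pts ℂ, value f g = 0)
    (a : ι → ℤˣ → ℤ) (d : ι → ℤ) {n : ι → ℤˣ → ℕ} {Q : ∀ i s, Matrix (Fin (n i s)) (Fin (T i).N) ℚ}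
    {B : ∀ i s, Matrix (Fin (T i).N) (Fin (n i s)) ℚ}
    (hne : ∀ i s, perf (Q i s) (B i s) (comps T) ≠ 0)
    (halg : IsAlgebraic ℚ (mono a d (fun i s => perf (Q i s) (B i s)) (comps T))) :
    ∃ S : Set ℂ, S.Finite ∧ ∀ g ∈ P.pts ℂ, (∀ i s, perf (Q i s) (B i s) g ≠ 0) →
      mono a d (fun i s => perf (Q i s) (B i s)) g ∈ S := by
  obtain ⟨f, hf, hf'⟩ := halg
  set per : ι → ℤˣ → GLs (rks T) ℂ → ℂ := fun i s => perf (Q i s) (B i s) with hper
  let W : (ι → ℤˣ → ℕ) → (ι → ℕ) → MvPolynomial (Co (rks T)) ℚ := fun a d =>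
    ∏ i, ((∏ s, pf (rks T) ℚ (i := i) (Q i s) (B i s) ^ a i s) * (pmat (rks T) ℚ i).det ^ d i)
  have hW : ∀ a d (g : GLs (rks T) ℂ), value (W a d) g = npart a d per g := by
    intro a d g
    have h1 : ∀ i s, value (pf (rks T) ℚ (i := i) (Q i s) (B i s)) g = per i s g := fun i s =>
      value_pf (N := rks T) (k := ℚ) (A := ℂ) (i := i) (Q i s) (B i s) g
    have h2 : ∀ i, value (pmat (rks T) ℚ i).det g = (g i : Matrix (Fin (T i).N) (Fin (T i).N) ℂ).det :=
      fun i => value_det_pmat i g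
    unfold value at *
    unfold npart
    simp only [W, map_prod, map_mul, map_pow, h1, h2]
  set U := W (fun i s => (a i s).toNat) (fun i => (d i).toNat) with hU
  set V := W (fun i s => (-a i s).toNat) (fun i => (-d i).toNat) with hV
  have hmono : ∀ g, mono a d per g = value U g / value V g := fun g => by rw [mono_eq, hU, hV, hW, hW]
  have hVne : ∀ g : GLs (rks T) ℂ, (∀ i s, per i s g ≠ 0) → value V g ≠ 0 := by
    intro g hg
    rw [hV, hW]
    unfold npart
    refine Finset.prod_ne_zero_iff.2 fun i _ => mul_ne_zero (Finset.prod_ne_zero_iff.2 fun s _ => ?_) ?_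
    · exact pow_ne_zero _ (hg i s)
    · exact pow_ne_zero _ ((Matrix.isUnit_iff_isUnit_det _).1 (g i).isUnit).ne_zero
  -- the homogeneous polynomial
  let Hp : MvPolynomial (Co (rks T)) ℚ :=
    ∑ j ∈ Finset.range (f.natDegree + 1), MvPolynomial.C (f.coeff j) * U ^ j * V ^ (f.natDegree - j)
  have hHp : ∀ g : GLs (rks T) ℂ, value V g ≠ 0 →
      value Hp g = value V g ^ f.natDegree * Polynomial.aeval (value U g / value V g) f := by
    intro g hg
    rw [Polynomial.aeval_eq_sum_range, Finset.mul_sum]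
    show MvPolynomial.aeval (coords g) Hp = _
    simp only [Hp, map_sum, map_mul, map_pow, MvPolynomial.aeval_C]
    refine Finset.sum_congr rfl fun j hj => ?_
    have hj' : j ≤ f.natDegree := Nat.lt_succ_iff.1 (Finset.mem_range.1 hj)
    show algebraMap ℚ ℂ (f.coeff j) * value U g ^ j * value V g ^ (f.natDegree - j) =
      value V g ^ f.natDegree * (f.coeff j • (value U g / value V g) ^ j)
    rw [Algebra.smul_def, div_pow]
    have h3 : value V g ^ f.natDegree = value V g ^ (f.natDegree - j) * value V g ^ j := by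
      rw [← pow_add, Nat.sub_add_cancel hj']
    rw [h3]
    field_simp
  refine ⟨{z | Polynomial.aeval z f = 0}, ?_, ?_⟩
  · have h4 : {z : ℂ | Polynomial.aeval z f = 0} ⊆ ((f.map (algebraMap ℚ ℂ)).roots.toFinset : Set ℂ) := by
      intro z hz
      rw [Finset.mem_coe, Multiset.mem_toFinset, Polynomial.mem_roots', Polynomial.IsRoot.def,
        Polynomial.eval_map_algebraMap]
      exact ⟨(Polynomial.map_ne_zero_iff (algebraMap ℚ ℂ).injective).2 hf, hz⟩
    exact (Finset.finite_toSet _).subset h4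
  · intro g hg hgne
    have h5 : value Hp (comps T) = 0 := by
      rw [hHp _ (hVne _ hne), ← hmono, hf', mul_zero]
    have h6 := hgen Hp h5 g hg
    rw [hHp _ (hVne _ hgne), ← hmono] at h6
    rcases mul_eq_zero.1 h6 with h7 | h7
    · exact absurd h7 (pow_ne_zero _ (hVne _ hgne))
    · exact h7

end

end Pool.Agent.H97.MR
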