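import Pool.Agent.H97.MR.Filt
import Pool.Agent.H97.MR.Main

set_option autoImplicit false
set_option linter.unusedSectionVars false

/-!
# The periods are not zero
-/

namespace Pool.Agent.H97.MR

open Matrix Pool.Agent.X33.DP

variable {T : PMot ℚ ℂ}

theorem rc_eproj (T : PMot ℚ ℂ) (s : ℤˣ) : rc (eproj T s) = (1 / 2 : ℂ) • (1 + ((s : ℤ) : ℂ) • rc T.F) := by
  unfold eproj
  ext i j
  by_cases hij : i = j
  · subst hij
    simp
    ring
  · simp [hij]

theorem sc_sq (s : ℤˣ) : ((s : ℤ) : ℂ) * ((s : ℤ) : ℂ) = 1 := by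
  rcases Int.units_eq_one_or s with rfl | rfl <;> simp

/-- Deligne's periods are not zero -/
theorem IsStepPeriod.ne_zero {s : ℤˣ} {p : ℤ} {c : ℂ} (hc : IsStepPeriod T s p c) : c ≠ 0 := by
  obtain ⟨n, B, Q, hB, hB', hQ, hQ', rfl⟩ := hc
  obtain ⟨C, hCB, hBC⟩ := eig_coords s hB hB'
  obtain ⟨R, hR⟩ := exists_right_inv' hQ
  obtain ⟨P', hP'⟩ : ∃ P', P' * T.P = 1 := ⟨_, T.P_unit.val_inv_mul⟩
  have hP'' : T.P * P' = 1 := mul_eq_one_comm.1 hP'
  obtain ⟨h⟩ := exists_hcoord T
  obtain ⟨π, hπ⟩ := exists_lowProj T p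
  have hb := h.quot_proj hπ hQ'
  have ha := proj_quot hP' hπ hQ' hR
  show (rc Q * T.P * rc B).det ≠ 0
  have key : ∀ M' : Matrix (Fin n) (Fin n) ℂ, rc Q * T.P * rc B * M' = 1 → (rc Q * T.P * rc B).det ≠ 0 := by
    intro M' hM' h0
    have h1 := congrArg Matrix.det hM'
    rw [Matrix.det_mul, h0, zero_mul, Matrix.det_one] at h1
    exact zero_ne_one h1
  rcases le_or_gt (2 * p) (T.w + 1) with hp | hp
  · have h1 : π * rc T.F * π = 0 := by
      refine h.co_inj ?_
      ext k l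
      rw [h.co_mul_proj hπ, h.co_proj_mul hπ]
      have h0 : h.co (0 : Matrix (Fin T.N) (Fin T.N) ℂ) k l = 0 := by
        unfold HCoord.co
        rw [Matrix.mul_zero, Matrix.zero_mul]
        rfl
      rw [h0]
      by_cases hl : h.t l < p
      · by_cases hk : h.t k < p
        · rw [if_pos hl, if_pos hk]
          have : h.co (rc T.F) k l = 0 := h.F_entry (by omega)
          exact this
        · rw [if_pos hl, if_neg hk]
      · rw [if_neg hl]
    have h2 : rc Q * T.P * rc T.F * π = 0 := by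
      rw [← hb, Matrix.mul_assoc, Matrix.mul_assoc, ← Matrix.mul_assoc π, h1, Matrix.mul_zero]
    have h3 : rc Q * T.P * rc (eproj T s) * π = (1 / 2 : ℂ) • (rc Q * T.P) := by
      rw [rc_eproj, Matrix.mul_smul, Matrix.smul_mul, Matrix.mul_add, Matrix.mul_one, Matrix.mul_smul, Matrix.add_mul,
        Matrix.smul_mul, h2, hb, smul_zero, add_zero]
    refine key ((2 : ℂ) • (rc C * (π * P' * rc R))) ?_
    rw [Matrix.mul_smul, ← Matrix.mul_assoc, Matrix.mul_assoc (rc Q * T.P) (rc B) (rc C), ← rc_mul, hBC,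
      ← Matrix.mul_assoc, ← Matrix.mul_assoc, h3, Matrix.smul_mul, Matrix.smul_mul, Matrix.mul_assoc (rc Q), hP'',
      Matrix.mul_one, ← rc_mul, hR, rc_one, smul_smul]
    norm_num
  · have h1 : (1 - π) * rc T.F * (1 - π) = 0 := by
      refine h.co_inj ?_
      ext k l
      have h0 : h.co (0 : Matrix (Fin T.N) (Fin T.N) ℂ) k l = 0 := by
        unfold HCoord.co
        rw [Matrix.mul_zero, Matrix.zero_mul]
        rfl
      rw [h0, Matrix.mul_sub, Matrix.mul_one, h.co_sub, Matrix.sub_apply, h.co_mul_proj hπ, Matrix.sub_mul,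
        Matrix.one_mul, h.co_sub, Matrix.sub_apply, h.co_proj_mul hπ]
      by_cases hl : h.t l < p
      · rw [if_pos hl, sub_self]
      · by_cases hk : h.t k < p
        · rw [if_neg hl, if_pos hk, sub_self, sub_self]
        · rw [if_neg hl, if_neg hk, sub_zero, sub_zero]
          exact h.F_entry (by omega)
    have hFB : rc T.F * rc B = ((s : ℤ) : ℂ) • rc B := by
      have h2 : rc (eproj T s) * rc B = rc B := by rw [← hBC, rc_mul, Matrix.mul_assoc, ← rc_mul C, hCB, rc_one,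
        Matrix.mul_one]
      have h3 : rc T.F * rc (eproj T s) = ((s : ℤ) : ℂ) • rc (eproj T s) := by
        rw [rc_eproj, Matrix.mul_smul, Matrix.mul_add, Matrix.mul_one, Matrix.mul_smul, F_sq',
          smul_comm (((s : ℤ) : ℂ)) ((1 / 2 : ℂ)), smul_add (((s : ℤ) : ℂ)), smul_smul (((s : ℤ) : ℂ)) (((s : ℤ) : ℂ)),
          sc_sq, one_smul, add_comm]
      calc rc T.F * rc B = rc T.F * (rc (eproj T s) * rc B) := by rw [h2]
        _ = _ := by rw [← Matrix.mul_assoc, h3, Matrix.smul_mul, h2]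
    have hB2 : rc B = ((s : ℤ) : ℂ) • (rc T.F * rc B) := by
      rw [hFB, smul_smul, sc_sq, one_smul]
    have h4 : (1 - π) * rc B = ((s : ℤ) : ℂ) • ((1 - π) * rc T.F * π * rc B) := by
      have e1 : (1 - π) * rc B = ((s : ℤ) : ℂ) • ((1 - π) * rc T.F * rc B) := by
        nth_rewrite 1 [hB2]
        rw [Matrix.mul_smul, Matrix.mul_assoc]
      have e2 : ∀ Y : Matrix (Fin T.N) (Fin T.N) ℂ, Y * rc B = Y * π * rc B + Y * (1 - π) * rc B := by
        intro Y
        rw [Matrix.mul_sub, Matrix.mul_one, Matrix.sub_mul, add_sub_cancel]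
      rw [e1, e2 ((1 - π) * rc T.F), h1, Matrix.zero_mul, add_zero]
    have h5 : (π + ((s : ℤ) : ℂ) • ((1 - π) * rc T.F * π)) * rc B = rc B := by
      rw [Matrix.add_mul, Matrix.smul_mul, ← h4, Matrix.sub_mul, Matrix.one_mul]
      abel
    have h6 : (rc C * ((1 + ((s : ℤ) : ℂ) • ((1 - π) * rc T.F)) * (π * P' * rc R))) * (rc Q * T.P * rc B) = 1 := by
      have e1 : π * P' * rc R * (rc Q * T.P * rc B) = π * rc B := by
        rw [← Matrix.mul_assoc, ← Matrix.mul_assoc, ha, Matrix.mul_assoc π, hP', Matrix.mul_one]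
      rw [Matrix.mul_assoc, Matrix.mul_assoc, e1, ← Matrix.mul_assoc (1 + _), Matrix.add_mul, Matrix.one_mul,
        Matrix.smul_mul, h5, ← rc_mul, hCB, rc_one]
    refine key _ (mul_eq_one_comm.1 h6)

end Pool.Agent.H97.MR
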