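import Pool.Agent.H97.MR.Good

set_option autoImplicit false
set_option linter.unusedSectionVars false

/-!
# Monomials of periods: the degree
-/

namespace Pool.Agent.H97.MR

open Matrix Cardinal Pool.Agent.X33.DP

section

variable {ι : Type} {T : ι → PMot ℚ ℂ} {G : SubgroupFunctor (rks T)} {P : TorsorFunctor (rks T)}

/-- the functional on the de Rham side vanishes on `WW` -/
theorem chi_dr [Fintype ι] (h : IsGrp T G P) (a : ι → ℤˣ → ℤ) (d : ι → ℤ) (p : ι → ℤˣ → ℤ)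
    (π : ∀ i, ℤˣ → Matrix (Fin (T i).N) (Fin (T i).N) ℂ) (hπ : ∀ i s, IsLowProj (T i) (p i s) (π i s))
    (h2 : ∀ X ∈ G.lie, (∀ i q, ∀ x ∈ (T i).H q, (X i).mulVec x ∈ (T i).H q) →
      ∑ i, (∑ s, a i s * (π i s * X i).trace + d i * (X i).trace) = 0)
    {n : ι → ℤˣ → ℕ} {Q : ∀ i s, Matrix (Fin (n i s)) (Fin (T i).N) ℚ}
    (hQ : ∀ i s, LinearMap.ker (Q i s).mulVecLin = (T i).fil (p i s))
    {R : ∀ i s, Matrix (Fin (T i).N) (Fin (n i s)) ℚ} (hR : ∀ i s, Q i s * R i s = 1)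
    {Y : Mats (rks T)} (hY : Y ∈ WW G) :
    ∑ i, (∑ s, a i s * (rc (Q i s) * Y i * rc (R i s)).trace + d i * (Y i).trace) = 0 := by
  let H : ∀ i, HCoord (T i) := fun i => (exists_hcoord (T i)).some
  set X : Mats (rks T) := adj (comps T)⁻¹ Y with hX
  have hXl : X ∈ G.lie := hY.1
  have hX0 : (fun i => (H i).X0 (X i) : Mats (rks T)) ∈ G.lie :=
    part_mem G (fun i => (H i).V) (fun i => (H i).t) (cochar h H) _ hXl
  have k2 := h2 _ hX0 fun i q x hx => (H i).X0_hodge (X i) q x hx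
  rw [← k2]
  refine Finset.sum_congr rfl fun i _ => ?_
  have e1 : ∀ s, (rc (Q i s) * Y i * rc (R i s)).trace = (π i s * (H i).X0 (X i)).trace := by
    intro s
    rw [trace_quot (H i) (hπ i s) (inv_comps_val i) (hY.2 i) (hQ i s) (hR i s), hX, adj_inv_comps]
  have e2 : (Y i).trace = ((H i).X0 (X i)).trace := by
    rw [← (H i).trace_up, hX, adj_trace]
  rw [e2]
  simp only [e1]

/-- the monomial as a function on the torsor -/
noncomputable def mono [Fintype ι] (a : ι → ℤˣ → ℤ) (d : ι → ℤ) (per : ι → ℤˣ → GLs (rks T) ℂ → ℂ)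
    (g : GLs (rks T) ℂ) : ℂ :=
  ∏ i, ((∏ s, per i s g ^ a i s) * (g i : Matrix (Fin (T i).N) (Fin (T i).N) ℂ).det ^ d i)

/-- the numerator or the denominator -/
noncomputable def npart [Fintype ι] (a : ι → ℤˣ → ℕ) (d : ι → ℕ) (per : ι → ℤˣ → GLs (rks T) ℂ → ℂ)
    (g : GLs (rks T) ℂ) : ℂ :=
  ∏ i, ((∏ s, per i s g ^ a i s) * (g i : Matrix (Fin (T i).N) (Fin (T i).N) ℂ).det ^ d i)

theorem zpow_split (x : ℂ) (k : ℤ) : x ^ k = x ^ k.toNat / x ^ (-k).toNat := by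
  rcases le_total 0 k with hk | hk
  · obtain ⟨m, rfl⟩ := Int.eq_ofNat_of_zero_le hk
    have h1 : ((m : ℤ)).toNat = m := Int.toNat_natCast m
    have h2 : (-(m : ℤ)).toNat = 0 := by omega
    rw [h1, h2, pow_zero, div_one, zpow_natCast]
  · obtain ⟨m, hm⟩ := Int.eq_ofNat_of_zero_le (neg_nonneg.2 hk)
    have h1 : k = -(m : ℤ) := by omega
    rw [h1]
    have h2 : (-(m : ℤ)).toNat = 0 := by omega
    have h3 : (- -(m : ℤ)).toNat = m := by omega
    rw [h2, h3, pow_zero, one_div, _root_.zpow_neg, zpow_natCast]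

theorem mono_eq [Fintype ι] (a : ι → ℤˣ → ℤ) (d : ι → ℤ) (per : ι → ℤˣ → GLs (rks T) ℂ → ℂ)
    (g : GLs (rks T) ℂ) : mono a d per g =
      npart (fun i s => (a i s).toNat) (fun i => (d i).toNat) per g /
      npart (fun i s => (-a i s).toNat) (fun i => (-d i).toNat) per g := by
  unfold mono npart
  rw [← Finset.prod_div_distrib]
  refine Finset.prod_congr rfl fun i _ => ?_
  rw [zpow_split _ (d i), mul_div_mul_comm, ← Finset.prod_div_distrib]
  congr 1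
  exact Finset.prod_congr rfl fun s _ => zpow_split _ _

theorem npart_reg [Fintype ι] {k : Subfield ℂ} (a : ι → ℤˣ → ℕ) (d : ι → ℕ) {per : ι → ℤˣ → GLs (rks T) ℂ → ℂ}
    (hper : ∀ i s, per i s ∈ Reg (rks T) k) : npart a d per ∈ Reg (rks T) k := by
  have e : npart a d per = ∏ i, ((∏ s, per i s ^ a i s) *
      (fun g : GLs (rks T) ℂ => (g i : Matrix (Fin (T i).N) (Fin (T i).N) ℂ).det) ^ d i) := by
    funext g
    unfold npart
    rw [Finset.prod_apply]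
    refine Finset.prod_congr rfl fun i _ => ?_
    rw [Pi.mul_apply, Finset.prod_apply]
    rfl
  rw [e]
  refine prod_mem fun i _ => mul_mem (prod_mem fun s _ => pow_mem (hper i s) _) (pow_mem ?_ _)
  exact Reg.det fun x y => Reg.entry k i x y

/-- a period as a function on the torsor -/
noncomputable def perf {i : ι} {n : ℕ} (Q : Matrix (Fin n) (Fin (T i).N) ℚ) (B : Matrix (Fin (T i).N) (Fin n) ℚ)
    (g : GLs (rks T) ℂ) : ℂ :=
  (rc Q * (g i : Matrix (Fin (T i).N) (Fin (T i).N) ℂ) * rc B).det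

theorem perf_reg {k : Subfield ℂ} {i : ι} {n : ℕ} (Q : Matrix (Fin n) (Fin (T i).N) ℚ)
    (B : Matrix (Fin (T i).N) (Fin n) ℚ) : (perf Q B : GLs (rks T) ℂ → ℂ) ∈ Reg (rks T) k := by
  refine Reg.det (M := fun g : GLs (rks T) ℂ => rc Q * (g i : Matrix (Fin (T i).N) (Fin (T i).N) ℂ) * rc B)
    fun x y => ?_
  have e : (fun g : GLs (rks T) ℂ => (rc Q * (g i : Matrix (Fin (T i).N) (Fin (T i).N) ℂ) * rc B) x y) =
      ∑ w, (∑ z, (fun _ : GLs (rks T) ℂ => algebraMap ℚ ℂ (Q x z)) *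
        fun g : GLs (rks T) ℂ => (g i : Matrix (Fin (T i).N) (Fin (T i).N) ℂ) z w) *
        fun _ => algebraMap ℚ ℂ (B w y) := by
    funext g
    rw [Matrix.mul_apply, Finset.sum_apply]
    refine Finset.sum_congr rfl fun w _ => ?_
    rw [Matrix.mul_apply, Pi.mul_apply, Finset.sum_apply]
    rfl
  rw [e]
  have hr : ∀ q : ℚ, algebraMap ℚ ℂ q ∈ k := fun q => by
    rw [eq_ratCast]
    exact SubfieldClass.ratCast_mem k q
  exact sum_mem fun w _ => mul_mem (sum_mem fun z _ => mul_mem (Reg.const (hr _)) (Reg.entry k i z w))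
    (Reg.const (hr _))

theorem perf_conj (σ : ℂ →+* ℂ) {i : ι} {n : ℕ} (Q : Matrix (Fin n) (Fin (T i).N) ℚ)
    (B : Matrix (Fin (T i).N) (Fin n) ℚ) (g : GLs (rks T) ℂ) : perf Q B (sg σ g) = σ (perf Q B g) := by
  unfold perf
  rw [RingHom.map_det]
  congr 1
  have h1 : σ.mapMatrix (rc Q * (g i : Matrix (Fin (T i).N) (Fin (T i).N) ℂ) * rc B) =
      (rc Q * (g i : Matrix (Fin (T i).N) (Fin (T i).N) ℂ) * rc B).map σ := rfl
  rw [h1, Matrix.map_mul, Matrix.map_mul, rc_map, rc_map]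
  rfl

theorem npart_conj [Fintype ι] (σ : ℂ →+* ℂ) (a : ι → ℤˣ → ℕ) (d : ι → ℕ) {per : ι → ℤˣ → GLs (rks T) ℂ → ℂ}
    (hper : ∀ i s g, per i s (sg σ g) = σ (per i s g)) (g : GLs (rks T) ℂ) :
    npart a d per (sg σ g) = σ (npart a d per g) := by
  unfold npart
  rw [map_prod]
  refine Finset.prod_congr rfl fun i _ => ?_
  rw [map_mul, map_prod, map_pow, RingHom.map_det]
  congr 1
  refine Finset.prod_congr rfl fun s _ => ?_
  rw [hper, map_pow]

/-- The monomial is constant on irreducible sets of points of the torsor which contain a good point. -/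
theorem const_of_good [Fintype ι] (h : IsGrp T G P)
    (hcl : ∃ J : Set (MvPolynomial (Co (rks T)) ℚ), ∀ g : GLs (rks T) ℂ, g ∈ P.pts ℂ ↔ ∀ f ∈ J, value f g = 0)
    (a : ι → ℤˣ → ℤ) (d : ι → ℤ) (p : ι → ℤˣ → ℤ)
    (π : ∀ i, ℤˣ → Matrix (Fin (T i).N) (Fin (T i).N) ℂ) (hπ : ∀ i s, IsLowProj (T i) (p i s) (π i s))
    (h1 : ∀ X ∈ G.lie, (∀ i, X i * rc (T i).F = rc (T i).F * X i) →
      ∑ i, (∑ s, a i s * (X i * rc (eproj (T i) s)).trace + d i * (X i).trace) = 0)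
    (h2 : ∀ X ∈ G.lie, (∀ i q, ∀ x ∈ (T i).H q, (X i).mulVec x ∈ (T i).H q) →
      ∑ i, (∑ s, a i s * (π i s * X i).trace + d i * (X i).trace) = 0)
    {n : ι → ℤˣ → ℕ} {Q : ∀ i s, Matrix (Fin (n i s)) (Fin (T i).N) ℚ}
    {B : ∀ i s, Matrix (Fin (T i).N) (Fin (n i s)) ℚ}
    (hB : ∀ i s, Function.Injective (B i s).mulVec)
    (hB' : ∀ i s, LinearMap.range (B i s).mulVecLin = (T i).eig s)
    (hQ : ∀ i s, LinearMap.ker (Q i s).mulVecLin = (T i).fil (p i s))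
    {R : ∀ i s, Matrix (Fin (T i).N) (Fin (n i s)) ℚ} (hR : ∀ i s, Q i s * R i s = 1)
    {q : GLs (rks T) ℂ} (hgood : Good G q) {Z : Set (GLs (rks T) ℂ)} (hZ : IsIrr Z)
    (hZP : Z ⊆ P.pts ℂ) (hqZ : q ∈ Z)
    (hv : npart (fun i s => (-a i s).toNat) (fun i => (-d i).toNat) (fun i s => perf (Q i s) (B i s)) q ≠ 0) :
    ∃ α : ℂ, IsAlgebraic ℚ α ∧ ∀ g ∈ Z,
      npart (fun i s => (-a i s).toNat) (fun i => (-d i).toNat) (fun i s => perf (Q i s) (B i s)) g ≠ 0 →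
      mono a d (fun i s => perf (Q i s) (B i s)) g = α := by
  set per : ι → ℤˣ → GLs (rks T) ℂ → ℂ := fun i s => perf (Q i s) (B i s) with hper
  set u := npart (fun i s => (a i s).toNat) (fun i => (d i).toNat) per with hu
  set v := npart (fun i s => (-a i s).toNat) (fun i => (-d i).toNat) per with hvdef
  have hWH : WW G ≤ HH G := fun Y hY => hY.1
  obtain ⟨S, hS, hopen⟩ := open_of_good hWH hgood
  set S' : Set ℂ := S ∪ {x : ℂ | IsAlgebraic ℚ x} with hS'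
  let k : Subfield ℂ := Subfield.closure S'
  have hkS : S' ⊆ k := Subfield.subset_closure
  have hk : #k ≤ ℵ₀ := by
    refine (Subfield.cardinalMk_closure_le_max S').trans (max_le ?_ le_rfl)
    have : S'.Countable := hS.countable.union (Algebraic.countable ℚ ℂ)
    exact this.le_aleph0
  obtain ⟨x, hx⟩ := exists_gen k hk hZ
  have hrat : ∀ r : ℚ, algebraMap ℚ ℂ r ∈ k := fun r => by
    rw [eq_ratCast]
    exact SubfieldClass.ratCast_mem k r
  -- the generic point is in the torsor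
  have hxP : x ∈ P.pts ℂ := by
    obtain ⟨J, hJ⟩ := hcl
    rw [hJ]
    intro f hf
    exact (hx _ (Reg.of_poly k hrat f)).2 fun g hg => (hJ g).1 (hZP hg) f hf
  have hxgood : ∀ Y ∈ HH G, ∃ X ∈ VV G, Y - adj x X ∈ WW G :=
    hopen k (fun y hy => hkS (Or.inl hy)) Z hqZ x hx fun X hX => adj_mem_HH h hxP hX.1
  -- the derivative at the generic point
  have hLD : ∀ φ : ℂ →ₐ[ℚ] DualNumber ℂ, (∀ y, TrivSqZeroExt.fst (φ y) = y) →
      TrivSqZeroExt.snd (φ (mono a d per x)) = 0 := by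
    intro φ hφ
    obtain ⟨X, hX, hXx⟩ := lie_of_hom h hφ hxP
    obtain ⟨Xf, hXf, hY⟩ := hxgood _ (adj_mem_HH h hxP hX)
    set Y := adj x X - adj x Xf with hYdef
    have hdec : ∀ i, (x i : Matrix (Fin (T i).N) (Fin (T i).N) ℂ) * X i *
        (((x i)⁻¹ : GL (Fin (T i).N) ℂ) : Matrix (Fin (T i).N) (Fin (T i).N) ℂ) =
        Y i + (x i : Matrix (Fin (T i).N) (Fin (T i).N) ℂ) * Xf i *
        (((x i)⁻¹ : GL (Fin (T i).N) ℂ) : Matrix (Fin (T i).N) (Fin (T i).N) ℂ) := by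
      intro i
      have : Y i = adj x X i - adj x Xf i := rfl
      rw [this]
      show _ = (_ - _) + _
      exact (sub_add_cancel _ _).symm
    have k1 := h1 Xf hXf.1 hXf.2
    have k2 := chi_dr h a d p π hπ h2 hQ hR hY
    have hper : ∀ i s, LD φ (per i s x) ((rc (Q i s) * Y i * rc (R i s)).trace +
        (Xf i * rc (eproj (T i) s)).trace) := fun i s =>
      LD_point (Units.mul_inv (x i)) (hXx i) (hXf.2 i) (hY.2 i) (hdec i) (hB i s) (hB' i s) (hQ i s) (hR i s)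
    have hdet : ∀ i, LD φ (x i : Matrix (Fin (T i).N) (Fin (T i).N) ℂ).det (X i).trace := by
      intro i
      have f1 : (x i : Matrix (Fin (T i).N) (Fin (T i).N) ℂ).map φ =
          oe (0 : Matrix (Fin (T i).N) (Fin (T i).N) ℂ) *
          il (x i : Matrix (Fin (T i).N) (Fin (T i).N) ℂ) * oe (X i) := by
        rw [hXx, oe_zero, Matrix.one_mul]
      have := LD_det f1
      rwa [Matrix.trace_zero, zero_add] at this
    have hall := LD.prod hφ (Finset.univ : Finset ι)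
      (f := fun i => (∏ s, per i s x ^ a i s) * (x i : Matrix (Fin (T i).N) (Fin (T i).N) ℂ).det ^ d i)
      (τ := fun i => ∑ s, a i s * ((rc (Q i s) * Y i * rc (R i s)).trace + (Xf i * rc (eproj (T i) s)).trace) +
        d i * (X i).trace)
      fun i _ => LD.mul hφ (LD.prod hφ _ fun s _ => LD.zpow hφ (hper i s) _) (LD.zpow hφ (hdet i) _)
    have hzero : ∑ i, (∑ s, (a i s : ℂ) * ((rc (Q i s) * Y i * rc (R i s)).trace +
        (Xf i * rc (eproj (T i) s)).trace) + d i * (X i).trace) = 0 := by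
      have k3 := congrArg₂ (· + ·) k1 k2
      simp only [add_zero] at k3
      rw [← Finset.sum_add_distrib] at k3
      rw [← k3]
      refine Finset.sum_congr rfl fun i _ => ?_
      have k4 : (X i).trace = (Y i).trace + (Xf i).trace := by
        have : Y i = adj x X i - adj x Xf i := rfl
        rw [this, Matrix.trace_sub, adj_trace, adj_trace]
        ring
      rw [k4]
      simp only [mul_add, Finset.sum_add_distrib]
      ring
    unfold LD at hall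
    rw [hzero, mul_zero] at hall
    exact hall
  have hα : IsAlgebraic ℚ (mono a d per x) := algebraic_of_hom hLD
  refine ⟨mono a d per x, hα, ?_⟩
  have hureg : u ∈ Reg (rks T) k := npart_reg _ _ fun i s => perf_reg _ _
  have hvreg : v ∈ Reg (rks T) k := npart_reg _ _ fun i s => perf_reg _ _
  have hvx : v x ≠ 0 := fun h0 => hv ((hx v hvreg).1 h0 q hqZ)
  have hreg : (u - (fun _ : GLs (rks T) ℂ => mono a d per x) * v) ∈ Reg (rks T) k :=
    sub_mem hureg (mul_mem (Reg.const (hkS (Or.inr hα))) hvreg)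
  have hzero : (u - (fun _ : GLs (rks T) ℂ => mono a d per x) * v) x = 0 := by
    show u x - mono a d per x * v x = 0
    rw [mono_eq, div_mul_cancel₀ _ hvx, sub_self]
  intro g hg hvg
  have h3 : u g - mono a d per x * v g = 0 := (hx _ hreg).1 hzero g hg
  rw [mono_eq a d per g]
  rw [div_eq_iff hvg]
  linear_combination h3

end

section

variable {ι : Type} {N : ι → ℕ}

/-- the substitution `g ↦ t g` -/
noncomputable def trs (t : GLs N ℂ) : Co N → MvPolynomial (Co N) ℂ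
  | Sum.inl x => ∑ c, MvPolynomial.C ((t x.1 : Matrix (Fin (N x.1)) (Fin (N x.1)) ℂ) x.2.1 c) *
      MvPolynomial.X (Sum.inl ⟨x.1, c, x.2.2⟩)
  | Sum.inr x => ∑ c, MvPolynomial.X (Sum.inr ⟨x.1, x.2.1, c⟩) *
      MvPolynomial.C ((((t x.1)⁻¹ : GL (Fin (N x.1)) ℂ) : Matrix (Fin (N x.1)) (Fin (N x.1)) ℂ) c x.2.2)

theorem trs_spec (t g : GLs N ℂ) (c : Co N) : MvPolynomial.aeval (coords g) (trs t c) = coords (t * g) c := by
  rcases c with ⟨i, a, b⟩ | ⟨i, a, b⟩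
  · have e : coords (t * g) (Sum.inl ⟨i, a, b⟩) =
        ((t i * g i : GL (Fin (N i)) ℂ) : Matrix (Fin (N i)) (Fin (N i)) ℂ) a b := rfl
    rw [e, Units.val_mul, Matrix.mul_apply, trs, map_sum]
    refine Finset.sum_congr rfl fun c _ => ?_
    rw [map_mul, MvPolynomial.aeval_C, MvPolynomial.aeval_X]
    rfl
  · have e : coords (t * g) (Sum.inr ⟨i, a, b⟩) =
        (((t i * g i)⁻¹ : GL (Fin (N i)) ℂ) : Matrix (Fin (N i)) (Fin (N i)) ℂ) a b := rfl
    rw [e, _root_.mul_inv_rev, Units.val_mul, Matrix.mul_apply, trs, map_sum]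
    refine Finset.sum_congr rfl fun c _ => ?_
    rw [map_mul, MvPolynomial.aeval_C, MvPolynomial.aeval_X]
    rfl

theorem value_trs (t g : GLs N ℂ) (f : MvPolynomial (Co N) ℂ) :
    value (MvPolynomial.bind₁ (trs t) f) g = value f (t * g) := by
  unfold value
  rw [MvPolynomial.aeval_bind₁]
  congr 1
  congr 1
  funext c
  exact trs_spec t g c

/-- translates of irreducible sets are irreducible -/
theorem IsIrr.translate {Z : Set (GLs N ℂ)} (hZ : IsIrr Z) (t : GLs N ℂ) : IsIrr ((fun g => t * g) '' Z) := by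
  refine ⟨hZ.1.image _, ?_⟩
  intro f f' hff
  rcases hZ.2 (MvPolynomial.bind₁ (trs t) f) (MvPolynomial.bind₁ (trs t) f') (fun g hg => by
    rw [value_trs, value_trs]
    exact hff _ ⟨g, hg, rfl⟩) with h1 | h1
  · left
    rintro _ ⟨g, hg, rfl⟩
    show value f (t * g) = 0
    rw [← value_trs]
    exact h1 g hg
  · right
    rintro _ ⟨g, hg, rfl⟩
    show value f' (t * g) = 0
    rw [← value_trs]
    exact h1 g hg

end

section

variable {ι : Type} {T : ι → PMot ℚ ℂ} {G : SubgroupFunctor (rks T)} {P : TorsorFunctor (rks T)}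

theorem degree_le [Fintype ι] (h : IsGrp T G P)
    (hcl : ∃ J : Set (MvPolynomial (Co (rks T)) ℚ), ∀ g : GLs (rks T) ℂ, g ∈ P.pts ℂ ↔ ∀ f ∈ J, value f g = 0)
    (r : ℕ) (Z : Fin r → Set (GLs (rks T) ℂ)) (hZ : ∀ j, IsIrr (Z j)) (hGZ : G.pts ℂ = ⋃ j, Z j)
    (hPG : ∀ p ∈ P.pts ℂ, ∀ g ∈ G.pts ℂ, p * g ∈ P.pts ℂ)
    (a : ι → ℤˣ → ℤ) (d : ι → ℤ) (p : ι → ℤˣ → ℤ)
    (π : ∀ i, ℤˣ → Matrix (Fin (T i).N) (Fin (T i).N) ℂ) (hπ : ∀ i s, IsLowProj (T i) (p i s) (π i s))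
    (h1 : ∀ X ∈ G.lie, (∀ i, X i * rc (T i).F = rc (T i).F * X i) →
      ∑ i, (∑ s, a i s * (X i * rc (eproj (T i) s)).trace + d i * (X i).trace) = 0)
    (h2 : ∀ X ∈ G.lie, (∀ i q, ∀ x ∈ (T i).H q, (X i).mulVec x ∈ (T i).H q) →
      ∑ i, (∑ s, a i s * (π i s * X i).trace + d i * (X i).trace) = 0)
    (c : ι → ℤˣ → ℂ) (hc : ∀ i s, IsStepPeriod (T i) s (p i s) (c i s)) :
    IsIntegral ℚ (∏ i, ((∏ s, c i s ^ a i s) * (T i).P.det ^ d i)) ∧
      (minpoly ℚ (∏ i, ((∏ s, c i s ^ a i s) * (T i).P.det ^ d i))).natDegree ≤ r := by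
  classical
  choose n B Q hB hB' hQ hQ' hcc using hc
  choose R hR using fun i s => exists_right_inv' (hQ i s)
  obtain ⟨per, hper⟩ : ∃ per : ι → ℤˣ → GLs (rks T) ℂ → ℂ, per = fun i s => perf (Q i s) (B i s) := ⟨_, rfl⟩
  obtain ⟨v, hv⟩ : ∃ v, v = npart (T := T) (fun i s => (-a i s).toNat) (fun i => (-d i).toNat) per := ⟨_, rfl⟩
  have hm : ∏ i, ((∏ s, c i s ^ a i s) * (T i).P.det ^ d i) = mono a d per (comps T) := by
    unfold mono
    refine Finset.prod_congr rfl fun i _ => ?_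
    congr 1
    refine Finset.prod_congr rfl fun s _ => ?_
    rw [hcc, hper]
    rfl
  rw [hm]
  have hr : 0 < r := by
    have h3 : (1 : GLs (rks T) ℂ) ∈ ⋃ j, Z j := hGZ ▸ one_mem _
    obtain ⟨j, _⟩ := Set.mem_iUnion.1 h3
    exact j.pos
  have hconjper : ∀ (σ : ℂ →+* ℂ) i s g, per i s (sg σ g) = σ (per i s g) := by
    intro σ i s g
    rw [hper]
    exact perf_conj σ _ _ g
  by_cases hv0 : v (comps T) = 0
  · have h3 : mono a d per (comps T) = 0 := by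
      rw [mono_eq, ← hv, hv0, div_zero]
    rw [h3]
    refine ⟨isIntegral_zero, ?_⟩
    rw [minpoly.zero, Polynomial.natDegree_X]
    exact hr
  -- the constants
  let Z' : Fin r → Set (GLs (rks T) ℂ) := fun j => (fun g => comps T * g) '' Z j
  have hZ' : ∀ j, IsIrr (Z' j) := fun j => (hZ j).translate _
  have hZP : ∀ j, Z' j ⊆ P.pts ℂ := by
    rintro j _ ⟨g, hg, rfl⟩
    refine hPG _ h.comp _ ?_
    have h3 : g ∈ (G.pts ℂ : Set (GLs (rks T) ℂ)) := by
      rw [hGZ]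
      exact Set.mem_iUnion.2 ⟨j, hg⟩
    exact h3
  have hvσ : ∀ σ : ℂ ≃+* ℂ, v (sg (σ : ℂ →+* ℂ) (comps T)) ≠ 0 := by
    intro σ
    rw [hv, npart_conj (σ : ℂ →+* ℂ) _ _ (hconjper _), ← hv]
    exact (map_ne_zero (σ : ℂ →+* ℂ)).2 hv0
  have key : ∀ j, ∃ α : ℂ, (∃ σ : ℂ ≃+* ℂ, sg (σ : ℂ →+* ℂ) (comps T) ∈ Z' j) →
      IsAlgebraic ℚ α ∧ ∀ g ∈ Z' j, v g ≠ 0 → mono a d per g = α := by
    intro j
    by_cases hex : ∃ σ : ℂ ≃+* ℂ, sg (σ : ℂ →+* ℂ) (comps T) ∈ Z' j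
    · obtain ⟨σ, hσ⟩ := hex
      obtain ⟨α, hα, hα'⟩ := const_of_good h hcl a d p π hπ h1 h2 hB hB' hQ' hR (good_conj h σ) (hZ' j) (hZP j) hσ
        (by
          have := hvσ σ
          rw [hv, hper] at this
          exact this)
      refine ⟨α, fun _ => ⟨hα, fun g hg hvg => ?_⟩⟩
      rw [hper]
      refine hα' g hg ?_
      rw [hv, hper] at hvg
      exact hvg
    · exact ⟨0, fun h3 => absurd h3 hex⟩
  choose α hα using key
  have hmemσ : ∀ σ : ℂ ≃+* ℂ, ∃ j, sg (σ : ℂ →+* ℂ) (comps T) ∈ Z' j := by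
    intro σ
    have h3 : (comps T)⁻¹ * sg (σ : ℂ →+* ℂ) (comps T) ∈ (G.pts ℂ : Set (GLs (rks T) ℂ)) :=
      h.torsor ℂ _ h.comp _ (sg_mem (σ : ℂ →+* ℂ) P h.comp)
    rw [hGZ] at h3
    obtain ⟨j, hj⟩ := Set.mem_iUnion.1 h3
    refine ⟨j, _, hj, ?_⟩
    show comps T * ((comps T)⁻¹ * sg (σ : ℂ →+* ℂ) (comps T)) = _
    rw [mul_inv_cancel_left]
  have hσm : ∀ σ : ℂ ≃+* ℂ, σ (mono a d per (comps T)) = mono a d per (sg (σ : ℂ →+* ℂ) (comps T)) := by
    intro σ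
    rw [mono_eq, mono_eq, npart_conj (σ : ℂ →+* ℂ) _ _ (hconjper _), npart_conj (σ : ℂ →+* ℂ) _ _ (hconjper _)]
    exact map_div₀ (σ : ℂ →+* ℂ) _ _
  have hval : ∀ σ : ℂ ≃+* ℂ, ∃ j, σ (mono a d per (comps T)) = α j ∧ IsAlgebraic ℚ (α j) := by
    intro σ
    obtain ⟨j, hj⟩ := hmemσ σ
    obtain ⟨h3, h4⟩ := hα j ⟨σ, hj⟩
    exact ⟨j, by rw [hσm, h4 _ hj (hvσ σ)], h3⟩
  have hint : IsIntegral ℚ (mono a d per (comps T)) := by
    obtain ⟨j, hj, hj'⟩ := hval (RingEquiv.refl ℂ)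
    rw [show mono a d per (comps T) = α j from hj]
    exact hj'.isIntegral
  refine ⟨hint, ?_⟩
  have h5 := natDegree_le hint (Finset.univ.image α) fun σ => by
    obtain ⟨j, hj, _⟩ := hval σ
    rw [hj]
    exact Finset.mem_image_of_mem _ (Finset.mem_univ j)
  refine h5.trans (Finset.card_image_le.trans ?_)
  rw [Finset.card_univ, Fintype.card_fin]

end

end Pool.Agent.H97.MR
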