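import Pool.Agent.H97.MR.One
import Pool.Agent.H97.MR.Rat
import Pool.Agent.H97.MR.Nonz

set_option autoImplicit false
set_option linter.unusedSectionVars false

/-!
# Periods along one-parameter subgroups
-/

namespace Pool.Agent.H97.MR

open Matrix NormedSpace Pool.Agent.X33.DP

section

variable {ι : Type} {N : ι → ℕ}

theorem rat_hom {A : Type} [CommRing A] (f g : ℚ →+* A) : f = g := Subsingleton.elim f g

/-- the matrix of the coordinate functions -/
noncomputable def pmat (N : ι → ℕ) (k : Type) [CommRing k] (i : ι) :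
    Matrix (Fin (N i)) (Fin (N i)) (MvPolynomial (Co N) k) :=
  Matrix.of fun a b => MvPolynomial.X (Sum.inl ⟨i, a, b⟩)

/-- a period as a polynomial -/
noncomputable def pf (N : ι → ℕ) (k : Type) [CommRing k] [Algebra ℚ k] {i : ι} {n : ℕ} (Q : Matrix (Fin n) (Fin (N i)) ℚ)
    (B : Matrix (Fin (N i)) (Fin n) ℚ) : MvPolynomial (Co N) k :=
  (Q.map (algebraMap ℚ (MvPolynomial (Co N) k)) * pmat N k i * B.map (algebraMap ℚ (MvPolynomial (Co N) k))).det

theorem value_det {k A : Type} [CommRing k] [CommRing A] [Algebra k A] {n : ℕ}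
    (M : Matrix (Fin n) (Fin n) (MvPolynomial (Co N) k)) (g : GLs N A) :
    value M.det g = (M.map (MvPolynomial.aeval (coords g) : MvPolynomial (Co N) k →ₐ[k] A)).det := by
  unfold value
  rw [← AlgHom.coe_toRingHom, RingHom.map_det]
  rfl

theorem map_pmat {k A : Type} [CommRing k] [CommRing A] [Algebra k A] (g : GLs N A) (i : ι) :
    (pmat N k i).map (MvPolynomial.aeval (coords g) : MvPolynomial (Co N) k →ₐ[k] A) =
      (g i : Matrix (Fin (N i)) (Fin (N i)) A) := by
  ext a b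
  exact MvPolynomial.aeval_X _ _

theorem map_rat {k A : Type} [CommRing k] [Algebra ℚ k] [CommRing A] [Algebra k A] [Algebra ℚ A] (g : GLs N A)
    {m n : Type} (Q : Matrix m n ℚ) :
    (Q.map (algebraMap ℚ (MvPolynomial (Co N) k))).map
      (MvPolynomial.aeval (coords g) : MvPolynomial (Co N) k →ₐ[k] A) = Q.map (algebraMap ℚ A) := by
  ext a b
  have := rat_hom (((MvPolynomial.aeval (coords g) : MvPolynomial (Co N) k →ₐ[k] A) :
    MvPolynomial (Co N) k →+* A).comp (algebraMap ℚ (MvPolynomial (Co N) k))) (algebraMap ℚ A)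
  exact congrArg (fun f : ℚ →+* A => f (Q a b)) this

theorem value_pf {k A : Type} [CommRing k] [Algebra ℚ k] [CommRing A] [Algebra k A] [Algebra ℚ A] {i : ι} {n : ℕ}
    (Q : Matrix (Fin n) (Fin (N i)) ℚ) (B : Matrix (Fin (N i)) (Fin n) ℚ) (g : GLs N A) :
    value (pf N k Q B) g =
      (Q.map (algebraMap ℚ A) * (g i : Matrix (Fin (N i)) (Fin (N i)) A) * B.map (algebraMap ℚ A)).det := by
  unfold pf
  rw [value_det, Matrix.map_mul, Matrix.map_mul, map_rat, map_rat, map_pmat]

theorem value_det_pmat {k A : Type} [CommRing k] [CommRing A] [Algebra k A] (i : ι) (g : GLs N A) :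
    value (pmat N k i).det g = (g i : Matrix (Fin (N i)) (Fin (N i)) A).det := by
  rw [value_det, map_pmat]

theorem gX_val' (X : Mats N) (g : GLs N ℂ) (i : ι) :
    (gX X g i : Matrix (Fin (N i)) (Fin (N i)) (DualNumber ℂ)) =
      il (g i : Matrix (Fin (N i)) (Fin (N i)) ℂ) * oe (X i) := by
  rw [gX_val]
  have h1 : (oe (X i)).map (dm (algebraMap ℂ ℂ)) = oe (X i) := by
    refine Matrix.ext fun a b => TrivSqZeroExt.ext ?_ ?_
    · rw [oe_dm_fst]
      by_cases h : a = b
      · subst h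
        simp [oe]
      · simp [oe, h]
    · rw [oe_dm_snd]
      by_cases h : a = b
      · subst h
        simp [oe]
      · simp [oe, h]
  rw [h1]
  rfl

theorem snd_det {n : ℕ} (M Y Y' : Matrix (Fin n) (Fin n) ℂ) :
    TrivSqZeroExt.snd (oe Y * il M * oe Y').det = M.det * (Y.trace + Y'.trace) := by
  rw [det_mul, det_mul, oe_det, oe_det, il_det]
  simp only [TrivSqZeroExt.snd_mul, TrivSqZeroExt.snd_add, TrivSqZeroExt.fst_mul, TrivSqZeroExt.fst_add,
    TrivSqZeroExt.fst_one, TrivSqZeroExt.snd_one, TrivSqZeroExt.fst_inl, TrivSqZeroExt.snd_inl, DualNumber.fst_eps,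
    DualNumber.snd_eps, smul_eq_mul, MulOpposite.smul_eq_mul_unop, MulOpposite.unop_op]
  ring

end

theorem rat_dual {m n : Type} (Q : Matrix m n ℚ) : Q.map (algebraMap ℚ (DualNumber ℂ)) = il (rc Q) := by
  refine Matrix.ext fun a b => ?_
  show algebraMap ℚ (DualNumber ℂ) _ = algebraMap ℂ (DualNumber ℂ) (algebraMap ℚ ℂ _)
  rw [← IsScalarTower.algebraMap_apply]

/-- the first order term of a period -/
theorem snd_point {T : PMot ℚ ℂ} {g g' X Xh Y : Matrix (Fin T.N) (Fin T.N) ℂ} (hg' : g * g' = 1)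
    (hXh : Xh * rc T.F = rc T.F * Xh) (hY : PresFil T Y)
    (hdec : g * X * g' = Y + g * Xh * g') {s : ℤˣ} {n : ℕ} {B : Matrix (Fin T.N) (Fin n) ℚ}
    (hB : Function.Injective B.mulVec) (hB' : LinearMap.range B.mulVecLin = T.eig s) {p : ℤ}
    {Q : Matrix (Fin n) (Fin T.N) ℚ} (hQ : LinearMap.ker Q.mulVecLin = T.fil p)
    {R : Matrix (Fin T.N) (Fin n) ℚ} (hR : Q * R = 1) :
    TrivSqZeroExt.snd (il (rc Q) * (il g * oe X) * il (rc B)).det =
      (rc Q * g * rc B).det * ((rc Q * Y * rc R).trace + (Xh * rc (eproj T s)).trace) := by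
  obtain ⟨C, hCB, hBC⟩ := eig_coords s hB hB'
  have hg'' : g' * g = 1 := mul_eq_one_comm.1 hg'
  set Yh := rc C * Xh * rc B with hYh
  set Yp := rc Q * Y * rc R with hYp
  have e1 : rc B * Yh = Xh * rc B := by
    rw [hYh, ← Matrix.mul_assoc, ← Matrix.mul_assoc, ← rc_mul, hBC, ← eproj_comm s hXh, Matrix.mul_assoc,
      ← rc_mul, ← hBC, Matrix.mul_assoc, hCB, Matrix.mul_one]
  have e2 : Yp * rc Q = rc Q * Y := by
    rw [hYp]
    exact (quot_pres hY hQ hR).symm
  have e3 : rc Q * g * X * rc B = Yp * (rc Q * g * rc B) + rc Q * g * rc B * Yh := by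
    have f1 : g * X = Y * g + g * Xh := by
      have := congrArg (· * g) hdec
      simp only [Matrix.add_mul] at this
      rw [Matrix.mul_assoc (g * X), hg'', Matrix.mul_one, Matrix.mul_assoc (g * Xh), hg'', Matrix.mul_one] at this
      exact this
    calc rc Q * g * X * rc B = rc Q * (g * X) * rc B := by simp only [Matrix.mul_assoc]
      _ = rc Q * Y * (g * rc B) + rc Q * g * (Xh * rc B) := by
        rw [f1, Matrix.mul_add, Matrix.add_mul]
        simp only [Matrix.mul_assoc]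
      _ = _ := by
        rw [← e2, ← e1]
        simp only [Matrix.mul_assoc]
  have hM : il (rc Q) * (il g * oe X) * il (rc B) = oe Yp * il (rc Q * g * rc B) * oe Yh := by
    unfold oe
    have g2 : il (rc Q) * (il g * (1 + (DualNumber.eps : DualNumber ℂ) • il X)) * il (rc B) =
        il (rc Q * g * rc B) + (DualNumber.eps : DualNumber ℂ) • il (rc Q * g * X * rc B) := by
      rw [Matrix.mul_add, Matrix.mul_add, Matrix.add_mul, Matrix.mul_one, Matrix.mul_smul, Matrix.mul_smul,
        Matrix.smul_mul]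
      simp only [il_mul, Matrix.mul_assoc]
    rw [g2, e3, il_add, il_mul Yp, il_mul (rc Q * g * rc B) Yh]
    set W := il (rc Q * g * rc B)
    rw [add_mul, Matrix.one_mul, mul_add, Matrix.mul_one, Matrix.smul_mul, Matrix.mul_smul, add_mul, Matrix.smul_mul,
      smul_add, smul_add, smul_smul, DualNumber.eps_mul_eps, zero_smul, add_zero, ← add_assoc]
  have t1 : Yh.trace = (Xh * rc (eproj T s)).trace := by
    rw [hYh, Matrix.trace_mul_comm, ← Matrix.mul_assoc, ← rc_mul, hBC, Matrix.trace_mul_comm]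
  rw [hM, snd_det, t1]

theorem ode {h : ℂ → ℂ} {l : ℂ} (hh : ∀ t, HasDerivAt h (h t * l) t) (t : ℂ) : h t = h 0 * Complex.exp (l * t) := by
  have h1 : ∀ t, HasDerivAt (fun t => h t * Complex.exp (-(l * t))) 0 t := by
    intro t
    have h2 : HasDerivAt (fun t : ℂ => Complex.exp (-(l * t))) (Complex.exp (-(l * t)) * (-(l * 1))) t :=
      (((hasDerivAt_id t).const_mul l).neg).cexp
    have h3 := (hh t).mul h2
    refine h3.congr_deriv ?_
    ring
  have h2 := is_const_of_deriv_eq_zero (f := fun t => h t * Complex.exp (-(l * t)))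
    (fun t => (h1 t).differentiableAt) (fun t => (h1 t).deriv) t 0
  simp only [mul_zero, neg_zero, Complex.exp_zero, mul_one] at h2
  rw [← h2, mul_assoc, ← Complex.exp_add, neg_add_cancel, Complex.exp_zero, mul_one]

theorem zero_of_finite {c l : ℂ} (hc : c ≠ 0) {S : Set ℂ} (hS : S.Finite) (h : ∀ t : ℂ, c * Complex.exp (l * t) ∈ S) :
    l = 0 := by
  by_contra hl
  have h1 : ∀ k : ℕ, c * Complex.exp k ∈ S := by
    intro k
    have := h (k / l)
    rwa [mul_div_cancel₀ _ hl] at this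
  have h2 : Function.Injective fun k : ℕ => c * Complex.exp k := by
    intro k k' hk
    have h3 : Complex.exp k = Complex.exp k' := mul_left_cancel₀ hc hk
    have h4 := congrArg (fun z : ℂ => ‖z‖) h3
    simp only [Complex.norm_exp, Complex.natCast_re] at h4
    exact_mod_cast Real.exp_injective h4
  exact Set.infinite_of_injective_forall_mem h2 h1 hS

section

variable {ι : Type} {T : ι → PMot ℚ ℂ}

theorem perf_deriv (X : Mats (rks T)) (q : GLs (rks T) ℂ) {i : ι} {s : ℤˣ} {n : ℕ} {B : Matrix (Fin (T i).N) (Fin n) ℚ}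
    (hB : Function.Injective B.mulVec) (hB' : LinearMap.range B.mulVecLin = (T i).eig s) {p : ℤ}
    {Q : Matrix (Fin n) (Fin (T i).N) ℚ} (hQ : LinearMap.ker Q.mulVecLin = (T i).fil p)
    {R : Matrix (Fin (T i).N) (Fin n) ℚ} (hR : Q * R = 1) {Xh Y : Matrix (Fin (T i).N) (Fin (T i).N) ℂ}
    (hXh : Xh * rc (T i).F = rc (T i).F * Xh) (hY : PresFil (T i) Y) (t : ℂ)
    (hdec : ((q * gam X t) i : Matrix (Fin (T i).N) (Fin (T i).N) ℂ) * X i *
      ((((q * gam X t) i)⁻¹ : GL (Fin (T i).N) ℂ) : Matrix (Fin (T i).N) (Fin (T i).N) ℂ) =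
      Y + ((q * gam X t) i : Matrix (Fin (T i).N) (Fin (T i).N) ℂ) * Xh *
      ((((q * gam X t) i)⁻¹ : GL (Fin (T i).N) ℂ) : Matrix (Fin (T i).N) (Fin (T i).N) ℂ)) :
    HasDerivAt (fun t => perf Q B (q * gam X t))
      (perf Q B (q * gam X t) * ((rc Q * Y * rc R).trace + (Xh * rc (eproj (T i) s)).trace)) t := by
  have h1 : ∀ g : GLs (rks T) ℂ, value (pf (rks T) ℂ (i := i) Q B) g = perf Q B g := fun g =>
    value_pf (N := rks T) (k := ℂ) (A := ℂ) (i := i) Q B g
  have h2 := hasDeriv_value X q (pf (rks T) ℂ (i := i) Q B) t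
  simp only [h1] at h2
  refine h2.congr_deriv ?_
  rw [← (value_gX X (q * gam X t) (pf (rks T) ℂ (i := i) Q B)).2,
    value_pf (N := rks T) (k := ℂ) (A := DualNumber ℂ) (i := i) Q B, rat_dual, rat_dual, gX_val']
  exact snd_point (Units.mul_inv ((q * gam X t) i)) hXh hY hdec hB hB' hQ hR

theorem det_deriv (X : Mats (rks T)) (q : GLs (rks T) ℂ) (i : ι) (t : ℂ) :
    HasDerivAt (fun t => ((q * gam X t) i : Matrix (Fin (T i).N) (Fin (T i).N) ℂ).det)
      (((q * gam X t) i : Matrix (Fin (T i).N) (Fin (T i).N) ℂ).det * (X i).trace) t := by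
  have h1 : ∀ g : GLs (rks T) ℂ, value (pmat (rks T) ℂ i).det g = (g i : Matrix (Fin (T i).N) (Fin (T i).N) ℂ).det :=
    fun g => value_det_pmat i g
  have h2 := hasDeriv_value X q (pmat (rks T) ℂ i).det t
  simp only [h1] at h2
  refine h2.congr_deriv ?_
  rw [← (value_gX X (q * gam X t) (pmat (rks T) ℂ i).det).2, value_det_pmat, gX_val']
  have h3 := snd_det ((q * gam X t) i : Matrix (Fin (T i).N) (Fin (T i).N) ℂ) 0 (X i)
  rw [oe_zero, Matrix.one_mul, Matrix.trace_zero, zero_add] at h3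
  exact h3

/-- the monomial along a one-parameter subgroup -/
theorem mono_curve [Fintype ι] (a : ι → ℤˣ → ℤ) (d : ι → ℤ) (per : ι → ℤˣ → GLs (rks T) ℂ → ℂ) (X : Mats (rks T))
    (q : GLs (rks T) ℂ) (l : ι → ℤˣ → ℂ) (h : ∀ i s t, per i s (q * gam X t) = per i s q * Complex.exp (l i s * t))
    (t : ℂ) : mono a d per (q * gam X t) =
      mono a d per q * Complex.exp ((∑ i, (∑ s, a i s * l i s + d i * (X i).trace)) * t) := by
  have hdet : ∀ i, ((q * gam X t) i : Matrix (Fin (T i).N) (Fin (T i).N) ℂ).det =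
      (q i : Matrix (Fin (T i).N) (Fin (T i).N) ℂ).det * Complex.exp ((X i).trace * t) := by
    intro i
    have h1 := ode (det_deriv X q i) t
    rw [gam_zero, mul_one] at h1
    exact h1
  have hz : ∀ (x y : ℂ) (k : ℤ), (x * Complex.exp (y * t)) ^ k = x ^ k * Complex.exp (k * y * t) := by
    intro x y k
    rw [_root_.mul_zpow, ← Complex.exp_int_mul, mul_assoc]
  unfold mono
  rw [Finset.sum_mul, Complex.exp_sum, ← Finset.prod_mul_distrib]
  refine Finset.prod_congr rfl fun i _ => ?_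
  rw [hdet, hz, add_mul, Complex.exp_add, Finset.sum_mul, Complex.exp_sum]
  have h2 : ∏ s, per i s (q * gam X t) ^ a i s = (∏ s, per i s q ^ a i s) * ∏ s, Complex.exp (a i s * l i s * t) := by
    rw [← Finset.prod_mul_distrib]
    exact Finset.prod_congr rfl fun s _ => by rw [h, hz]
  rw [h2]
  ring

end

end Pool.Agent.H97.MR
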