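import Mathlib

set_option autoImplicit false

/-!
# Derivations of `ℂ` detect transcendental numbers
-/

namespace Pool.Agent.H97.MR

open Polynomial

/-- nonzero polynomials are units at `x + ε` if `x` is transcendental -/
theorem isUnit_aeval {x : ℂ} (hx : Transcendental ℚ x) (q : ℚ[X]) (hq : q ≠ 0) :
    IsUnit (aeval (TrivSqZeroExt.inl x + DualNumber.eps : DualNumber ℂ) q) := by
  rw [TrivSqZeroExt.isUnit_iff_isUnit_fst, isUnit_iff_ne_zero]
  have h1 : TrivSqZeroExt.fst (aeval (TrivSqZeroExt.inl x + DualNumber.eps : DualNumber ℂ) q) = aeval x q := by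
    have h2 := Polynomial.hom_eval₂ q (algebraMap ℚ (DualNumber ℂ)) (TrivSqZeroExt.fstHom ℂ ℂ ℂ : DualNumber ℂ →+* ℂ)
      (TrivSqZeroExt.inl x + DualNumber.eps : DualNumber ℂ)
    have h3 : (TrivSqZeroExt.fstHom ℂ ℂ ℂ : DualNumber ℂ →+* ℂ) (TrivSqZeroExt.inl x + DualNumber.eps) = x := by
      show TrivSqZeroExt.fst (TrivSqZeroExt.inl x + DualNumber.eps : DualNumber ℂ) = x
      simp
    rw [h3] at h2
    rw [Polynomial.aeval_def, Polynomial.aeval_def]
    refine Eq.trans h2 ?_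
    congr 1
  rw [h1]
  exact fun h0 => hq ((transcendental_iff.1 hx) q h0)

theorem exists_hom {x : ℂ} (hx : Transcendental ℚ x) :
    ∃ φ : ℂ →ₐ[ℚ] DualNumber ℂ, (∀ y, TrivSqZeroExt.fst (φ y) = y) ∧ TrivSqZeroExt.snd (φ x) = 1 := by
  let K := FractionRing ℚ[X]
  let f1 : ℚ[X] →+* ℂ := (aeval x : ℚ[X] →ₐ[ℚ] ℂ)
  have hf1 : Function.Injective f1 := (injective_iff_map_eq_zero f1).2 fun q hq => by
    by_contra h
    exact h ((transcendental_iff.1 hx) q hq)
  let g1 : K →+* ℂ := IsFractionRing.lift hf1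
  let f2 : ℚ[X] →+* DualNumber ℂ := (aeval (TrivSqZeroExt.inl x + DualNumber.eps : DualNumber ℂ) : ℚ[X] →ₐ[ℚ] DualNumber ℂ)
  have hf2 : ∀ y : nonZeroDivisors ℚ[X], IsUnit (f2 y) := fun y =>
    isUnit_aeval hx _ (nonZeroDivisors.ne_zero y.2)
  let g2 : K →+* DualNumber ℂ := IsLocalization.lift hf2
  let _ : Algebra K ℂ := g1.toAlgebra
  let _ : Algebra K (DualNumber ℂ) := g2.toAlgebra
  have hcomp : ∀ z : K, TrivSqZeroExt.fst (g2 z) = g1 z := by
    have h1 : (TrivSqZeroExt.fstHom ℂ ℂ ℂ : DualNumber ℂ →+* ℂ).comp g2 = g1 := by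
      refine IsLocalization.ringHom_ext (nonZeroDivisors ℚ[X]) ?_
      have e1 : g2.comp (algebraMap ℚ[X] K) = f2 := IsLocalization.lift_comp hf2
      have e2 : g1.comp (algebraMap ℚ[X] K) = f1 := by
        ext q
        all_goals simp [g1]
      rw [RingHom.comp_assoc, e1, e2]
      refine Polynomial.ringHom_ext (fun a => ?_) ?_
      · simp [f2, f1]
      · simp [f2, f1]
    intro z
    exact congrArg (fun h : K →+* ℂ => h z) h1
  let g : DualNumber ℂ →ₐ[K] ℂ :=
    { (TrivSqZeroExt.fstHom ℂ ℂ ℂ : DualNumber ℂ →+* ℂ) with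
      commutes' := fun z => hcomp z }
  have hsm : Algebra.FormallySmooth K ℂ := by
    obtain ⟨ι', v, hv⟩ := exists_isTranscendenceBasis' K ℂ
    have h1 := hv.isAlgebraic_field
    have h2 : Algebra.IsSeparable (IntermediateField.adjoin K (Set.range v)) ℂ := inferInstance
    exact Algebra.FormallySmooth.of_algebraicIndependent_of_isSeparable hv.1
  have hg : Function.Surjective g := fun y => ⟨TrivSqZeroExt.inl y, rfl⟩
  have hg' : IsNilpotent (RingHom.ker (g : DualNumber ℂ →+* ℂ)) := by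
    refine ⟨2, ?_⟩
    refine (pow_two (RingHom.ker (g : DualNumber ℂ →+* ℂ))).trans ?_
    refine (eq_bot_iff.2 ?_).trans Ideal.zero_eq_bot.symm
    refine Ideal.mul_le.2 ?_
    intro a ha b hb
    refine Ideal.mem_bot.2 ?_
    have ha' : TrivSqZeroExt.fst a = 0 := ha
    have hb' : TrivSqZeroExt.fst b = 0 := hb
    ext
    · rw [TrivSqZeroExt.fst_mul, ha', zero_mul]
      rfl
    · rw [TrivSqZeroExt.snd_mul, ha', hb']
      simp
  let φ : ℂ →ₐ[K] DualNumber ℂ := Algebra.FormallySmooth.liftOfSurjective (AlgHom.id K ℂ) g hg hg'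
  have hφ : ∀ y, g (φ y) = y := fun y => Algebra.FormallySmooth.liftOfSurjective_apply (AlgHom.id K ℂ) g hg hg' y
  refine ⟨(φ : ℂ →+* DualNumber ℂ).toRatAlgHom, fun y => hφ y, ?_⟩
  have hX : algebraMap K ℂ (algebraMap ℚ[X] K X) = x := by
    show g1 _ = x
    simp [g1, f1]
  have h3 : φ x = TrivSqZeroExt.inl x + DualNumber.eps := by
    have h4 := φ.commutes (algebraMap ℚ[X] K X)
    rw [hX] at h4
    rw [h4]
    show g2 _ = _
    have e1 : g2 (algebraMap ℚ[X] K X) = f2 X := IsLocalization.lift_eq hf2 _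
    rw [e1]
    simp [f2]
  show TrivSqZeroExt.snd (φ x) = 1
  rw [h3]
  simp

/-- a complex number that is killed by all derivations of `ℂ` is algebraic -/
theorem algebraic_of_hom {x : ℂ}
    (h : ∀ φ : ℂ →ₐ[ℚ] DualNumber ℂ, (∀ y, TrivSqZeroExt.fst (φ y) = y) → TrivSqZeroExt.snd (φ x) = 0) :
    IsAlgebraic ℚ x := by
  by_contra hx
  obtain ⟨φ, h1, h2⟩ := exists_hom (x := x) hx
  rw [h φ h1] at h2
  exact zero_ne_one h2

end Pool.Agent.H97.MR
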