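import Pool.Agent.H97.MR.Deriv
import Pool.Graph.R_pool_sql_team_seeded_64922ed1.X33.DP.CDefs

set_option autoImplicit false

/-!
# Matrices over the dual numbers
-/

namespace Pool.Agent.H97.MR

open Matrix

/-- a complex matrix over `ℂ[ε]` -/
abbrev il {m n : Type} (X : Matrix m n ℂ) : Matrix m n (DualNumber ℂ) := X.map TrivSqZeroExt.inl

theorem inl_eq (x : ℂ) : (TrivSqZeroExt.inl x : DualNumber ℂ) = algebraMap ℂ (DualNumber ℂ) x := rfl

theorem il_mul {l m n : Type} [Fintype m] (X : Matrix l m ℂ) (Y : Matrix m n ℂ) : il (X * Y) = il X * il Y := by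
  show (X * Y).map (algebraMap ℂ (DualNumber ℂ)) = _
  exact Matrix.map_mul

theorem il_one {m : Type} [DecidableEq m] : il (1 : Matrix m m ℂ) = 1 := by
  show (1 : Matrix m m ℂ).map (algebraMap ℂ (DualNumber ℂ)) = _
  exact Matrix.map_one _ (map_zero _) (map_one _)

theorem il_add {m n : Type} (X Y : Matrix m n ℂ) : il (X + Y) = il X + il Y := by
  show (X + Y).map (algebraMap ℂ (DualNumber ℂ)) = _
  exact Matrix.map_add _ (map_add _) X Y

theorem il_smul {m n : Type} (c : ℂ) (X : Matrix m n ℂ) :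
    il (c • X) = (TrivSqZeroExt.inl c : DualNumber ℂ) • il X := by
  refine Matrix.ext fun i j => ?_
  show algebraMap ℂ (DualNumber ℂ) (c * X i j) = algebraMap ℂ (DualNumber ℂ) c * algebraMap ℂ (DualNumber ℂ) (X i j)
  exact map_mul _ _ _

theorem il_det {m : Type} [Fintype m] [DecidableEq m] (X : Matrix m m ℂ) :
    (il X).det = TrivSqZeroExt.inl X.det := by
  show (X.map (algebraMap ℂ (DualNumber ℂ))).det = algebraMap ℂ (DualNumber ℂ) X.det
  rw [RingHom.map_det]
  rfl

theorem il_trace {m : Type} [Fintype m] (X : Matrix m m ℂ) : (il X).trace = TrivSqZeroExt.inl X.trace := by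
  show (X.map (algebraMap ℂ (DualNumber ℂ))).trace = algebraMap ℂ (DualNumber ℂ) X.trace
  simp [Matrix.trace]

/-- `1 + ε X` -/
noncomputable def oe {m : Type} [DecidableEq m] (X : Matrix m m ℂ) : Matrix m m (DualNumber ℂ) :=
  1 + (DualNumber.eps : DualNumber ℂ) • il X

theorem oe_mul {m : Type} [Fintype m] [DecidableEq m] (X Y : Matrix m m ℂ) : oe X * oe Y = oe (X + Y) := by
  unfold oe
  rw [il_add, mul_add, mul_one, add_mul, one_mul, Matrix.smul_mul, Matrix.mul_smul, smul_smul,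
    DualNumber.eps_mul_eps, zero_smul, add_zero, smul_add, add_assoc]

theorem oe_zero {m : Type} [DecidableEq m] : oe (0 : Matrix m m ℂ) = 1 := by
  unfold oe
  have : il (0 : Matrix m m ℂ) = 0 := by
    show (0 : Matrix m m ℂ).map (algebraMap ℂ (DualNumber ℂ)) = _
    exact Matrix.map_zero _ (map_zero _)
  rw [this, smul_zero, add_zero]

/-- `1 + ε X` as an element of the general linear group -/
noncomputable def og {n : ℕ} (X : Matrix (Fin n) (Fin n) ℂ) : GL (Fin n) (DualNumber ℂ) where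
  val := oe X
  inv := oe (-X)
  val_inv := by rw [oe_mul, add_neg_cancel, oe_zero]
  inv_val := by rw [oe_mul, neg_add_cancel, oe_zero]

theorem og_add {n : ℕ} (X Y : Matrix (Fin n) (Fin n) ℂ) : og (X + Y) = og X * og Y :=
  Units.ext (oe_mul X Y).symm

theorem og_zero {n : ℕ} : og (0 : Matrix (Fin n) (Fin n) ℂ) = 1 := Units.ext oe_zero

theorem oe_det {m : Type} [Fintype m] [DecidableEq m] (X : Matrix m m ℂ) :
    (oe X).det = 1 + DualNumber.eps * TrivSqZeroExt.inl X.trace := by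
  unfold oe
  rw [Matrix.det_one_add_smul (DualNumber.eps : DualNumber ℂ) (il X), _root_.sq, DualNumber.eps_mul_eps, mul_zero,
    add_zero, mul_comm, il_trace]

theorem oe_inj {m : Type} [DecidableEq m] {X Y : Matrix m m ℂ} (h : oe X = oe Y) : X = Y := by
  ext i j
  have h1 := congrArg (fun Z : Matrix m m (DualNumber ℂ) => TrivSqZeroExt.snd (Z i j)) h
  by_cases hij : i = j
  · subst hij
    simpa [oe] using h1
  · simpa [oe, hij] using h1

/-- the embedding `ℂ → ℂ[ε]` -/
noncomputable def inlHom : ℂ →ₐ[ℚ] DualNumber ℂ := (TrivSqZeroExt.inlAlgHom ℂ ℂ ℂ).restrictScalars ℚ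

/-- the endomorphism `ε ↦ c ε` of `ℂ[ε]` -/
noncomputable def scaleHom (c : ℂ) : DualNumber ℂ →ₐ[ℚ] DualNumber ℂ :=
  (DualNumber.lift ⟨(Algebra.ofId ℂ (DualNumber ℂ), (TrivSqZeroExt.inl c : DualNumber ℂ) * DualNumber.eps), by
    show (TrivSqZeroExt.inl c : DualNumber ℂ) * DualNumber.eps * ((TrivSqZeroExt.inl c : DualNumber ℂ) * DualNumber.eps) = 0
    linear_combination ((TrivSqZeroExt.inl c : DualNumber ℂ) * (TrivSqZeroExt.inl c : DualNumber ℂ)) *
      (DualNumber.eps_mul_eps (R := ℂ)), fun _ => Commute.all _ _⟩ : DualNumber ℂ →ₐ[ℂ] DualNumber ℂ).restrictScalars ℚ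

theorem scaleHom_eps (c : ℂ) : scaleHom c DualNumber.eps = (TrivSqZeroExt.inl c : DualNumber ℂ) * DualNumber.eps := by
  show (DualNumber.lift _ : DualNumber ℂ →ₐ[ℂ] DualNumber ℂ) _ = _
  rw [DualNumber.lift_apply_eps]

theorem scaleHom_inl (c x : ℂ) : scaleHom c (TrivSqZeroExt.inl x) = TrivSqZeroExt.inl x := by
  show (DualNumber.lift _ : DualNumber ℂ →ₐ[ℂ] DualNumber ℂ) _ = _
  rw [DualNumber.lift_apply_inl]
  rfl

theorem oe_scale {m : Type} [DecidableEq m] (c : ℂ) (X : Matrix m m ℂ) : (oe X).map (scaleHom c) = oe (c • X) := by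
  refine Matrix.ext fun i j => ?_
  unfold oe
  rw [Matrix.map_apply, Matrix.add_apply, Matrix.add_apply, map_add, Matrix.smul_apply, Matrix.smul_apply,
    smul_eq_mul, smul_eq_mul, map_mul, scaleHom_eps]
  have h1 : scaleHom c ((1 : Matrix m m (DualNumber ℂ)) i j) = (1 : Matrix m m (DualNumber ℂ)) i j := by
    by_cases h : i = j
    · subst h
      simp
    · simp [h]
  rw [h1]
  congr 1
  have h2 : scaleHom c (il X i j) = il X i j := scaleHom_inl c _
  have h3 : il (c • X) i j = (TrivSqZeroExt.inl c : DualNumber ℂ) * il X i j := by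
    rw [il_smul]
    rfl
  rw [h2, h3]
  ring

/-! ### logarithmic derivatives -/

/-- `D x = x τ` for the derivation `D` given by `φ` -/
def LD (φ : ℂ →ₐ[ℚ] DualNumber ℂ) (x τ : ℂ) : Prop := TrivSqZeroExt.snd (φ x) = x * τ

variable {φ : ℂ →ₐ[ℚ] DualNumber ℂ} (hφ : ∀ y, TrivSqZeroExt.fst (φ y) = y)

include hφ in
theorem LD.mul {x y τ τ' : ℂ} (hx : LD φ x τ) (hy : LD φ y τ') : LD φ (x * y) (τ + τ') := by
  unfold LD at *
  rw [map_mul, TrivSqZeroExt.snd_mul, hφ, hφ, hx, hy]
  simp only [smul_eq_mul, MulOpposite.smul_eq_mul_unop, MulOpposite.unop_op]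
  ring

theorem LD.one : LD φ 1 0 := by
  unfold LD
  rw [map_one]
  simp

include hφ in
theorem LD.inv {x τ : ℂ} (hx : LD φ x τ) : LD φ x⁻¹ (-τ) := by
  by_cases h : x = 0
  · subst h
    unfold LD
    rw [_root_.inv_zero, map_zero]
    simp
  · unfold LD at *
    have h1 : φ x * φ x⁻¹ = 1 := by rw [← map_mul, mul_inv_cancel₀ h, map_one]
    have h2 := congrArg TrivSqZeroExt.snd h1
    rw [TrivSqZeroExt.snd_mul, hφ, hφ, hx] at h2
    simp only [smul_eq_mul, MulOpposite.smul_eq_mul_unop, MulOpposite.unop_op, TrivSqZeroExt.snd_one] at h2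
    field_simp at h2 ⊢
    linear_combination h2

include hφ in
theorem LD.npow {x τ : ℂ} (hx : LD φ x τ) (k : ℕ) : LD φ (x ^ k) (k * τ) := by
  induction k with
  | zero =>
    rw [pow_zero, Nat.cast_zero, zero_mul]
    exact LD.one
  | succ k ih =>
    rw [pow_succ]
    have := LD.mul hφ ih hx
    have e : ((k + 1 : ℕ) : ℂ) * τ = k * τ + τ := by push_cast; ring
    rw [e]
    exact this

include hφ in
theorem LD.zpow {x τ : ℂ} (hx : LD φ x τ) (k : ℤ) : LD φ (x ^ k) (k * τ) := by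
  cases k with
  | ofNat k =>
    rw [Int.ofNat_eq_natCast, zpow_natCast, Int.cast_natCast]
    exact LD.npow hφ hx k
  | negSucc k =>
    rw [zpow_negSucc]
    have := LD.inv hφ (LD.npow hφ hx (k + 1))
    have e : ((Int.negSucc k : ℤ) : ℂ) * τ = -(((k + 1 : ℕ) : ℂ) * τ) := by
      rw [Int.cast_negSucc]
      ring
    rw [e]
    exact this

include hφ in
theorem LD.prod {α : Type} (s : Finset α) {f τ : α → ℂ} (h : ∀ a ∈ s, LD φ (f a) (τ a)) :
    LD φ (∏ a ∈ s, f a) (∑ a ∈ s, τ a) := by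
  classical
  induction s using Finset.induction_on with
  | empty =>
    rw [Finset.prod_empty, Finset.sum_empty]
    exact LD.one
  | insert a s ha ih =>
    rw [Finset.prod_insert ha, Finset.sum_insert ha]
    exact LD.mul hφ (h a (Finset.mem_insert_self a s)) (ih fun b hb => h b (Finset.mem_insert_of_mem hb))

end Pool.Agent.H97.MR
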