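import Mathlib

set_option autoImplicit false

/-!
# Embeddings of countable fields into `ℂ`, automorphisms of `ℂ`
-/

namespace Pool.Agent.H97.MR

open Cardinal

/-- a transcendence basis of `ℂ` over a countable field is uncountable -/
theorem mk_basis {k : Type} [Field k] [Algebra k ℂ] (hk : #k ≤ ℵ₀) {κ : Type} {w : κ → ℂ}
    (hw : IsTranscendenceBasis k w) : #κ = 𝔠 := by
  have h1 : ℵ₀ < #ℂ := by
    rw [Cardinal.mk_complex]
    exact Cardinal.aleph0_lt_continuum
  have h2 := IsAlgClosed.cardinal_eq_cardinal_transcendence_basis_of_aleph0_lt' w hw hk h1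
  rw [← h2, Cardinal.mk_complex]

/-- a countable extension of a countable field `k ⊆ ℂ` can be embedded into `ℂ` -/
theorem exists_embed {k K : Type} [Field k] [Field K] [Algebra k K] [Algebra k ℂ] (hk : #k ≤ ℵ₀) (hK : #K ≤ ℵ₀) :
    Nonempty (K →ₐ[k] ℂ) := by
  obtain ⟨ι, v, hv⟩ := exists_isTranscendenceBasis' k K
  obtain ⟨κ, w, hw⟩ := exists_isTranscendenceBasis' k ℂ
  have h1 : #ι ≤ #κ := by
    rw [mk_basis hk hw]
    exact ((Cardinal.mk_le_of_injective hv.1.injective).trans hK).trans Cardinal.aleph0_le_continuum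
  obtain ⟨j⟩ := Cardinal.le_def _ _ |>.1 h1
  have h2 : AlgebraicIndependent k (w ∘ j) := hw.1.comp j j.injective
  let A := Algebra.adjoin k (Set.range v)
  let f : A →ₐ[k] ℂ := (MvPolynomial.aeval (w ∘ j)).comp (hv.1.aevalEquiv.symm : A →ₐ[k] MvPolynomial ι k)
  have hf : Function.Injective f := by
    show Function.Injective ((MvPolynomial.aeval (w ∘ j) : MvPolynomial ι k →ₐ[k] ℂ) ∘ hv.1.aevalEquiv.symm)
    exact Function.Injective.comp (algebraicIndependent_iff_injective_aeval.1 h2) hv.1.aevalEquiv.symm.injective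
  let _ : Algebra A ℂ := f.toRingHom.toAlgebra
  have : FaithfulSMul A ℂ := (faithfulSMul_iff_algebraMap_injective A ℂ).2 hf
  have : IsScalarTower k A ℂ := IsScalarTower.of_algebraMap_eq fun x => (f.commutes x).symm
  have : Algebra.IsAlgebraic A K := hv.isAlgebraic
  exact ⟨(IsAlgClosed.lift : K →ₐ[A] ℂ).restrictScalars k⟩

theorem exists_equiv_aux {K L M : Type} [Field K] [Field L] [Field M] [Algebra K L] [Algebra K M] [IsAlgClosed L]
    [IsAlgClosed M] (hK : #K ≤ ℵ₀) (hL : ℵ₀ < #L) (hLM : #L = #M) : Nonempty (L ≃ₐ[K] M) := by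
  obtain ⟨ι, v, hv⟩ := exists_isTranscendenceBasis' K L
  obtain ⟨κ, w, hw⟩ := exists_isTranscendenceBasis' K M
  have h1 : #ι = #κ := by
    rw [← IsAlgClosed.cardinal_eq_cardinal_transcendence_basis_of_aleph0_lt' v hv hK hL,
      ← IsAlgClosed.cardinal_eq_cardinal_transcendence_basis_of_aleph0_lt' w hw hK (hLM ▸ hL), hLM]
  obtain ⟨e⟩ := Cardinal.eq.1 h1
  have := IsAlgClosed.isAlgClosure_of_transcendence_basis v hv
  have := IsAlgClosed.isAlgClosure_of_transcendence_basis w hw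
  let e' : Algebra.adjoin K (Set.range v) ≃ₐ[K] Algebra.adjoin K (Set.range w) :=
    (hv.1.aevalEquiv.symm.trans (MvPolynomial.renameEquiv K e)).trans hw.1.aevalEquiv
  let g : L ≃+* M := IsAlgClosure.equivOfEquiv L M e'.toRingEquiv
  refine ⟨AlgEquiv.ofRingEquiv (f := g) fun x => ?_⟩
  have h2 := IsAlgClosure.equivOfEquiv_algebraMap L M e'.toRingEquiv (algebraMap K _ x)
  rw [← IsScalarTower.algebraMap_apply] at h2
  refine h2.trans ?_
  show algebraMap _ M (e' (algebraMap K _ x)) = _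
  rw [e'.commutes, ← IsScalarTower.algebraMap_apply]

/-- two embeddings of a countable field into `ℂ` differ by an automorphism of `ℂ` -/
theorem exists_equiv {K : Type} [Field K] (hK : #K ≤ ℵ₀) (f g : K →+* ℂ) : ∃ σ : ℂ ≃+* ℂ, ∀ x, σ (f x) = g x := by
  have h1 : ℵ₀ < #ℂ := by
    rw [Cardinal.mk_complex]
    exact Cardinal.aleph0_lt_continuum
  obtain ⟨e⟩ := @exists_equiv_aux K ℂ ℂ _ _ _ f.toAlgebra g.toAlgebra _ _ hK h1 rfl
  refine ⟨@AlgEquiv.toRingEquiv K ℂ ℂ _ _ _ f.toAlgebra g.toAlgebra e, fun x => ?_⟩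
  exact @AlgEquiv.commutes K ℂ ℂ _ _ _ f.toAlgebra g.toAlgebra e x

/-- conjugate algebraic numbers are conjugate under an automorphism of `ℂ` -/
theorem exists_conj {x y : ℂ} (hx : IsIntegral ℚ x) (hy : Polynomial.aeval y (minpoly ℚ x) = 0) :
    ∃ σ : ℂ ≃+* ℂ, σ x = y := by
  let _ : Fact (Irreducible (minpoly ℚ x)) := ⟨minpoly.irreducible hx⟩
  let K := AdjoinRoot (minpoly ℚ x)
  have hK : #K ≤ ℵ₀ := by
    have h1 : #K ≤ #(Polynomial ℚ) := Cardinal.mk_le_of_surjective AdjoinRoot.mk_surjective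
    exact h1.trans (Polynomial.cardinalMk_le_max.trans (by simp))
  let f : K →+* ℂ := AdjoinRoot.lift (algebraMap ℚ ℂ) x (minpoly.aeval ℚ x)
  let g : K →+* ℂ := AdjoinRoot.lift (algebraMap ℚ ℂ) y hy
  obtain ⟨σ, hσ⟩ := exists_equiv hK f g
  refine ⟨σ, ?_⟩
  have h1 := hσ (AdjoinRoot.root _)
  rw [show f (AdjoinRoot.root _) = x from AdjoinRoot.lift_root _, show g (AdjoinRoot.root _) = y from
    AdjoinRoot.lift_root _] at h1
  exact h1

/-- an algebraic number with at most `r` conjugates has degree at most `r` -/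
theorem natDegree_le {x : ℂ} (hx : IsIntegral ℚ x) (S : Finset ℂ) (h : ∀ σ : ℂ ≃+* ℂ, σ x ∈ S) :
    (minpoly ℚ x).natDegree ≤ S.card := by
  classical
  have h1 : (minpoly ℚ x).Separable := (minpoly.irreducible hx).separable
  have h2 : Multiset.card ((minpoly ℚ x).map (algebraMap ℚ ℂ)).roots = (minpoly ℚ x).natDegree := by
    rw [← Polynomial.natDegree_map (algebraMap ℚ ℂ)]
    exact (IsAlgClosed.splits _).natDegree_eq_card_roots.symm
  have h3 : ((minpoly ℚ x).map (algebraMap ℚ ℂ)).roots.Nodup := Polynomial.nodup_roots h1.map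
  have h4 : ((minpoly ℚ x).map (algebraMap ℚ ℂ)).roots.toFinset ⊆ S := by
    intro y hy
    rw [Multiset.mem_toFinset, Polynomial.mem_roots'] at hy
    obtain ⟨σ, hσ⟩ := exists_conj (x := x) (y := y) hx (by
      have := hy.2
      rwa [Polynomial.IsRoot.def, Polynomial.eval_map_algebraMap] at this)
    rw [← hσ]
    exact h σ
  rw [← h2, ← Multiset.toFinset_card_of_nodup h3]
  exact Finset.card_le_card h4

/-- an algebraic number fixed by all automorphisms is rational -/
theorem rational_of_fixed {x : ℂ} (hx : IsIntegral ℚ x) (h : ∀ σ : ℂ ≃+* ℂ, σ x = x) : ∃ q : ℚ, x = q := by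
  have h1 := natDegree_le hx {x} fun σ => by rw [h σ]; exact Finset.mem_singleton_self x
  rw [Finset.card_singleton] at h1
  have h2 : (minpoly ℚ x).natDegree = 1 := le_antisymm h1 (minpoly.natDegree_pos hx)
  obtain ⟨q, hq⟩ := minpoly.natDegree_eq_one_iff.1 h2
  exact ⟨q, by rw [← hq]; simp⟩

end Pool.Agent.H97.MR
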