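import Pool.Agent.H97.MR.Reg

set_option autoImplicit false
set_option linter.unusedSectionVars false

/-!
# One-parameter subgroups
-/

namespace Pool.Agent.H97.MR

open Matrix

/-- the homomorphism of dual numbers given by a homomorphism of rings -/
noncomputable def dm {R S : Type} [CommRing R] [CommRing S] (σ : R →+* S) : DualNumber R →+* DualNumber S where
  toFun := fun z => TrivSqZeroExt.inl (σ z.fst) + TrivSqZeroExt.inr (σ z.snd)
  map_one' := by
    ext <;> simp
  map_mul' := fun x y => by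
    ext
    · simp
    · simp [mul_comm]
  map_zero' := by
    ext <;> simp
  map_add' := fun x y => by
    ext <;> simp

theorem fst_dm {R S : Type} [CommRing R] [CommRing S] (σ : R →+* S) (z : DualNumber R) :
    TrivSqZeroExt.fst (dm σ z) = σ z.fst := by
  show TrivSqZeroExt.fst (TrivSqZeroExt.inl (σ z.fst) + TrivSqZeroExt.inr (σ z.snd)) = _
  simp

theorem snd_dm {R S : Type} [CommRing R] [CommRing S] (σ : R →+* S) (z : DualNumber R) :
    TrivSqZeroExt.snd (dm σ z) = σ z.snd := by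
  show TrivSqZeroExt.snd (TrivSqZeroExt.inl (σ z.fst) + TrivSqZeroExt.inr (σ z.snd)) = _
  simp

section

variable {ι : Type} {N : ι → ℕ}

/-- the invariant derivation of the ring of regular functions given by `X` -/
noncomputable def dX (X : Mats N) : Derivation ℂ (MvPolynomial (Co N) ℂ) (MvPolynomial (Co N) ℂ) :=
  MvPolynomial.mkDerivation ℂ (Sum.elim
    (fun x => ∑ c, MvPolynomial.X (Sum.inl ⟨x.1, x.2.1, c⟩) * MvPolynomial.C (X x.1 c x.2.2))
    (fun x => -∑ c, MvPolynomial.C (X x.1 x.2.1 c) * MvPolynomial.X (Sum.inr ⟨x.1, c, x.2.2⟩)))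

theorem value_dX_inl {A : Type} [CommRing A] [Algebra ℂ A] (X : Mats N) (g : GLs N A) (i : ι) (a b : Fin (N i)) :
    value (dX X (MvPolynomial.X (Sum.inl ⟨i, a, b⟩))) g =
      ((g i : Matrix (Fin (N i)) (Fin (N i)) A) * (X i).map (algebraMap ℂ A)) a b := by
  unfold dX value
  rw [MvPolynomial.mkDerivation_X, Sum.elim_inl, map_sum, Matrix.mul_apply]
  refine Finset.sum_congr rfl fun c _ => ?_
  rw [map_mul, MvPolynomial.aeval_X, MvPolynomial.aeval_C]
  rfl

theorem value_dX_inr {A : Type} [CommRing A] [Algebra ℂ A] (X : Mats N) (g : GLs N A) (i : ι) (a b : Fin (N i)) :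
    value (dX X (MvPolynomial.X (Sum.inr ⟨i, a, b⟩))) g =
      -((X i).map (algebraMap ℂ A) * (((g i)⁻¹ : GL (Fin (N i)) A) : Matrix (Fin (N i)) (Fin (N i)) A)) a b := by
  unfold dX value
  rw [MvPolynomial.mkDerivation_X, Sum.elim_inr, map_neg, map_sum, Matrix.mul_apply]
  congr 1
  refine Finset.sum_congr rfl fun c _ => ?_
  rw [map_mul, MvPolynomial.aeval_X, MvPolynomial.aeval_C]
  rfl

/-- the point `g (1 + ε X)` -/
noncomputable def gX {A : Type} [CommRing A] [Algebra ℂ A] (X : Mats N) (g : GLs N A) : GLs N (DualNumber A) :=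
  bcs (TrivSqZeroExt.inlHom A A) g * bcs (dm (algebraMap ℂ A)) (ogs X)

theorem gX_val {A : Type} [CommRing A] [Algebra ℂ A] (X : Mats N) (g : GLs N A) (i : ι) :
    (gX X g i : Matrix (Fin (N i)) (Fin (N i)) (DualNumber A)) =
      (g i : Matrix (Fin (N i)) (Fin (N i)) A).map (TrivSqZeroExt.inlHom A A) * (oe (X i)).map (dm (algebraMap ℂ A)) :=
  rfl

theorem gX_inv {A : Type} [CommRing A] [Algebra ℂ A] (X : Mats N) (g : GLs N A) (i : ι) :
    (((gX X g i)⁻¹ : GL (Fin (N i)) (DualNumber A)) : Matrix (Fin (N i)) (Fin (N i)) (DualNumber A)) =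
      (oe (-X i)).map (dm (algebraMap ℂ A)) *
      (((g i)⁻¹ : GL (Fin (N i)) A) : Matrix (Fin (N i)) (Fin (N i)) A).map (TrivSqZeroExt.inlHom A A) := by
  have h1 : (gX X g i)⁻¹ = (bcs (dm (algebraMap ℂ A)) (ogs X) i)⁻¹ * (bcs (TrivSqZeroExt.inlHom A A) g i)⁻¹ :=
    _root_.mul_inv_rev _ _
  rw [h1]
  have h2 : (bcs (dm (algebraMap ℂ A)) (ogs X) i)⁻¹ =
      Matrix.GeneralLinearGroup.map (dm (algebraMap ℂ A)) (og (X i))⁻¹ := (map_inv _ _).symm
  have h3 : (bcs (TrivSqZeroExt.inlHom A A) g i)⁻¹ =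
      Matrix.GeneralLinearGroup.map (TrivSqZeroExt.inlHom A A) (g i)⁻¹ := (map_inv _ _).symm
  rw [h2, h3]
  rfl

theorem oe_dm_fst {A : Type} [CommRing A] [Algebra ℂ A] {n : ℕ} (X : Matrix (Fin n) (Fin n) ℂ) (a b : Fin n) :
    TrivSqZeroExt.fst (((oe X).map (dm (algebraMap ℂ A))) a b) = (1 : Matrix (Fin n) (Fin n) A) a b := by
  rw [Matrix.map_apply, fst_dm]
  by_cases h : a = b
  · subst h
    simp [oe]
  · simp [oe, h]

theorem oe_dm_snd {A : Type} [CommRing A] [Algebra ℂ A] {n : ℕ} (X : Matrix (Fin n) (Fin n) ℂ) (a b : Fin n) :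
    TrivSqZeroExt.snd (((oe X).map (dm (algebraMap ℂ A))) a b) = algebraMap ℂ A (X a b) := by
  rw [Matrix.map_apply, snd_dm]
  by_cases h : a = b
  · subst h
    simp [oe]
  · simp [oe, h]

theorem coords_gX {A : Type} [CommRing A] [Algebra ℂ A] (X : Mats N) (g : GLs N A) (c : Co N) :
    TrivSqZeroExt.fst (coords (gX X g) c) = coords g c ∧
      TrivSqZeroExt.snd (coords (gX X g) c) = value (dX X (MvPolynomial.X c)) g := by
  rcases c with ⟨i, a, b⟩ | ⟨i, a, b⟩
  · have e : coords (gX X g) (Sum.inl ⟨i, a, b⟩) =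
        (gX X g i : Matrix (Fin (N i)) (Fin (N i)) (DualNumber A)) a b := rfl
    rw [e, gX_val, value_dX_inl, Matrix.mul_apply, Matrix.mul_apply]
    have e1 : ∀ c, (g i : Matrix (Fin (N i)) (Fin (N i)) A).map (TrivSqZeroExt.inlHom A A) a c =
        TrivSqZeroExt.inl ((g i : Matrix (Fin (N i)) (Fin (N i)) A) a c) := fun c => rfl
    constructor
    · rw [TrivSqZeroExt.fst_sum]
      simp only [TrivSqZeroExt.fst_mul, oe_dm_fst, e1, TrivSqZeroExt.fst_inl]
      rw [← Matrix.mul_apply, Matrix.mul_one]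
      rfl
    · rw [TrivSqZeroExt.snd_sum]
      simp only [TrivSqZeroExt.snd_mul, oe_dm_fst, oe_dm_snd, e1, TrivSqZeroExt.fst_inl, TrivSqZeroExt.snd_inl,
        smul_zero, add_zero, smul_eq_mul]
      rfl
  · have e : coords (gX X g) (Sum.inr ⟨i, a, b⟩) =
        (((gX X g i)⁻¹ : GL (Fin (N i)) (DualNumber A)) : Matrix (Fin (N i)) (Fin (N i)) (DualNumber A)) a b := rfl
    rw [e, gX_inv, value_dX_inr, Matrix.mul_apply, Matrix.mul_apply]
    have e1 : ∀ c, (((g i)⁻¹ : GL (Fin (N i)) A) : Matrix (Fin (N i)) (Fin (N i)) A).map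
        (TrivSqZeroExt.inlHom A A) c b =
        TrivSqZeroExt.inl ((((g i)⁻¹ : GL (Fin (N i)) A) : Matrix (Fin (N i)) (Fin (N i)) A) c b) := fun c => rfl
    constructor
    · rw [TrivSqZeroExt.fst_sum]
      simp only [TrivSqZeroExt.fst_mul, oe_dm_fst, e1, TrivSqZeroExt.fst_inl]
      rw [← Matrix.mul_apply, Matrix.one_mul]
      rfl
    · rw [TrivSqZeroExt.snd_sum]
      simp only [TrivSqZeroExt.snd_mul, oe_dm_fst, oe_dm_snd, e1, TrivSqZeroExt.fst_inl, TrivSqZeroExt.snd_inl,
        smul_zero, zero_add, MulOpposite.smul_eq_mul_unop, MulOpposite.unop_op]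
      rw [← Finset.sum_neg_distrib]
      refine Finset.sum_congr rfl fun c _ => ?_
      rw [Matrix.neg_apply, map_neg, Matrix.map_apply]
      ring

/-- the Taylor formula of order one -/
theorem value_gX {A : Type} [CommRing A] [Algebra ℂ A] (X : Mats N) (g : GLs N A) (f : MvPolynomial (Co N) ℂ) :
    TrivSqZeroExt.fst (value f (gX X g)) = value f g ∧
      TrivSqZeroExt.snd (value f (gX X g)) = value (dX X f) g := by
  induction f using MvPolynomial.induction_on with
  | C a =>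
    have e1 : value (MvPolynomial.C a : MvPolynomial (Co N) ℂ) (gX X g) = algebraMap ℂ (DualNumber A) a :=
      MvPolynomial.aeval_C _ _
    have e2 : value (MvPolynomial.C a : MvPolynomial (Co N) ℂ) g = algebraMap ℂ A a := MvPolynomial.aeval_C _ _
    have e3 : dX X (MvPolynomial.C a : MvPolynomial (Co N) ℂ) = 0 := (dX X).map_algebraMap a
    rw [e1, e2, e3]
    constructor
    · rfl
    · unfold value
      rw [map_zero]
      rfl
  | add p q hp hq =>
    have e1 : ∀ {B : Type} [CommRing B] [Algebra ℂ B] (g : GLs N B), value (p + q) g = value p g + value q g :=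
      fun g => map_add _ _ _
    have e2 : value (dX X (p + q)) g = value (dX X p) g + value (dX X q) g := by
      rw [map_add]
      exact map_add _ _ _
    rw [e1, e1, e2, TrivSqZeroExt.fst_add, TrivSqZeroExt.snd_add, hp.1, hp.2, hq.1, hq.2]
    exact ⟨rfl, rfl⟩
  | mul_X p n hp =>
    have e1 : ∀ {B : Type} [CommRing B] [Algebra ℂ B] (g : GLs N B),
        value (p * MvPolynomial.X n) g = value p g * coords g n := by
      intro B _ _ g
      unfold value
      rw [map_mul, MvPolynomial.aeval_X]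
    have e2 : value (dX X (p * MvPolynomial.X n)) g =
        value p g * value (dX X (MvPolynomial.X n)) g + coords g n * value (dX X p) g := by
      unfold value
      rw [Derivation.leibniz, map_add, smul_eq_mul, smul_eq_mul, map_mul, map_mul, MvPolynomial.aeval_X]
    obtain ⟨h1, h2⟩ := coords_gX X g n
    rw [e1, e1, e2, TrivSqZeroExt.fst_mul, TrivSqZeroExt.snd_mul, hp.1, hp.2, h1, h2]
    refine ⟨rfl, ?_⟩
    simp only [smul_eq_mul, MulOpposite.smul_eq_mul_unop, MulOpposite.unop_op]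
    ring

/-- the regular functions that vanish on `G` -/
def Van (G : SubgroupFunctor N) (f : MvPolynomial (Co N) ℂ) : Prop :=
  ∀ (A : Type) [CommRing A] [Algebra ℂ A] [Algebra ℚ A], ∀ g ∈ G.pts A, value f g = 0

theorem Van.dX {G : SubgroupFunctor N} {X : Mats N} (hX : X ∈ G.lie) {f : MvPolynomial (Co N) ℂ} (hf : Van G f) :
    Van G (dX X f) := by
  intro A _ _ _ g hg
  have h1 : bcs (TrivSqZeroExt.inlHom A A) g ∈ G.pts (DualNumber A) :=
    G.map_mem A (DualNumber A) (TrivSqZeroExt.inlHom A A).toRatAlgHom g hg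
  have h2 : bcs (dm (algebraMap ℂ A)) (ogs X) ∈ G.pts (DualNumber A) :=
    G.map_mem (DualNumber ℂ) (DualNumber A) (dm (algebraMap ℂ A)).toRatAlgHom _ hX
  have h3 : gX X g ∈ G.pts (DualNumber A) := mul_mem h1 h2
  have h4 := hf (DualNumber A) _ h3
  rw [← (value_gX X g f).2, h4]
  rfl

end

end Pool.Agent.H97.MR
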