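import Pool.Agent.H97.MR.Local

set_option autoImplicit false
set_option linter.unusedSectionVars false

/-!
# Matrices which preserve the Hodge filtration
-/

namespace Pool.Agent.H97.MR

open Matrix Pool.Agent.X33.DP

variable (T : PMot ℚ ℂ)

/-- the complex span of a step of the Hodge filtration of `T_DR` -/
def cfil (q : ℤ) : Submodule ℂ (Fin T.N → ℂ) :=
  Submodule.span ℂ ((fun x j => algebraMap ℚ ℂ (x j)) '' (T.fil q : Set (Fin T.N → ℚ)))

/-- `Y` preserves the Hodge filtration of `T_DR ⊗ ℂ` -/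
def PresFil (Y : Matrix (Fin T.N) (Fin T.N) ℂ) : Prop :=
  ∀ q, ∀ z ∈ cfil T q, Y.mulVec z ∈ cfil T q

variable {T}

/-- `X` is upper triangular in Hodge coordinates -/
def HCoord.Up (h : HCoord T) (X : Matrix (Fin T.N) (Fin T.N) ℂ) : Prop :=
  ∀ k l, h.t k < h.t l → h.co X k l = 0

variable (h : HCoord T)

theorem HCoord.low_zero {q : ℤ} {x : Fin T.N → ℂ} (hx : x ∈ ⨆ p, ⨆ (_ : q ≤ p), T.H p) {k : Fin T.N}
    (hk : h.t k < q) : h.v.repr x k = 0 := by
  have h1 : (⨆ p, ⨆ (_ : q ≤ p), T.H p) ≤ LinearMap.ker (Finsupp.lapply k ∘ₗ (h.v.repr : _ →ₗ[ℂ] (Fin T.N →₀ ℂ))) := by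
    refine iSup_le fun p => iSup_le fun hp y hy => ?_
    exact h.repr_zero hy (by omega)
  exact h1 hx

theorem HCoord.up_of_pres {P' : Matrix (Fin T.N) (Fin T.N) ℂ} (hP' : P' * T.P = 1)
    {Y : Matrix (Fin T.N) (Fin T.N) ℂ} (hY : PresFil T Y) : h.Up (P' * Y * T.P) := by
  intro k l hkl
  show ((((h.V)⁻¹ : GL (Fin T.N) ℂ) : Matrix (Fin T.N) (Fin T.N) ℂ) * (P' * Y * T.P) *
    (h.V : Matrix (Fin T.N) (Fin T.N) ℂ)) k l = 0
  rw [h.entry]
  have h1 : T.P.mulVec (h.v l) ∈ cfil T (h.t l) := by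
    unfold cfil
    rw [← T.comp]
    exact ⟨h.v l, Submodule.mem_iSup_of_mem (h.t l) (Submodule.mem_iSup_of_mem le_rfl (h.v_mem l)), rfl⟩
  have h2 := hY _ _ h1
  unfold cfil at h2
  rw [← T.comp] at h2
  obtain ⟨z, hz, hz'⟩ := h2
  have h3 : (P' * Y * T.P).mulVec (h.v l) = z := by
    rw [← Matrix.mulVec_mulVec, ← Matrix.mulVec_mulVec, ← hz', Matrix.mulVecLin_apply, Matrix.mulVec_mulVec, hP',
      Matrix.one_mulVec]
  rw [h3]
  exact h.low_zero hz hkl

theorem HCoord.pres_of_up {P' : Matrix (Fin T.N) (Fin T.N) ℂ} (hP' : P' * T.P = 1)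
    {X : Matrix (Fin T.N) (Fin T.N) ℂ} (hX : h.Up X) : PresFil T (T.P * X * P') := by
  intro q z hz
  have key : ∀ y ∈ ⨆ p, ⨆ (_ : q ≤ p), T.H p, X.mulVec y ∈ ⨆ p, ⨆ (_ : q ≤ p), T.H p := by
    intro y hy
    have h1 : (⨆ p, ⨆ (_ : q ≤ p), T.H p) ≤ (⨆ p, ⨆ (_ : q ≤ p), T.H p).comap X.mulVecLin := by
      refine iSup_le fun p => iSup_le fun hp y hy => ?_
      show X.mulVec y ∈ (⨆ p, ⨆ (_ : q ≤ p), T.H p)
      rw [h.hv] at hy
      induction hy using Submodule.span_induction with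
      | mem y hy =>
        obtain ⟨l, hl, rfl⟩ := hy
        have hl' : h.t l = p := hl
        have h2 : X.mulVec (h.v l) = ∑ k, h.v.repr (X.mulVec (h.v l)) k • h.v k := (h.v.sum_repr _).symm
        rw [h2]
        refine Submodule.sum_mem _ fun k _ => ?_
        by_cases hk : h.t k < h.t l
        · have h3 : h.v.repr (X.mulVec (h.v l)) k = 0 := (h.entry X k l).symm.trans (hX k l hk)
          rw [h3, zero_smul]
          exact Submodule.zero_mem _
        · refine Submodule.smul_mem _ _ ?_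
          exact Submodule.mem_iSup_of_mem (h.t k) (Submodule.mem_iSup_of_mem (by omega) (h.v_mem k))
      | zero => rw [Matrix.mulVec_zero]; exact Submodule.zero_mem _
      | add x y _ _ hx hy => rw [Matrix.mulVec_add]; exact Submodule.add_mem _ hx hy
      | smul c x _ hx => rw [Matrix.mulVec_smul]; exact Submodule.smul_mem _ _ hx
    exact h1 hy
  unfold cfil at hz ⊢
  rw [← T.comp] at hz ⊢
  obtain ⟨y, hy, rfl⟩ := hz
  refine ⟨X.mulVec y, key y hy, ?_⟩
  rw [Matrix.mulVecLin_apply, Matrix.mulVecLin_apply, Matrix.mulVec_mulVec, Matrix.mulVec_mulVec, Matrix.mul_assoc, hP',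
    Matrix.mul_one]

/-- (W1) -/
theorem quot_pres {Y : Matrix (Fin T.N) (Fin T.N) ℂ} (hY : PresFil T Y) {p : ℤ} {n : ℕ}
    {Q : Matrix (Fin n) (Fin T.N) ℚ} (hQ : LinearMap.ker Q.mulVecLin = T.fil p)
    {R : Matrix (Fin T.N) (Fin n) ℚ} (hR : Q * R = 1) : rc Q * Y = rc Q * Y * rc R * rc Q := by
  set Z : Matrix (Fin T.N) (Fin T.N) ℚ := 1 - R * Q with hZ
  have hker : cfil T p ≤ LinearMap.ker (rc Q).mulVecLin := by
    unfold cfil
    rw [Submodule.span_le]
    rintro _ ⟨y, hy, rfl⟩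
    have h5 : Q.mulVec y = 0 := by
      rw [← hQ] at hy
      exact hy
    show (rc Q).mulVec (fun j => algebraMap ℚ ℂ (y j)) = 0
    ext i
    have h6 := congrArg (algebraMap ℚ ℂ) (congrFun h5 i)
    simp only [Matrix.mulVec, dotProduct, map_sum, map_mul, Pi.zero_apply, map_zero] at h6
    simpa [Matrix.mulVec, dotProduct] using h6
  have h1 : rc Q * Y * rc Z = 0 := by
    ext a l
    have h2 : (fun j => Z j l) ∈ T.fil p := by
      rw [← hQ, LinearMap.mem_ker]
      have e1 : Q.mulVecLin (fun j => Z j l) = (Q * Z).mulVec (Pi.single l 1) := by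
        rw [← Matrix.mulVec_mulVec, Matrix.mulVec_single_one]
        rfl
      rw [e1, hZ, Matrix.mul_sub, Matrix.mul_one, ← Matrix.mul_assoc, hR, Matrix.one_mul, sub_self, Matrix.zero_mulVec]
    have h3 : (fun j => algebraMap ℚ ℂ (Z j l)) ∈ cfil T p := Submodule.subset_span ⟨_, h2, rfl⟩
    have h4 : (rc Q).mulVec (Y.mulVec fun j => algebraMap ℚ ℂ (Z j l)) = 0 := hker (hY p _ h3)
    have h6 : (rc Q * Y * rc Z) a l = (rc Q * Y).mulVec (fun j => algebraMap ℚ ℂ (Z j l)) a := rfl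
    rw [h6, ← Matrix.mulVec_mulVec, h4]
    rfl
  rw [hZ, rc_sub, rc_one, rc_mul, Matrix.mul_sub, Matrix.mul_one, sub_eq_zero, ← Matrix.mul_assoc] at h1
  exact h1

section proj

variable {p : ℤ} {π : Matrix (Fin T.N) (Fin T.N) ℂ} (hπ : IsLowProj T p π)

include hπ in
theorem HCoord.proj_up {X : Matrix (Fin T.N) (Fin T.N) ℂ} (hX : h.Up X) : π * X = π * X * π := by
  refine h.co_inj ?_
  ext k l
  rw [h.co_mul_proj hπ, h.co_proj_mul hπ]
  by_cases hk : h.t k < p
  · by_cases hl : h.t l < p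
    · rw [if_pos hk, if_pos hl]
    · rw [if_pos hk, if_neg hl]
      exact hX k l (by omega)
  · rw [if_neg hk]
    by_cases hl : h.t l < p
    · rw [if_pos hl]
    · rw [if_neg hl]

include hπ in
theorem HCoord.trace_proj_up (X : Matrix (Fin T.N) (Fin T.N) ℂ) :
    (π * X).trace = (π * h.X0 X).trace := by
  rw [← h.co_trace, ← h.co_trace (π * h.X0 X)]
  refine Finset.sum_congr rfl fun k _ => ?_
  rw [Matrix.diag_apply, Matrix.diag_apply, h.co_proj_mul hπ, h.co_proj_mul hπ, h.co_X0, if_pos rfl]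

theorem HCoord.trace_up (X : Matrix (Fin T.N) (Fin T.N) ℂ) : X.trace = (h.X0 X).trace := by
  rw [← h.co_trace, ← h.co_trace (h.X0 X)]
  refine Finset.sum_congr rfl fun k _ => ?_
  rw [Matrix.diag_apply, Matrix.diag_apply, h.co_X0, if_pos rfl]

include h hπ in
/-- (W2) the trace on the quotient -/
theorem trace_quot {P' : Matrix (Fin T.N) (Fin T.N) ℂ} (hP' : P' * T.P = 1)
    {Y : Matrix (Fin T.N) (Fin T.N) ℂ} (hY : PresFil T Y) {n : ℕ}
    {Q : Matrix (Fin n) (Fin T.N) ℚ} (hQ : LinearMap.ker Q.mulVecLin = T.fil p)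
    {R : Matrix (Fin T.N) (Fin n) ℚ} (hR : Q * R = 1) :
    (rc Q * Y * rc R).trace = (π * h.X0 (P' * Y * T.P)).trace := by
  have hP'' : T.P * P' = 1 := mul_eq_one_comm.1 hP'
  obtain ⟨X, hX⟩ : ∃ X, X = P' * Y * T.P := ⟨_, rfl⟩
  have hup : h.Up X := hX ▸ h.up_of_pres hP' hY
  have hYX : Y = T.P * X * P' := by
    rw [hX, ← Matrix.mul_assoc, ← Matrix.mul_assoc, hP'', Matrix.one_mul, Matrix.mul_assoc, hP'', Matrix.mul_one]
  have hb := h.quot_proj hπ hQ
  have ha := proj_quot hP' hπ hQ hR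
  have hcc := h.proj_up hπ hup
  rw [← hX, ← h.trace_proj_up hπ X, hYX]
  have e0 : rc Q * (T.P * X * P') * rc R = rc Q * T.P * X * P' * rc R := by
    simp only [Matrix.mul_assoc]
  rw [e0, Matrix.trace_mul_comm]
  set E := P' * rc R * rc Q * T.P with hE
  have u1 : π * E = π := by
    rw [hE, ← Matrix.mul_assoc, ← Matrix.mul_assoc, ← Matrix.mul_assoc, ha, Matrix.mul_assoc, hP', Matrix.mul_one]
  have u2 : E * π = E := by
    rw [hE, Matrix.mul_assoc (P' * rc R), Matrix.mul_assoc (P' * rc R), hb]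
  have u3 : (rc R * (rc Q * T.P * X * P')).trace = (E * X).trace := by
    rw [Matrix.trace_mul_comm, Matrix.mul_assoc, Matrix.trace_mul_comm, hE]
    simp only [Matrix.mul_assoc]
  have g1 : π * π = π := h.proj_idem hπ
  rw [u3]
  calc (E * X).trace = (E * (π * X)).trace := by rw [← Matrix.mul_assoc, u2]
    _ = (E * (π * X) * π).trace := by
      nth_rewrite 1 [hcc]
      rw [Matrix.mul_assoc E]
    _ = (π * E * (π * X)).trace := by rw [Matrix.trace_mul_comm, ← Matrix.mul_assoc]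
    _ = (π * X).trace := by rw [u1, ← Matrix.mul_assoc, g1]

end proj

/-- the derivative of a period at an arbitrary point -/
theorem LD_point {φ : ℂ →ₐ[ℚ] DualNumber ℂ} {g g' X Xh Y : Matrix (Fin T.N) (Fin T.N) ℂ} (hg' : g * g' = 1)
    (hg : g.map φ = il g * oe X) (hXh : Xh * rc T.F = rc T.F * Xh) (hY : PresFil T Y)
    (hdec : g * X * g' = Y + g * Xh * g') {s : ℤˣ} {n : ℕ} {B : Matrix (Fin T.N) (Fin n) ℚ}
    (hB : Function.Injective B.mulVec) (hB' : LinearMap.range B.mulVecLin = T.eig s) {p : ℤ}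
    {Q : Matrix (Fin n) (Fin T.N) ℚ} (hQ : LinearMap.ker Q.mulVecLin = T.fil p)
    {R : Matrix (Fin T.N) (Fin n) ℚ} (hR : Q * R = 1) :
    LD φ (rc Q * g * rc B).det ((rc Q * Y * rc R).trace + (Xh * rc (eproj T s)).trace) := by
  obtain ⟨C, hCB, hBC⟩ := eig_coords s hB hB'
  have hg'' : g' * g = 1 := mul_eq_one_comm.1 hg'
  set Yh := rc C * Xh * rc B with hYh
  set Yp := rc Q * Y * rc R with hYp
  have e1 : rc B * Yh = Xh * rc B := by
    rw [hYh, ← Matrix.mul_assoc, ← Matrix.mul_assoc, ← rc_mul, hBC, ← eproj_comm s hXh, Matrix.mul_assoc,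
      ← rc_mul, ← hBC, Matrix.mul_assoc, hCB, Matrix.mul_one]
  have e2 : Yp * rc Q = rc Q * Y := by
    rw [hYp]
    exact (quot_pres hY hQ hR).symm
  have e3 : rc Q * g * X * rc B = Yp * (rc Q * g * rc B) + rc Q * g * rc B * Yh := by
    have f1 : g * X = Y * g + g * Xh := by
      have := congrArg (· * g) hdec
      simp only [Matrix.add_mul] at this
      rw [Matrix.mul_assoc (g * X), hg'', Matrix.mul_one, Matrix.mul_assoc (g * Xh), hg'', Matrix.mul_one] at this
      exact this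
    calc rc Q * g * X * rc B = rc Q * (g * X) * rc B := by simp only [Matrix.mul_assoc]
      _ = rc Q * Y * (g * rc B) + rc Q * g * (Xh * rc B) := by
        rw [f1, Matrix.mul_add, Matrix.add_mul]
        simp only [Matrix.mul_assoc]
      _ = _ := by
        rw [← e2, ← e1]
        simp only [Matrix.mul_assoc]
  have hM : (rc Q * g * rc B).map φ = oe Yp * il (rc Q * g * rc B) * oe Yh := by
    have g1 : (rc Q * g * rc B).map φ = il (rc Q) * (il g * oe X) * il (rc B) := by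
      rw [Matrix.map_mul, Matrix.map_mul, map_rc, map_rc, hg]
    rw [g1]
    unfold oe
    have g2 : il (rc Q) * (il g * (1 + (DualNumber.eps : DualNumber ℂ) • il X)) * il (rc B) =
        il (rc Q * g * rc B) + (DualNumber.eps : DualNumber ℂ) • il (rc Q * g * X * rc B) := by
      rw [Matrix.mul_add, Matrix.mul_add, Matrix.add_mul, Matrix.mul_one, Matrix.mul_smul, Matrix.mul_smul,
        Matrix.smul_mul]
      simp only [il_mul, Matrix.mul_assoc]
    rw [g2, e3, il_add, il_mul Yp, il_mul (rc Q * g * rc B) Yh]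
    set W := il (rc Q * g * rc B)
    rw [add_mul, Matrix.one_mul, mul_add, Matrix.mul_one, Matrix.smul_mul, Matrix.mul_smul, add_mul, Matrix.smul_mul,
      smul_add, smul_add, smul_smul, DualNumber.eps_mul_eps, zero_smul, add_zero, ← add_assoc]
  have h5 := LD_det hM
  have t1 : Yh.trace = (Xh * rc (eproj T s)).trace := by
    rw [hYh, Matrix.trace_mul_comm, ← Matrix.mul_assoc, ← rc_mul, hBC, Matrix.trace_mul_comm]
  rwa [t1] at h5

end Pool.Agent.H97.MR
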