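import Pool.Agent.H97.MR.Reg

set_option autoImplicit false
set_option linter.unusedSectionVars false

/-!
# Openness of a transversality condition
-/

namespace Pool.Agent.H97.MR

open Matrix Cardinal

section

variable {ι : Type} {N : ι → ℕ}

variable (N) in
/-- the entries of a family of matrices -/
def flat : Mats N ≃ₗ[ℂ] ((i : ι) × Fin (N i) × Fin (N i) → ℂ) where
  toFun Y x := Y x.1 x.2.1 x.2.2
  map_add' _ _ := rfl
  map_smul' _ _ := rfl
  invFun y i := Matrix.of fun a b => y ⟨i, a, b⟩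
  left_inv _ := rfl
  right_inv _ := rfl

theorem Reg.adj {k : Subfield ℂ} {X : Mats N} (hX : ∀ x, flat N X x ∈ k) (x : (i : ι) × Fin (N i) × Fin (N i)) :
    (fun g : GLs N ℂ => flat N (adj g X) x) ∈ Reg N k := by
  obtain ⟨i, a, b⟩ := x
  have e : (fun g : GLs N ℂ => flat N (Pool.Agent.H97.MR.adj g X) ⟨i, a, b⟩) =
      ∑ d, (∑ c, (fun g : GLs N ℂ => (g i : Matrix (Fin (N i)) (Fin (N i)) ℂ) a c) * fun _ => X i c d) *
        fun g => (((g i)⁻¹ : GL (Fin (N i)) ℂ) : Matrix (Fin (N i)) (Fin (N i)) ℂ) d b := by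
    funext g
    show ((g i : Matrix (Fin (N i)) (Fin (N i)) ℂ) * X i * (((g i)⁻¹ : GL (Fin (N i)) ℂ) :
      Matrix (Fin (N i)) (Fin (N i)) ℂ)) a b = _
    rw [Matrix.mul_apply, Finset.sum_apply]
    refine Finset.sum_congr rfl fun d _ => ?_
    rw [Matrix.mul_apply, Pi.mul_apply, Finset.sum_apply]
    rfl
  rw [e]
  refine sum_mem fun d _ => mul_mem (sum_mem fun c _ => mul_mem (Reg.entry k i a c) (Reg.const ?_))
    (Reg.entry_inv k i d b)
  exact hX ⟨i, c, d⟩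

theorem adj_sum {n : ℕ} (g : GLs N ℂ) (c : Fin n → ℂ) (X : Fin n → Mats N) :
    adj g (∑ j, c j • X j) = ∑ j, c j • adj g (X j) := by
  show adjLin g _ = ∑ j, c j • adjLin g (X j)
  rw [map_sum]
  refine Finset.sum_congr rfl fun j _ => ?_
  rw [map_smul]

/-- If the translate of `V` by `q` spans `H` modulo `W`, then so does the translate by a generic point of a set that
contains `q`. -/
theorem open_of_good [Finite ι] {V H W : Submodule ℂ (Mats N)} (hWH : W ≤ H) {q : GLs N ℂ}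
    (hq : ∀ Y ∈ H, ∃ X ∈ V, Y - adj q X ∈ W) :
    ∃ S : Set ℂ, S.Finite ∧ ∀ k : Subfield ℂ, S ⊆ k → ∀ Z : Set (GLs N ℂ), q ∈ Z → ∀ p, IsGen k Z p →
      (∀ X ∈ V, adj p X ∈ H) → ∀ Y ∈ H, ∃ X ∈ V, Y - adj p X ∈ W := by
  classical
  have := Fintype.ofFinite ι
  have hfin : FiniteDimensional ℂ (Mats N) := Module.Finite.equiv (flat N).symm
  let E := H ⧸ W.comap H.subtype
  let π : H →ₗ[ℂ] E := Submodule.mkQ _
  obtain ⟨Λ, hΛ⟩ := LinearMap.exists_extend π
  have hΛ' : ∀ Y (hY : Y ∈ H), Λ Y = π ⟨Y, hY⟩ := fun Y hY => congrArg (fun f => f ⟨Y, hY⟩) hΛ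
  have hΛW : ∀ Y (hY : Y ∈ H), Λ Y = 0 ↔ Y ∈ W := by
    intro Y hY
    rw [hΛ' Y hY]
    show Submodule.Quotient.mk _ = 0 ↔ _
    rw [Submodule.Quotient.mk_eq_zero]
    rfl
  let b := Module.finBasis ℂ E
  have hX : ∀ j, ∃ X ∈ V, Λ (adj q X) = b j := by
    intro j
    obtain ⟨Y, hY⟩ := Submodule.mkQ_surjective _ (b j)
    obtain ⟨X, hXV, hX⟩ := hq Y Y.2
    refine ⟨X, hXV, ?_⟩
    have h1 := (hΛW _ (hWH hX)).2 hX
    rw [map_sub, sub_eq_zero] at h1
    rw [← h1, hΛ' _ Y.2]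
    exact hY
  choose X hXV hX using hX
  let M : GLs N ℂ → Matrix (Fin (Module.finrank ℂ E)) (Fin (Module.finrank ℂ E)) ℂ := fun g =>
    Matrix.of fun i j => b.repr (Λ (adj g (X j))) i
  have hMq : M q = 1 := by
    ext i j
    show b.repr (Λ (adj q (X j))) i = _
    rw [hX, b.repr_self, Matrix.one_apply, Finsupp.single_apply]
    simp only [eq_comm]
  let lam : Fin (Module.finrank ℂ E) → (i : ι) × Fin (N i) × Fin (N i) → ℂ := fun i x =>
    b.repr (Λ ((flat N).symm fun y => if x = y then 1 else 0)) i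
  have hM : ∀ g i j, M g i j = ∑ x, flat N (adj g (X j)) x * lam i x := by
    intro g i j
    let L : ((i : ι) × Fin (N i) × Fin (N i) → ℂ) →ₗ[ℂ] ℂ :=
      (Finsupp.lapply i ∘ₗ (b.repr : E →ₗ[ℂ] _)) ∘ₗ Λ ∘ₗ ((flat N).symm : _ →ₗ[ℂ] Mats N)
    have h1 : M g i j = L (flat N (adj g (X j))) := by
      show _ = b.repr (Λ ((flat N).symm (flat N (adj g (X j))))) i
      rw [LinearEquiv.symm_apply_apply]
      rfl
    rw [h1, LinearMap.pi_apply_eq_sum_univ]
    rfl
  refine ⟨Set.range (fun u : Fin (Module.finrank ℂ E) × ((i : ι) × Fin (N i) × Fin (N i)) => lam u.1 u.2) ∪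
    Set.range (fun u : Fin (Module.finrank ℂ E) × ((i : ι) × Fin (N i) × Fin (N i)) => flat N (X u.1) u.2),
    (Set.finite_range _).union (Set.finite_range _), ?_⟩
  intro k hk Z hqZ p hp hpH Y hY
  have hreg : (fun g => (M g).det) ∈ Reg N k := by
    refine Reg.det fun i j => ?_
    have e : (fun g => M g i j) = ∑ x, (fun g : GLs N ℂ => flat N (adj g (X j)) x) * fun _ => lam i x := by
      funext g
      rw [hM, Finset.sum_apply]
      rfl
    rw [e]
    refine sum_mem fun x _ => mul_mem (Reg.adj (fun y => hk (Or.inr ⟨(j, y), rfl⟩)) x) (Reg.const ?_)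
    exact hk (Or.inl ⟨(i, x), rfl⟩)
  have hdet : (M p).det ≠ 0 := by
    intro h0
    have h1 := (hp _ hreg).1 h0 q hqZ
    rw [hMq, Matrix.det_one] at h1
    exact one_ne_zero h1
  let c := (M p)⁻¹.mulVec fun i => b.repr (Λ Y) i
  have hc : (M p).mulVec c = fun i => b.repr (Λ Y) i := by
    rw [Matrix.mulVec_mulVec, Matrix.mul_nonsing_inv _ (isUnit_iff_ne_zero.2 hdet), Matrix.one_mulVec]
  refine ⟨∑ j, c j • X j, V.sum_mem fun j _ => V.smul_mem _ (hXV j), ?_⟩
  have hmem : Y - adj p (∑ j, c j • X j) ∈ H :=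
    H.sub_mem hY (hpH _ (V.sum_mem fun j _ => V.smul_mem _ (hXV j)))
  rw [← hΛW _ hmem, map_sub, sub_eq_zero]
  refine b.repr.injective (Finsupp.ext fun i => ?_)
  have h1 := congrFun hc i
  rw [adj_sum, map_sum, map_sum, Finsupp.finsetSum_apply]
  simp only [map_smul, Finsupp.smul_apply, smul_eq_mul]
  rw [← h1]
  show ∑ j, M p i j * c j = _
  refine Finset.sum_congr rfl fun j _ => ?_
  rw [mul_comm]
  rfl

end

end Pool.Agent.H97.MR
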