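import Pool.Agent.H97.MR.Conj
import Pool.Agent.H97.MR.Open

set_option autoImplicit false
set_option linter.unusedSectionVars false

/-!
# The Lie algebra at the points of the torsor
-/

namespace Pool.Agent.H97.MR

open Matrix Cardinal Pool.Agent.X33.DP

section

variable {ι : Type} {N : ι → ℕ}

theorem adj_mul (g g' : GLs N ℂ) (X : Mats N) : adj g (adj g' X) = adj (g * g') X := by
  funext i
  show _ * (_ * X i * _) * _ = ((g i * g' i : GL (Fin (N i)) ℂ) : Matrix (Fin (N i)) (Fin (N i)) ℂ) * X i *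
    (((g i * g' i)⁻¹ : GL (Fin (N i)) ℂ) : Matrix (Fin (N i)) (Fin (N i)) ℂ)
  rw [_root_.mul_inv_rev, Units.val_mul, Units.val_mul]
  simp only [Matrix.mul_assoc]

theorem adj_one (X : Mats N) : adj (1 : GLs N ℂ) X = X := by
  funext i
  show ((1 : GL (Fin (N i)) ℂ) : Matrix (Fin (N i)) (Fin (N i)) ℂ) * X i *
    (((1 : GL (Fin (N i)) ℂ)⁻¹ : GL (Fin (N i)) ℂ) : Matrix (Fin (N i)) (Fin (N i)) ℂ) = _
  rw [inv_one, Units.val_one, Matrix.one_mul, Matrix.mul_one]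

theorem adj_sub (g : GLs N ℂ) (X Y : Mats N) : adj g (X - Y) = adj g X - adj g Y := map_sub (adjLin g) X Y

theorem adj_trace (g : GLs N ℂ) (X : Mats N) (i : ι) : (adj g X i).trace = (X i).trace := by
  show ((g i : Matrix (Fin (N i)) (Fin (N i)) ℂ) * X i * (((g i)⁻¹ : GL (Fin (N i)) ℂ) :
    Matrix (Fin (N i)) (Fin (N i)) ℂ)).trace = _
  rw [Matrix.trace_mul_comm, ← Matrix.mul_assoc, Units.inv_mul, Matrix.one_mul]

end

variable {ι : Type} {T : ι → PMot ℚ ℂ}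

/-- the elements of the Lie algebra that commute with `F_∞` -/
def VV (G : SubgroupFunctor (rks T)) : Submodule ℂ (Mats (rks T)) where
  carrier := {X | X ∈ G.lie ∧ ∀ i, X i * rc (T i).F = rc (T i).F * X i}
  add_mem' := fun {X Y} hX hY => ⟨G.lie.add_mem hX.1 hY.1, fun i => by
    show (X i + Y i) * _ = _ * (X i + Y i)
    rw [Matrix.add_mul, Matrix.mul_add, hX.2, hY.2]⟩
  zero_mem' := ⟨G.lie.zero_mem, fun i => by
    show (0 : Matrix (Fin (T i).N) (Fin (T i).N) ℂ) * _ = _ * 0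
    rw [Matrix.zero_mul, Matrix.mul_zero]⟩
  smul_mem' := fun c X hX => ⟨G.lie.smul_mem c hX.1, fun i => by
    show (c • X i) * _ = _ * (c • X i)
    rw [Matrix.smul_mul, Matrix.mul_smul, hX.2]⟩

/-- the Lie algebra on the side of the de Rham realisation -/
noncomputable def HH (G : SubgroupFunctor (rks T)) : Submodule ℂ (Mats (rks T)) :=
  G.lie.comap (adjLin (comps T)⁻¹)

/-- its elements that preserve the Hodge filtration -/
noncomputable def WW (G : SubgroupFunctor (rks T)) : Submodule ℂ (Mats (rks T)) where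
  carrier := {Y | Y ∈ HH G ∧ ∀ i, PresFil (T i) (Y i)}
  add_mem' := fun {X Y} hX hY => ⟨(HH G).add_mem hX.1 hY.1, fun i q z hz => by
    show (X i + Y i).mulVec z ∈ _
    rw [Matrix.add_mulVec]
    exact Submodule.add_mem _ (hX.2 i q z hz) (hY.2 i q z hz)⟩
  zero_mem' := ⟨(HH G).zero_mem, fun i q z _ => by
    show (0 : Matrix (Fin (T i).N) (Fin (T i).N) ℂ).mulVec z ∈ _
    rw [Matrix.zero_mulVec]
    exact Submodule.zero_mem _⟩
  smul_mem' := fun c X hX => ⟨(HH G).smul_mem c hX.1, fun i q z hz => by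
    show (c • X i).mulVec z ∈ _
    rw [Matrix.smul_mulVec]
    exact Submodule.smul_mem _ _ (hX.2 i q z hz)⟩

variable {G : SubgroupFunctor (rks T)} {P : TorsorFunctor (rks T)} (h : IsGrp T G P)

/-- the transversality condition at the point `q` -/
def Good (G : SubgroupFunctor (rks T)) (q : GLs (rks T) ℂ) : Prop :=
  ∀ Y ∈ HH G, ∃ X ∈ VV G, Y - adj q X ∈ WW G

include h in
theorem adj_mem_HH {p : GLs (rks T) ℂ} (hp : p ∈ P.pts ℂ) {X : Mats (rks T)} (hX : X ∈ G.lie) : adj p X ∈ HH G := by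
  show adj (comps T)⁻¹ (adj p X) ∈ G.lie
  rw [adj_mul]
  exact adj_mem G (h.torsor ℂ _ h.comp _ hp) hX

include h in
/-- the derivative of a point -/
theorem lie_of_hom {φ : ℂ →ₐ[ℚ] DualNumber ℂ} (hφ : ∀ y, TrivSqZeroExt.fst (φ y) = y) {p : GLs (rks T) ℂ}
    (hp : p ∈ P.pts ℂ) : ∃ X ∈ G.lie, ∀ i, (p i : Matrix (Fin (T i).N) (Fin (T i).N) ℂ).map φ =
      il (p i : Matrix (Fin (T i).N) (Fin (T i).N) ℂ) * oe (X i) := by
  have e1 : bcs (φ : ℂ →+* DualNumber ℂ) p ∈ P.pts (DualNumber ℂ) := P.map_mem _ _ φ _ hp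
  have e2 : bcs (inlHom : ℂ →+* DualNumber ℂ) p ∈ P.pts (DualNumber ℂ) := P.map_mem _ _ inlHom _ hp
  have e3 := h.torsor _ _ e2 _ e1
  let Z : ∀ i, Matrix (Fin (T i).N) (Fin (T i).N) (DualNumber ℂ) := fun i =>
    (((bcs (inlHom : ℂ →+* DualNumber ℂ) p)⁻¹ * bcs (φ : ℂ →+* DualNumber ℂ) p) i :
      Matrix (Fin (T i).N) (Fin (T i).N) (DualNumber ℂ))
  let X : Mats (rks T) := fun i => (Z i).map TrivSqZeroExt.snd
  have hPZ : ∀ i, (p i : Matrix (Fin (T i).N) (Fin (T i).N) ℂ).map φ =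
      il (p i : Matrix (Fin (T i).N) (Fin (T i).N) ℂ) * Z i := by
    intro i
    have : (bcs (inlHom : ℂ →+* DualNumber ℂ) p i) * ((bcs (inlHom : ℂ →+* DualNumber ℂ) p)⁻¹ *
        bcs (φ : ℂ →+* DualNumber ℂ) p) i = bcs (φ : ℂ →+* DualNumber ℂ) p i := by
      show (bcs (inlHom : ℂ →+* DualNumber ℂ) p i) * ((bcs (inlHom : ℂ →+* DualNumber ℂ) p i)⁻¹ *
        bcs (φ : ℂ →+* DualNumber ℂ) p i) = _
      rw [mul_inv_cancel_left]
    exact (congrArg (fun g : GL (Fin (T i).N) (DualNumber ℂ) =>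
      (g : Matrix (Fin (T i).N) (Fin (T i).N) (DualNumber ℂ))) this).symm
  have hZ1 : ∀ i, (Z i).map TrivSqZeroExt.fst = (1 : Matrix (Fin (T i).N) (Fin (T i).N) ℂ) := by
    intro i
    have f1 := congrArg (fun Y : Matrix (Fin (T i).N) (Fin (T i).N) (DualNumber ℂ) =>
      Y.map (TrivSqZeroExt.fstHom ℂ ℂ ℂ)) (hPZ i)
    simp only [Matrix.map_mul] at f1
    have f2 : ((p i : Matrix (Fin (T i).N) (Fin (T i).N) ℂ).map φ).map (TrivSqZeroExt.fstHom ℂ ℂ ℂ) =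
        (p i : Matrix (Fin (T i).N) (Fin (T i).N) ℂ) := by
      ext a b
      exact hφ _
    have f3 : (il (p i : Matrix (Fin (T i).N) (Fin (T i).N) ℂ)).map (TrivSqZeroExt.fstHom ℂ ℂ ℂ) =
        (p i : Matrix (Fin (T i).N) (Fin (T i).N) ℂ) := by
      ext a b
      rfl
    rw [f2, f3] at f1
    have f4 := congrArg (fun Y => (((p i)⁻¹ : GL (Fin (T i).N) ℂ) : Matrix (Fin (T i).N) (Fin (T i).N) ℂ) * Y) f1
    simp only [← Matrix.mul_assoc] at f4
    rw [Units.inv_mul, Matrix.one_mul] at f4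
    exact f4.symm
  have hZX : ∀ i, Z i = oe (X i) := fun i => eq_oe (hZ1 i)
  refine ⟨X, ?_, fun i => by rw [hPZ, hZX]⟩
  rw [mem_lie]
  have : ogs X = (bcs (inlHom : ℂ →+* DualNumber ℂ) p)⁻¹ * bcs (φ : ℂ →+* DualNumber ℂ) p := by
    funext i
    apply Units.ext
    exact (hZX i).symm
  rw [this]
  exact e3

/-- the Hodge cocharacter -/
theorem cochar (h : IsGrp T G P) (H : ∀ i, HCoord (T i)) (z : ℂˣ) :
    (fun i => mu (H i).V (H i).t z : GLs (rks T) ℂ) ∈ G.pts ℂ :=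
  h.mu z _ fun i p x hx => (H i).mu_eig z p x hx

theorem inv_comps_val (i : ι) : (((comps T)⁻¹ i : GL (Fin (T i).N) ℂ) : Matrix (Fin (T i).N) (Fin (T i).N) ℂ) *
    (T i).P = 1 := by
  have := Units.inv_mul (comps T i)
  exact this

theorem adj_inv_comps (Y : Mats (rks T)) (i : ι) : adj (comps T)⁻¹ Y i =
    (((comps T)⁻¹ i : GL (Fin (T i).N) ℂ) : Matrix (Fin (T i).N) (Fin (T i).N) ℂ) * Y i * (T i).P := by
  show _ * Y i * ((((comps T)⁻¹ i)⁻¹ : GL (Fin (T i).N) ℂ) : Matrix (Fin (T i).N) (Fin (T i).N) ℂ) = _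
  rw [show ((comps T)⁻¹ i)⁻¹ = comps T i from inv_inv (comps T i)]
  rfl

/-- the condition is true at the comparison isomorphism -/
theorem good_comps [Fintype ι] (h : IsGrp T G P) : Good G (comps T) := by
  intro Y hY
  let H : ∀ i, HCoord (T i) := fun i => (exists_hcoord (T i)).some
  set X : Mats (rks T) := adj (comps T)⁻¹ Y with hX
  have hXl : X ∈ G.lie := hY
  have hXm : (fun i => (H i).Xm (X i) : Mats (rks T)) ∈ G.lie :=
    part_mem G (fun i => (H i).V) (fun i => (H i).t) (cochar h H) _ hXl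
  have hXh : (fun i => (H i).Xh (X i) : Mats (rks T)) ∈ G.lie :=
    G.lie.add_mem hXm (frob_lie h hXm)
  refine ⟨fun i => (H i).Xh (X i), ⟨hXh, fun i => (H i).Xh_comm (X i)⟩, ?_, ?_⟩
  · show adj (comps T)⁻¹ (Y - adj (comps T) fun i => (H i).Xh (X i)) ∈ G.lie
    rw [adj_sub, adj_mul, inv_mul_cancel, adj_one]
    exact G.lie.sub_mem hXl hXh
  · intro i
    have h1 : (H i).Up (X i - (H i).Xh (X i)) := fun k l hkl => (H i).co_Xp_low (X i) k l hkl
    have h2 := (H i).pres_of_up (inv_comps_val i) h1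
    have h3 : Y - adj (comps T) (fun i => (H i).Xh (X i)) = adj (comps T) (X - fun i => (H i).Xh (X i)) := by
      rw [adj_sub, hX, adj_mul, mul_inv_cancel, adj_one]
    rw [h3]
    exact h2

theorem HH_conj (h : IsGrp T G P) (σ : ℂ →+* ℂ) {Y : Mats (rks T)} (hY : Y ∈ HH G) : sm σ Y ∈ HH G := by
  have h1 : sm σ (adj (comps T)⁻¹ Y) ∈ G.lie := sm_lie σ G hY
  rw [sm_adj, ← inv_sg] at h1
  have h2 := adj_mem_HH h (sg_mem σ P h.comp) h1
  rwa [adj_mul, mul_inv_cancel, adj_one] at h2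

theorem WW_conj (h : IsGrp T G P) (σ : ℂ →+* ℂ) {Y : Mats (rks T)} (hY : Y ∈ WW G) : sm σ Y ∈ WW G :=
  ⟨HH_conj h σ hY.1, fun i => (hY.2 i).map σ⟩

theorem VV_conj (σ : ℂ →+* ℂ) {X : Mats (rks T)} (hX : X ∈ VV G) : sm σ X ∈ VV G := by
  refine ⟨sm_lie σ G hX.1, fun i => ?_⟩
  have h1 := congrArg (fun M : Matrix (Fin (T i).N) (Fin (T i).N) ℂ => M.map σ) (hX.2 i)
  simp only [Matrix.map_mul, rc_map] at h1
  exact h1

/-- the condition is true at the conjugates of the comparison isomorphism -/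
theorem good_conj [Fintype ι] (h : IsGrp T G P) (σ : ℂ ≃+* ℂ) : Good G (sg (σ : ℂ →+* ℂ) (comps T)) := by
  intro Y hY
  obtain ⟨X, hX, hX'⟩ := good_comps h _ (HH_conj h (σ.symm : ℂ →+* ℂ) hY)
  refine ⟨sm (σ : ℂ →+* ℂ) X, VV_conj _ hX, ?_⟩
  have h1 := WW_conj h (σ : ℂ →+* ℂ) hX'
  rwa [sm_sub, sm_symm, sm_adj] at h1

end Pool.Agent.H97.MR
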