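import Pool.Agent.H97.MR.Dual

set_option autoImplicit false
set_option linter.unusedSectionVars false

/-!
# Subgroups of products of general linear groups over `ℚ`, their Lie algebras, and gradings
-/

namespace Pool.Agent.H97.MR

open Matrix

section

variable {ι : Type} (N : ι → ℕ)

/-- the `A`-valued points of `∏ GL(T_i)` -/
abbrev GLs (A : Type) [CommRing A] : Type := ∀ i, GL (Fin (N i)) A

/-- families of complex matrices -/
abbrev Mats : Type := ∀ i, Matrix (Fin (N i)) (Fin (N i)) ℂ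

variable {N}

/-- base change -/
def bcs {A B : Type} [CommRing A] [CommRing B] (f : A →+* B) (g : GLs N A) : GLs N B :=
  fun i => Matrix.GeneralLinearGroup.map f (g i)

variable (N)

/-- A subgroup of `∏ GL(T_i)` over `ℚ`, as a functor of points: subgroups `G(A)` of `∏ GL_{N_i}(A)` for all commutative
`ℚ`-algebras `A`, compatible with base change. -/
structure SubgroupFunctor where
  /-- the `A`-valued points -/
  pts : ∀ (A : Type) [CommRing A] [Algebra ℚ A], Subgroup (GLs N A)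
  map_mem : ∀ (A B : Type) [CommRing A] [Algebra ℚ A] [CommRing B] [Algebra ℚ B] (f : A →ₐ[ℚ] B),
    ∀ g ∈ pts A, bcs (f : A →+* B) g ∈ pts B

variable {N} (G : SubgroupFunctor N)

/-- `1 + ε X` -/
noncomputable def ogs (X : Mats N) : GLs N (DualNumber ℂ) := fun i => og (X i)

theorem ogs_add (X Y : Mats N) : ogs (X + Y) = ogs X * ogs Y := funext fun _ => og_add _ _

theorem ogs_zero : ogs (0 : Mats N) = 1 := funext fun _ => og_zero

/-- the complex Lie algebra of `G`: the families `X` of complex matrices such that `1 + ε X` is in `G(ℂ[ε])` -/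
def SubgroupFunctor.lie : Submodule ℂ (Mats N) where
  carrier := {X | ogs X ∈ G.pts (DualNumber ℂ)}
  add_mem' := fun {X Y} hX hY => by
    show ogs (X + Y) ∈ G.pts (DualNumber ℂ)
    rw [ogs_add]
    exact mul_mem hX hY
  zero_mem' := by
    show ogs (0 : Mats N) ∈ G.pts (DualNumber ℂ)
    rw [ogs_zero]
    exact one_mem _
  smul_mem' := fun c X hX => by
    show ogs (c • X) ∈ G.pts (DualNumber ℂ)
    have h1 := G.map_mem _ _ (scaleHom c) _ hX
    have h2 : bcs (scaleHom c : DualNumber ℂ →+* DualNumber ℂ) (ogs X) = ogs (c • X) := by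
      funext i
      apply Units.ext
      exact oe_scale c (X i)
    rwa [h2] at h1

theorem mem_lie {X : Mats N} : X ∈ G.lie ↔ ogs X ∈ G.pts (DualNumber ℂ) := Iff.rfl

/-- conjugation -/
def adj (g : GLs N ℂ) (X : Mats N) : Mats N :=
  fun i => (g i : Matrix (Fin (N i)) (Fin (N i)) ℂ) * X i * ((g i)⁻¹ : GL (Fin (N i)) ℂ)

theorem og_conj {n : ℕ} (g : GL (Fin n) ℂ) (X : Matrix (Fin n) (Fin n) ℂ) :
    og ((g : Matrix (Fin n) (Fin n) ℂ) * X * ((g⁻¹ : GL (Fin n) ℂ) : Matrix (Fin n) (Fin n) ℂ)) =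
      Matrix.GeneralLinearGroup.map (inlHom : ℂ →+* DualNumber ℂ) g * og X *
        (Matrix.GeneralLinearGroup.map (inlHom : ℂ →+* DualNumber ℂ) g)⁻¹ := by
  rw [eq_mul_inv_iff_mul_eq]
  apply Units.ext
  show oe ((g : Matrix (Fin n) (Fin n) ℂ) * X * ((g⁻¹ : GL (Fin n) ℂ) : Matrix (Fin n) (Fin n) ℂ)) *
    il (g : Matrix (Fin n) (Fin n) ℂ) = il (g : Matrix (Fin n) (Fin n) ℂ) * oe X
  unfold oe
  rw [il_mul, il_mul, add_mul, one_mul, mul_add, mul_one, Matrix.smul_mul, Matrix.mul_smul, Matrix.mul_assoc (_ * _),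
    ← il_mul ((g⁻¹ : GL (Fin n) ℂ) : Matrix (Fin n) (Fin n) ℂ), Units.inv_mul, il_one, Matrix.mul_one]

theorem adj_mem {g : GLs N ℂ} (hg : g ∈ G.pts ℂ) {X : Mats N} (hX : X ∈ G.lie) : adj g X ∈ G.lie := by
  rw [mem_lie] at *
  have h1 := G.map_mem _ _ inlHom _ hg
  have h2 : ogs (adj g X) = bcs (inlHom : ℂ →+* DualNumber ℂ) g * ogs X * (bcs (inlHom : ℂ →+* DualNumber ℂ) g)⁻¹ :=
    funext fun i => og_conj (g i) (X i)
  rw [h2]
  exact mul_mem (mul_mem h1 hX) (inv_mem h1)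

/-- conjugation as a linear map -/
def adjLin (g : GLs N ℂ) : Mats N →ₗ[ℂ] Mats N where
  toFun := adj g
  map_add' X Y := by
    funext i
    show _ * (X i + Y i) * _ = _ * X i * _ + _ * Y i * _
    rw [mul_add, add_mul]
  map_smul' c X := by
    funext i
    show _ * (c • X i) * _ = c • (_ * X i * _)
    rw [Matrix.mul_smul, Matrix.smul_mul]

theorem aeval_mem {V : Type} [AddCommGroup V] [Module ℂ V] (f : V →ₗ[ℂ] V) (W : Submodule ℂ V)
    (h : ∀ x ∈ W, f x ∈ W) (q : Polynomial ℂ) {x : V} (hx : x ∈ W) : Polynomial.aeval f q x ∈ W := by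
  induction q using Polynomial.induction_on' with
  | add p q hp hq =>
    rw [map_add, LinearMap.add_apply]
    exact W.add_mem hp hq
  | monomial n a =>
    rw [Polynomial.aeval_monomial]
    show (algebraMap ℂ (Module.End ℂ V) a) ((f ^ n) x) ∈ W
    rw [Module.algebraMap_end_apply]
    refine W.smul_mem _ ?_
    induction n with
    | zero => exact hx
    | succ n ih =>
      rw [pow_succ', Module.End.mul_apply]
      exact h _ ih

/-! ### gradings -/

/-- the part of `X` with the factor `r (t_k - t_l)` at the entry `(k, l)` with respect to the basis `V` -/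
noncomputable def part {n : ℕ} (V : GL (Fin n) ℂ) (t : Fin n → ℤ) (r : ℤ → ℂ) (X : Matrix (Fin n) (Fin n) ℂ) :
    Matrix (Fin n) (Fin n) ℂ :=
  (V : Matrix (Fin n) (Fin n) ℂ) * (Matrix.of fun k l => r (t k - t l) *
    (((V⁻¹ : GL (Fin n) ℂ) : Matrix (Fin n) (Fin n) ℂ) * X * (V : Matrix (Fin n) (Fin n) ℂ)) k l) *
    ((V⁻¹ : GL (Fin n) ℂ) : Matrix (Fin n) (Fin n) ℂ)

theorem inv_part {n : ℕ} (V : GL (Fin n) ℂ) (t : Fin n → ℤ) (r : ℤ → ℂ) (X : Matrix (Fin n) (Fin n) ℂ) :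
    ((V⁻¹ : GL (Fin n) ℂ) : Matrix (Fin n) (Fin n) ℂ) * part V t r X * (V : Matrix (Fin n) (Fin n) ℂ) =
      Matrix.of fun k l => r (t k - t l) *
        (((V⁻¹ : GL (Fin n) ℂ) : Matrix (Fin n) (Fin n) ℂ) * X * (V : Matrix (Fin n) (Fin n) ℂ)) k l := by
  unfold part
  rw [← Matrix.mul_assoc, ← Matrix.mul_assoc, Units.inv_mul, Matrix.one_mul, Matrix.mul_assoc _ _
    (V : Matrix (Fin n) (Fin n) ℂ), Units.inv_mul, Matrix.mul_one]

theorem eq_of_coord {n : ℕ} (V : GL (Fin n) ℂ) {X Y : Matrix (Fin n) (Fin n) ℂ}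
    (h : ((V⁻¹ : GL (Fin n) ℂ) : Matrix (Fin n) (Fin n) ℂ) * X * (V : Matrix (Fin n) (Fin n) ℂ) =
      ((V⁻¹ : GL (Fin n) ℂ) : Matrix (Fin n) (Fin n) ℂ) * Y * (V : Matrix (Fin n) (Fin n) ℂ)) : X = Y := by
  have h1 : ∀ Z : Matrix (Fin n) (Fin n) ℂ, Z = (V : Matrix (Fin n) (Fin n) ℂ) *
      (((V⁻¹ : GL (Fin n) ℂ) : Matrix (Fin n) (Fin n) ℂ) * Z * (V : Matrix (Fin n) (Fin n) ℂ)) *
      ((V⁻¹ : GL (Fin n) ℂ) : Matrix (Fin n) (Fin n) ℂ) := by
    intro Z
    rw [← Matrix.mul_assoc, ← Matrix.mul_assoc, Units.mul_inv, Matrix.one_mul, Matrix.mul_assoc, Units.mul_inv,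
      Matrix.mul_one]
  rw [h1 X, h, ← h1 Y]

/-- the diagonal matrix `z ^ t` -/
noncomputable def dgl {n : ℕ} (t : Fin n → ℤ) (z : ℂˣ) : GL (Fin n) ℂ where
  val := Matrix.diagonal fun k => ((z ^ t k : ℂˣ) : ℂ)
  inv := Matrix.diagonal fun k => (((z ^ t k)⁻¹ : ℂˣ) : ℂ)
  val_inv := by
    rw [Matrix.diagonal_mul_diagonal, ← Matrix.diagonal_one]
    congr 1
    funext k
    exact Units.mul_inv _
  inv_val := by
    rw [Matrix.diagonal_mul_diagonal, ← Matrix.diagonal_one]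
    congr 1
    funext k
    exact Units.inv_mul _

/-- the element `z ^ t` with respect to the basis `V` -/
noncomputable def mu {n : ℕ} (V : GL (Fin n) ℂ) (t : Fin n → ℤ) (z : ℂˣ) : GL (Fin n) ℂ := V * dgl t z * V⁻¹

theorem coord_mu {n : ℕ} (V : GL (Fin n) ℂ) (t : Fin n → ℤ) (z : ℂˣ) (X : Matrix (Fin n) (Fin n) ℂ) :
    ((V⁻¹ : GL (Fin n) ℂ) : Matrix (Fin n) (Fin n) ℂ) * ((mu V t z : Matrix (Fin n) (Fin n) ℂ) * X *
      (((mu V t z)⁻¹ : GL (Fin n) ℂ) : Matrix (Fin n) (Fin n) ℂ)) * (V : Matrix (Fin n) (Fin n) ℂ) =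
      Matrix.of fun k l => ((z ^ (t k - t l) : ℂˣ) : ℂ) *
        (((V⁻¹ : GL (Fin n) ℂ) : Matrix (Fin n) (Fin n) ℂ) * X * (V : Matrix (Fin n) (Fin n) ℂ)) k l := by
  have h1 : ((mu V t z)⁻¹ : GL (Fin n) ℂ) = V * (dgl t z)⁻¹ * V⁻¹ := by
    unfold mu
    group
  rw [h1]
  unfold mu
  simp only [Units.val_mul]
  have h2 : ∀ D D' : Matrix (Fin n) (Fin n) ℂ,
      ((V⁻¹ : GL (Fin n) ℂ) : Matrix (Fin n) (Fin n) ℂ) * ((V : Matrix (Fin n) (Fin n) ℂ) * D *
        ((V⁻¹ : GL (Fin n) ℂ) : Matrix (Fin n) (Fin n) ℂ) * X * ((V : Matrix (Fin n) (Fin n) ℂ) * D' *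
        ((V⁻¹ : GL (Fin n) ℂ) : Matrix (Fin n) (Fin n) ℂ))) * (V : Matrix (Fin n) (Fin n) ℂ) =
      D * (((V⁻¹ : GL (Fin n) ℂ) : Matrix (Fin n) (Fin n) ℂ) * X * (V : Matrix (Fin n) (Fin n) ℂ)) * D' := by
    intro D D'
    have e1 := Units.inv_mul V
    calc _ = (((V⁻¹ : GL (Fin n) ℂ) : Matrix (Fin n) (Fin n) ℂ) * (V : Matrix (Fin n) (Fin n) ℂ)) * D *
          (((V⁻¹ : GL (Fin n) ℂ) : Matrix (Fin n) (Fin n) ℂ) * X * (V : Matrix (Fin n) (Fin n) ℂ)) * D' *
          (((V⁻¹ : GL (Fin n) ℂ) : Matrix (Fin n) (Fin n) ℂ) * (V : Matrix (Fin n) (Fin n) ℂ)) := by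
            simp only [Matrix.mul_assoc]
      _ = _ := by rw [e1, Matrix.one_mul, Matrix.mul_one]
  have h3 := h2 (Matrix.diagonal fun k => ((z ^ t k : ℂˣ) : ℂ)) (Matrix.diagonal fun k => (((z ^ t k)⁻¹ : ℂˣ) : ℂ))
  refine h3.trans ?_
  ext k l
  rw [Matrix.mul_diagonal, Matrix.diagonal_mul, Matrix.of_apply, _root_.zpow_sub, Units.val_mul]
  ring

variable [Fintype ι] (V : GLs N ℂ) (t : ∀ i, Fin (N i) → ℤ)

/-- the parts of elements of the Lie algebra are in the Lie algebra -/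
theorem part_mem (hmu : ∀ z : ℂˣ, (fun i => mu (V i) (t i) z) ∈ G.pts ℂ) (r : ℤ → ℂ) {X : Mats N} (hX : X ∈ G.lie) :
    (fun i => part (V i) (t i) r (X i)) ∈ G.lie := by
  classical
  set z : ℂˣ := Units.mk0 2 two_ne_zero with hz
  set L := adjLin (N := N) fun i => mu (V i) (t i) z with hL
  let s : Finset ℤ := Finset.univ.image fun x : (i : ι) × Fin (N i) × Fin (N i) => t x.1 x.2.1 - t x.1 x.2.2
  let v : ℤ → ℂ := fun m => ((z ^ m : ℂˣ) : ℂ)
  have hv : Set.InjOn v s := by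
    intro m _ m' _ h
    have h1 := congrArg (fun x : ℂ => ‖x‖) h
    simp only [v, hz, Units.val_zpow_eq_zpow_val, Units.val_mk0, norm_zpow, Complex.norm_ofNat] at h1
    exact zpow_right_injective₀ (by norm_num : (0 : ℝ) < 2) (by norm_num) h1
  let q := Lagrange.interpolate s v r
  have hq : ∀ m ∈ s, q.eval (v m) = r m := fun m hm => Lagrange.eval_interpolate_at_node r hv hm
  have h0 : ∀ (n : ℕ) i k l,
      ((((V i)⁻¹ : GL (Fin (N i)) ℂ) : Matrix (Fin (N i)) (Fin (N i)) ℂ) * (L ^ n) X i *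
        (V i : Matrix (Fin (N i)) (Fin (N i)) ℂ)) k l = v (t i k - t i l) ^ n *
        ((((V i)⁻¹ : GL (Fin (N i)) ℂ) : Matrix (Fin (N i)) (Fin (N i)) ℂ) * X i *
          (V i : Matrix (Fin (N i)) (Fin (N i)) ℂ)) k l := by
    intro n
    induction n with
    | zero =>
      intro i k l
      have e1 : (L ^ 0) X = X := by rw [pow_zero]; rfl
      have e2 : v (t i k - t i l) ^ 0 = 1 := _root_.pow_zero _
      rw [e1, e2, one_mul]
    | succ n ih =>
      intro i k l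
      rw [pow_succ', Module.End.mul_apply]
      have h2 := congrFun (congrFun (coord_mu (V i) (t i) z ((L ^ n) X i)) k) l
      refine Eq.trans h2 ?_
      rw [Matrix.of_apply, ih, pow_succ]
      ring
  have h1 : ∀ (q : Polynomial ℂ) i k l,
      (((V i)⁻¹ : GL (Fin (N i)) ℂ) * (Polynomial.aeval L q X i) * (V i : Matrix (Fin (N i)) (Fin (N i)) ℂ)) k l =
      q.eval (v (t i k - t i l)) *
        ((((V i)⁻¹ : GL (Fin (N i)) ℂ) : Matrix (Fin (N i)) (Fin (N i)) ℂ) * X i *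
          (V i : Matrix (Fin (N i)) (Fin (N i)) ℂ)) k l := by
    intro q
    induction q using Polynomial.induction_on' with
    | add p q hp hq =>
      intro i k l
      rw [map_add, LinearMap.add_apply, Pi.add_apply, mul_add, add_mul, Matrix.add_apply, hp, hq, Polynomial.eval_add]
      ring
    | monomial n a =>
      intro i k l
      rw [Polynomial.aeval_monomial, Polynomial.eval_monomial]
      show ((((V i)⁻¹ : GL (Fin (N i)) ℂ) : Matrix (Fin (N i)) (Fin (N i)) ℂ) *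
        (algebraMap ℂ (Module.End ℂ (Mats N)) a) ((L ^ n) X) i *
        (V i : Matrix (Fin (N i)) (Fin (N i)) ℂ)) k l = _
      rw [Module.algebraMap_end_apply, Pi.smul_apply, Matrix.mul_smul, Matrix.smul_mul, Matrix.smul_apply, smul_eq_mul,
        h0]
      ring
  have h2 : Polynomial.aeval L q X = fun i => part (V i) (t i) r (X i) := by
    funext i
    refine eq_of_coord (V i) ?_
    rw [inv_part]
    ext k l
    rw [h1, Matrix.of_apply, hq]
    exact Finset.mem_image.2 ⟨⟨i, k, l⟩, Finset.mem_univ _, rfl⟩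
  rw [← h2]
  exact aeval_mem L G.lie (fun Y hY => adj_mem G (hmu z) hY) q hX

end

end Pool.Agent.H97.MR
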