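import Pool.Agent.H97.MR.Lie

set_option autoImplicit false
set_option linter.unusedSectionVars false

/-!
# The logarithmic derivative of a period
-/

namespace Pool.Agent.H97.MR

open Matrix Pool.Agent.X33.DP

/-- a rational matrix over `ℂ` -/
noncomputable abbrev rc {m n : Type} (X : Matrix m n ℚ) : Matrix m n ℂ := X.map (algebraMap ℚ ℂ)

theorem rc_mul {l m n : Type} [Fintype m] (X : Matrix l m ℚ) (Y : Matrix m n ℚ) : rc (X * Y) = rc X * rc Y :=
  Matrix.map_mul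

theorem rc_one {m : Type} [DecidableEq m] : rc (1 : Matrix m m ℚ) = 1 :=
  Matrix.map_one _ (map_zero _) (map_one _)

theorem rc_add {m n : Type} (X Y : Matrix m n ℚ) : rc (X + Y) = rc X + rc Y :=
  Matrix.map_add _ (map_add _) X Y

theorem rc_sub {m n : Type} (X Y : Matrix m n ℚ) : rc (X - Y) = rc X - rc Y :=
  Matrix.map_sub _ (map_sub _) X Y

variable (T : PMot ℚ ℂ)

/-- `π` is the projection to `⊕_{q < p} H q` along `⊕_{q ≥ p} H q` -/
def IsLowProj (p : ℤ) (π : Matrix (Fin T.N) (Fin T.N) ℂ) : Prop :=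
  (∀ q, q < p → ∀ x ∈ T.H q, π.mulVec x = x) ∧ ∀ q, p ≤ q → ∀ x ∈ T.H q, π.mulVec x = 0

/-- the period `c^s(T)` computed with the step `F^p` of the filtration -/
def IsStepPeriod (s : ℤˣ) (p : ℤ) (c : ℂ) : Prop :=
  ∃ (n : ℕ) (B : Matrix (Fin T.N) (Fin n) ℚ) (Q : Matrix (Fin n) (Fin T.N) ℚ),
    Function.Injective B.mulVec ∧ LinearMap.range B.mulVecLin = T.eig s ∧
    Function.Surjective Q.mulVec ∧ LinearMap.ker Q.mulVecLin = T.fil p ∧
    c = (Q.map (algebraMap ℚ ℂ) * T.P * B.map (algebraMap ℚ ℂ)).det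

/-- Hodge coordinates -/
structure HCoord where
  /-- the basis -/
  v : Module.Basis (Fin T.N) ℂ (Fin T.N → ℂ)
  /-- the Hodge types -/
  t : Fin T.N → ℤ
  hv : ∀ p, T.H p = Submodule.span ℂ (v '' {j | t j = p})

variable {T} (h : HCoord T)

/-- the matrix with the columns `v` -/
noncomputable def HCoord.V : GL (Fin T.N) ℂ where
  val := Matrix.of fun a k => h.v k a
  inv := Matrix.of fun k a => h.v.repr (Pi.single a 1) k
  val_inv := by
    ext a a'
    have h1 := congrFun (h.v.sum_repr (Pi.single a' (1 : ℂ))) a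
    rw [Finset.sum_apply] at h1
    rw [Matrix.mul_apply, Matrix.one_apply]
    rw [Pi.single_apply] at h1
    rw [← h1]
    refine Finset.sum_congr rfl fun i _ => ?_
    show h.v i a * h.v.repr (Pi.single a' 1) i = (h.v.repr (Pi.single a' 1) i • h.v i) a
    rw [Pi.smul_apply, smul_eq_mul, mul_comm]
  inv_val := by
    refine mul_eq_one_comm.1 ?_
    ext a a'
    have h1 := congrFun (h.v.sum_repr (Pi.single a' (1 : ℂ))) a
    rw [Finset.sum_apply] at h1
    rw [Matrix.mul_apply, Matrix.one_apply]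
    rw [Pi.single_apply] at h1
    rw [← h1]
    refine Finset.sum_congr rfl fun i _ => ?_
    show h.v i a * h.v.repr (Pi.single a' 1) i = (h.v.repr (Pi.single a' 1) i • h.v i) a
    rw [Pi.smul_apply, smul_eq_mul, mul_comm]

theorem HCoord.V_mulVec (y : Fin T.N → ℂ) : (h.V : Matrix (Fin T.N) (Fin T.N) ℂ).mulVec y = ∑ k, y k • h.v k := by
  ext a
  rw [Finset.sum_apply]
  show ∑ k, h.v k a * y k = _
  refine Finset.sum_congr rfl fun k _ => ?_
  rw [Pi.smul_apply, smul_eq_mul, mul_comm]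

theorem HCoord.V_single (l : Fin T.N) : (h.V : Matrix (Fin T.N) (Fin T.N) ℂ).mulVec (Pi.single l 1) = h.v l := by
  ext a
  rw [Matrix.mulVec_single_one]
  rfl

theorem HCoord.inv_mulVec (x : Fin T.N → ℂ) (k : Fin T.N) :
    (((h.V)⁻¹ : GL (Fin T.N) ℂ) : Matrix (Fin T.N) (Fin T.N) ℂ).mulVec x k = h.v.repr x k := by
  have h1 : x = (h.V : Matrix (Fin T.N) (Fin T.N) ℂ).mulVec
      ((((h.V)⁻¹ : GL (Fin T.N) ℂ) : Matrix (Fin T.N) (Fin T.N) ℂ).mulVec x) := by
    rw [Matrix.mulVec_mulVec, Units.mul_inv, Matrix.one_mulVec]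
  rw [h.V_mulVec] at h1
  conv_rhs => rw [h1]
  rw [h.v.repr_sum_self]

/-- the entries of a matrix in Hodge coordinates -/
theorem HCoord.entry (Z : Matrix (Fin T.N) (Fin T.N) ℂ) (k l : Fin T.N) :
    ((((h.V)⁻¹ : GL (Fin T.N) ℂ) : Matrix (Fin T.N) (Fin T.N) ℂ) * Z * (h.V : Matrix (Fin T.N) (Fin T.N) ℂ)) k l =
      h.v.repr (Z.mulVec (h.v l)) k := by
  rw [← h.inv_mulVec, ← h.V_single l, Matrix.mulVec_mulVec, Matrix.mulVec_mulVec, Matrix.mulVec_single_one]
  rfl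

theorem HCoord.v_mem (l : Fin T.N) : h.v l ∈ T.H (h.t l) := by
  rw [h.hv]
  exact Submodule.subset_span ⟨l, rfl, rfl⟩

theorem HCoord.repr_zero {p : ℤ} {x : Fin T.N → ℂ} (hx : x ∈ T.H p) {k : Fin T.N} (hk : h.t k ≠ p) :
    h.v.repr x k = 0 := by
  rw [h.hv, h.v.mem_span_image] at hx
  by_contra h0
  exact hk (hx (Finsupp.mem_support_iff.2 h0))

theorem HCoord.mem_of_repr {p : ℤ} {x : Fin T.N → ℂ} (hx : ∀ k, h.t k ≠ p → h.v.repr x k = 0) : x ∈ T.H p := by
  rw [h.hv, h.v.mem_span_image]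
  intro k hk
  by_contra h0
  exact Finsupp.mem_support_iff.1 hk (hx k h0)

/-- `F_∞` in Hodge coordinates -/
theorem HCoord.F_entry {k l : Fin T.N} (hkl : h.t k ≠ T.w - h.t l) :
    ((((h.V)⁻¹ : GL (Fin T.N) ℂ) : Matrix (Fin T.N) (Fin T.N) ℂ) * rc T.F * (h.V : Matrix (Fin T.N) (Fin T.N) ℂ)) k l =
      0 := by
  rw [h.entry]
  exact h.repr_zero (T.swap _ _ (h.v_mem l)) hkl

theorem HCoord.proj_entry {p : ℤ} {π : Matrix (Fin T.N) (Fin T.N) ℂ} (hπ : IsLowProj T p π) (k l : Fin T.N) :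
    ((((h.V)⁻¹ : GL (Fin T.N) ℂ) : Matrix (Fin T.N) (Fin T.N) ℂ) * π * (h.V : Matrix (Fin T.N) (Fin T.N) ℂ)) k l =
      if k = l ∧ h.t l < p then 1 else 0 := by
  rw [h.entry]
  by_cases hl : h.t l < p
  · rw [hπ.1 _ hl _ (h.v_mem l), h.v.repr_self, Finsupp.single_apply]
    by_cases hkl : l = k
    · subst hkl
      rw [if_pos rfl, if_pos ⟨rfl, hl⟩]
    · rw [if_neg hkl, if_neg fun h1 => hkl h1.1.symm]
  · rw [hπ.2 _ (not_lt.1 hl) _ (h.v_mem l), map_zero]
    simp [hl]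

theorem HCoord.mu_eig (z : ℂˣ) (p : ℤ) (x : Fin T.N → ℂ) (hx : x ∈ T.H p) :
    (mu h.V h.t z : Matrix (Fin T.N) (Fin T.N) ℂ).mulVec x = ((z ^ p : ℂˣ) : ℂ) • x := by
  rw [h.hv] at hx
  induction hx using Submodule.span_induction with
  | mem x hx =>
    obtain ⟨l, hl, rfl⟩ := hx
    have e1 : (mu h.V h.t z : Matrix (Fin T.N) (Fin T.N) ℂ).mulVec (h.v l) =
        (h.V : Matrix (Fin T.N) (Fin T.N) ℂ).mulVec ((dgl h.t z : Matrix (Fin T.N) (Fin T.N) ℂ).mulVec
          (Pi.single l 1)) := by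
      nth_rewrite 1 [← h.V_single l]
      unfold mu
      rw [Units.val_mul, Units.val_mul, Matrix.mulVec_mulVec, Matrix.mul_assoc, Units.inv_mul, Matrix.mul_one,
        ← Matrix.mulVec_mulVec]
    have e2 : (dgl h.t z : Matrix (Fin T.N) (Fin T.N) ℂ).mulVec (Pi.single l 1) =
        ((z ^ h.t l : ℂˣ) : ℂ) • (Pi.single l 1 : Fin T.N → ℂ) := by
      ext k
      show (Matrix.diagonal fun k => ((z ^ h.t k : ℂˣ) : ℂ)).mulVec (Pi.single l 1) k = _
      rw [Matrix.mulVec_diagonal, Pi.smul_apply, smul_eq_mul]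
      by_cases hk : k = l
      · subst hk
        rfl
      · rw [Pi.single_eq_of_ne hk, mul_zero, mul_zero]
    rw [e1, e2, Matrix.mulVec_smul, h.V_single, show h.t l = p from hl]
  | zero => rw [Matrix.mulVec_zero, smul_zero]
  | add x y _ _ hx hy => rw [Matrix.mulVec_add, hx, hy, smul_add]
  | smul c x _ hx => rw [Matrix.mulVec_smul, hx, smul_comm]

/-! ### the decomposition of `X` -/

/-- the part of degree `0` -/
noncomputable def HCoord.X0 (X : Matrix (Fin T.N) (Fin T.N) ℂ) : Matrix (Fin T.N) (Fin T.N) ℂ :=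
  part h.V h.t (fun m => if m = 0 then 1 else 0) X

/-- the part of negative degree -/
noncomputable def HCoord.Xm (X : Matrix (Fin T.N) (Fin T.N) ℂ) : Matrix (Fin T.N) (Fin T.N) ℂ :=
  part h.V h.t (fun m => if m < 0 then 1 else 0) X

/-- the part of `X` that commutes with `F_∞` -/
noncomputable def HCoord.Xh (X : Matrix (Fin T.N) (Fin T.N) ℂ) : Matrix (Fin T.N) (Fin T.N) ℂ :=
  h.Xm X + rc T.F * h.Xm X * rc T.F

theorem F_sq' : rc T.F * rc T.F = 1 := by rw [← rc_mul, T.F_sq, rc_one]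

theorem HCoord.Xh_comm (X : Matrix (Fin T.N) (Fin T.N) ℂ) : h.Xh X * rc T.F = rc T.F * h.Xh X := by
  unfold HCoord.Xh
  rw [add_mul, mul_add, Matrix.mul_assoc _ (rc T.F) (rc T.F), F_sq', Matrix.mul_one, ← Matrix.mul_assoc,
    ← Matrix.mul_assoc, F_sq', Matrix.one_mul, add_comm]

theorem HCoord.X0_hodge (X : Matrix (Fin T.N) (Fin T.N) ℂ) (p : ℤ) (x : Fin T.N → ℂ) (hx : x ∈ T.H p) :
    (h.X0 X).mulVec x ∈ T.H p := by
  rw [h.hv] at hx
  induction hx using Submodule.span_induction with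
  | mem x hx =>
    obtain ⟨l, hl, rfl⟩ := hx
    refine h.mem_of_repr fun k hk => ?_
    rw [← h.entry]
    unfold HCoord.X0
    rw [inv_part, Matrix.of_apply]
    have hl' : h.t l = p := hl
    rw [if_neg (by rw [hl']; exact sub_ne_zero.2 hk), zero_mul]
  | zero => rw [Matrix.mulVec_zero]; exact Submodule.zero_mem _
  | add x y _ _ hx hy => rw [Matrix.mulVec_add]; exact Submodule.add_mem _ hx hy
  | smul c x _ hx => rw [Matrix.mulVec_smul]; exact Submodule.smul_mem _ _ hx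

/-- Hodge coordinates of a matrix -/
noncomputable def HCoord.co (Z : Matrix (Fin T.N) (Fin T.N) ℂ) : Matrix (Fin T.N) (Fin T.N) ℂ :=
  (((h.V)⁻¹ : GL (Fin T.N) ℂ) : Matrix (Fin T.N) (Fin T.N) ℂ) * Z * (h.V : Matrix (Fin T.N) (Fin T.N) ℂ)

theorem HCoord.co_mul (Y Z : Matrix (Fin T.N) (Fin T.N) ℂ) : h.co (Y * Z) = h.co Y * h.co Z := by
  unfold HCoord.co
  rw [Matrix.mul_assoc _ (h.V : Matrix (Fin T.N) (Fin T.N) ℂ), ← Matrix.mul_assoc (h.V : Matrix (Fin T.N) (Fin T.N) ℂ),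
    ← Matrix.mul_assoc (h.V : Matrix (Fin T.N) (Fin T.N) ℂ), Units.mul_inv, Matrix.one_mul]
  simp only [Matrix.mul_assoc]

theorem HCoord.co_sub (Y Z : Matrix (Fin T.N) (Fin T.N) ℂ) : h.co (Y - Z) = h.co Y - h.co Z := by
  unfold HCoord.co
  rw [mul_sub, sub_mul]

theorem HCoord.co_add (Y Z : Matrix (Fin T.N) (Fin T.N) ℂ) : h.co (Y + Z) = h.co Y + h.co Z := by
  unfold HCoord.co
  rw [mul_add, add_mul]

theorem HCoord.co_one : h.co 1 = 1 := by
  unfold HCoord.co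
  rw [Matrix.mul_one, Units.inv_mul]

theorem HCoord.co_trace (Z : Matrix (Fin T.N) (Fin T.N) ℂ) : (h.co Z).trace = Z.trace := by
  unfold HCoord.co
  rw [Matrix.trace_mul_comm, ← Matrix.mul_assoc, Units.mul_inv, Matrix.one_mul]

theorem HCoord.co_inj {Y Z : Matrix (Fin T.N) (Fin T.N) ℂ} (hYZ : h.co Y = h.co Z) : Y = Z := eq_of_coord h.V hYZ

theorem HCoord.co_X0 (X : Matrix (Fin T.N) (Fin T.N) ℂ) (k l : Fin T.N) :
    h.co (h.X0 X) k l = if h.t k = h.t l then h.co X k l else 0 := by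
  unfold HCoord.co HCoord.X0
  rw [inv_part, Matrix.of_apply]
  by_cases hkl : h.t k = h.t l
  · rw [if_pos (sub_eq_zero.2 hkl), if_pos hkl, one_mul]
  · rw [if_neg (sub_ne_zero.2 hkl), if_neg hkl, zero_mul]

theorem HCoord.co_Xm (X : Matrix (Fin T.N) (Fin T.N) ℂ) (k l : Fin T.N) :
    h.co (h.Xm X) k l = if h.t k < h.t l then h.co X k l else 0 := by
  unfold HCoord.co HCoord.Xm
  rw [inv_part, Matrix.of_apply]
  by_cases hkl : h.t k < h.t l
  · rw [if_pos (sub_neg.2 hkl), if_pos hkl, one_mul]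
  · rw [if_neg (fun h1 => hkl (sub_neg.1 h1)), if_neg hkl, zero_mul]

theorem HCoord.co_FXF (X : Matrix (Fin T.N) (Fin T.N) ℂ) (k l : Fin T.N) (hkl : h.t k ≤ h.t l) :
    h.co (rc T.F * h.Xm X * rc T.F) k l = 0 := by
  rw [h.co_mul, h.co_mul, Matrix.mul_apply]
  refine Finset.sum_eq_zero fun b _ => ?_
  rw [Matrix.mul_apply, Finset.sum_mul]
  refine Finset.sum_eq_zero fun a _ => ?_
  rw [h.co_Xm]
  by_cases h1 : h.t k = T.w - h.t a
  · by_cases h2 : h.t b = T.w - h.t l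
    · rw [if_neg (by omega), mul_zero, zero_mul]
    · have : h.co (rc T.F) b l = 0 := h.F_entry h2
      rw [this, mul_zero]
  · have : h.co (rc T.F) k a = 0 := h.F_entry h1
    rw [this, zero_mul, zero_mul]

/-- `X - Xh` is upper triangular -/
theorem HCoord.co_Xp_low (X : Matrix (Fin T.N) (Fin T.N) ℂ) (k l : Fin T.N) (hkl : h.t k < h.t l) :
    h.co (X - h.Xh X) k l = 0 := by
  unfold HCoord.Xh
  rw [h.co_sub, h.co_add, Matrix.sub_apply, Matrix.add_apply, h.co_FXF X k l hkl.le, h.co_Xm, if_pos hkl, add_zero,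
    sub_self]

theorem HCoord.co_Xp_diag (X : Matrix (Fin T.N) (Fin T.N) ℂ) (k : Fin T.N) :
    h.co (X - h.Xh X) k k = h.co X k k := by
  unfold HCoord.Xh
  rw [h.co_sub, h.co_add, Matrix.sub_apply, Matrix.add_apply, h.co_FXF X k k le_rfl, h.co_Xm, if_neg (lt_irrefl _),
    add_zero, sub_zero]

theorem HCoord.trace_X (X : Matrix (Fin T.N) (Fin T.N) ℂ) : X.trace = (h.Xh X).trace + (h.X0 X).trace := by
  have h1 : (X - h.Xh X).trace = (h.X0 X).trace := by
    rw [← h.co_trace, ← h.co_trace (h.X0 X)]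
    refine Finset.sum_congr rfl fun k _ => ?_
    rw [Matrix.diag_apply, Matrix.diag_apply, h.co_Xp_diag, h.co_X0, if_pos rfl]
  rw [← h1, Matrix.trace_sub]
  ring

section proj

variable {p : ℤ} {π : Matrix (Fin T.N) (Fin T.N) ℂ} (hπ : IsLowProj T p π)

include hπ in
theorem HCoord.co_proj (k l : Fin T.N) : h.co π k l = if k = l ∧ h.t l < p then 1 else 0 := h.proj_entry hπ k l

include hπ in
theorem HCoord.co_proj_mul (Z : Matrix (Fin T.N) (Fin T.N) ℂ) (k l : Fin T.N) :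
    h.co (π * Z) k l = if h.t k < p then h.co Z k l else 0 := by
  rw [h.co_mul, Matrix.mul_apply, Finset.sum_eq_single k]
  · rw [h.co_proj hπ]
    by_cases hk : h.t k < p <;> simp [hk]
  · intro b _ hb
    rw [h.co_proj hπ, if_neg fun h1 => hb h1.1.symm, zero_mul]
  · intro hk
    exact absurd (Finset.mem_univ k) hk

include hπ in
theorem HCoord.co_mul_proj (Z : Matrix (Fin T.N) (Fin T.N) ℂ) (k l : Fin T.N) :
    h.co (Z * π) k l = if h.t l < p then h.co Z k l else 0 := by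
  rw [h.co_mul, Matrix.mul_apply, Finset.sum_eq_single l]
  · rw [h.co_proj hπ]
    by_cases hk : h.t l < p <;> simp [hk]
  · intro b _ hb
    rw [h.co_proj hπ, if_neg fun h1 => hb h1.1, mul_zero]
  · intro hk
    exact absurd (Finset.mem_univ l) hk

include hπ in
/-- (c) -/
theorem HCoord.proj_Xp (X : Matrix (Fin T.N) (Fin T.N) ℂ) :
    π * (X - h.Xh X) = π * (X - h.Xh X) * π := by
  refine h.co_inj ?_
  ext k l
  rw [h.co_mul_proj hπ, h.co_proj_mul hπ]
  by_cases hk : h.t k < p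
  · by_cases hl : h.t l < p
    · rw [if_pos hk, if_pos hl]
    · rw [if_pos hk, if_neg hl]
      exact h.co_Xp_low X k l (by omega)
  · rw [if_neg hk]
    by_cases hl : h.t l < p
    · rw [if_pos hl]
    · rw [if_neg hl]

include hπ in
theorem HCoord.trace_proj (X : Matrix (Fin T.N) (Fin T.N) ℂ) :
    (π * (X - h.Xh X)).trace = (π * h.X0 X).trace := by
  rw [← h.co_trace, ← h.co_trace (π * h.X0 X)]
  refine Finset.sum_congr rfl fun k _ => ?_
  rw [Matrix.diag_apply, Matrix.diag_apply, h.co_proj_mul hπ, h.co_proj_mul hπ, h.co_Xp_diag, h.co_X0, if_pos rfl]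

include h hπ in
/-- (b) -/
theorem HCoord.quot_proj {n : ℕ} {Q : Matrix (Fin n) (Fin T.N) ℚ} (hQ : LinearMap.ker Q.mulVecLin = T.fil p) :
    rc Q * T.P * π = rc Q * T.P := by
  have h1 : rc Q * T.P * π * (h.V : Matrix (Fin T.N) (Fin T.N) ℂ) = rc Q * T.P * (h.V : Matrix (Fin T.N) (Fin T.N) ℂ) := by
    ext a l
    have e1 : (rc Q * T.P * π * (h.V : Matrix (Fin T.N) (Fin T.N) ℂ)) a l =
        (rc Q * T.P).mulVec (π.mulVec (h.v l)) a := by
      rw [← h.V_single l, Matrix.mulVec_mulVec, Matrix.mulVec_mulVec, Matrix.mulVec_single_one]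
      simp only [Matrix.mul_assoc]
      rfl
    have e2 : (rc Q * T.P * (h.V : Matrix (Fin T.N) (Fin T.N) ℂ)) a l = (rc Q * T.P).mulVec (h.v l) a := by
      rw [← h.V_single l, Matrix.mulVec_mulVec, Matrix.mulVec_single_one]
      rfl
    rw [e1, e2]
    by_cases hl : h.t l < p
    · rw [hπ.1 _ hl _ (h.v_mem l)]
    · rw [hπ.2 _ (not_lt.1 hl) _ (h.v_mem l), Matrix.mulVec_zero]
      have h3 : T.P.mulVec (h.v l) ∈ Submodule.span ℂ ((fun x j => algebraMap ℚ ℂ (x j)) ''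
          (T.fil p : Set (Fin T.N → ℚ))) := by
        rw [← T.comp]
        exact ⟨h.v l, Submodule.mem_iSup_of_mem (h.t l) (Submodule.mem_iSup_of_mem (not_lt.1 hl) (h.v_mem l)), rfl⟩
      have h4 : Submodule.span ℂ ((fun x j => algebraMap ℚ ℂ (x j)) ''
          (T.fil p : Set (Fin T.N → ℚ))) ≤ LinearMap.ker (rc Q).mulVecLin := by
        rw [Submodule.span_le]
        rintro _ ⟨y, hy, rfl⟩
        have h5 : Q.mulVec y = 0 := by
          rw [← hQ] at hy
          exact hy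
        show (rc Q).mulVec (fun j => algebraMap ℚ ℂ (y j)) = 0
        ext i
        have h6 := congrArg (algebraMap ℚ ℂ) (congrFun h5 i)
        simp only [Matrix.mulVec, dotProduct, map_sum, map_mul, Pi.zero_apply, map_zero] at h6
        simpa [Matrix.mulVec, dotProduct] using h6
      have h7 : (rc Q * T.P).mulVec (h.v l) = 0 := by
        rw [← Matrix.mulVec_mulVec]
        exact h4 h3
      rw [h7]
  calc rc Q * T.P * π = rc Q * T.P * π * (h.V : Matrix (Fin T.N) (Fin T.N) ℂ) *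
        (((h.V)⁻¹ : GL (Fin T.N) ℂ) : Matrix (Fin T.N) (Fin T.N) ℂ) := by
        rw [Matrix.mul_assoc _ (h.V : Matrix (Fin T.N) (Fin T.N) ℂ), Units.mul_inv, Matrix.mul_one]
    _ = _ := by
        rw [h1, Matrix.mul_assoc _ (h.V : Matrix (Fin T.N) (Fin T.N) ℂ), Units.mul_inv, Matrix.mul_one]

omit h in
/-- (a) -/
theorem proj_quot {P' : Matrix (Fin T.N) (Fin T.N) ℂ} (hP' : P' * T.P = 1) (hπ : IsLowProj T p π) {n : ℕ}
    {Q : Matrix (Fin n) (Fin T.N) ℚ} (hQ : LinearMap.ker Q.mulVecLin = T.fil p)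
    {R : Matrix (Fin T.N) (Fin n) ℚ} (hR : Q * R = 1) : π * P' * rc R * rc Q = π * P' := by
  set Z : Matrix (Fin T.N) (Fin T.N) ℚ := 1 - R * Q with hZ
  have h1 : π * P' * rc Z = 0 := by
    ext a l
    have h2 : (fun j => Z j l) ∈ T.fil p := by
      rw [← hQ, LinearMap.mem_ker]
      have e1 : Q.mulVecLin (fun j => Z j l) = (Q * Z).mulVec (Pi.single l 1) := by
        rw [← Matrix.mulVec_mulVec, Matrix.mulVec_single_one]
        rfl
      rw [e1, hZ, Matrix.mul_sub, Matrix.mul_one, ← Matrix.mul_assoc, hR, Matrix.one_mul, sub_self, Matrix.zero_mulVec]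
    have h3 : (fun j => algebraMap ℚ ℂ (Z j l)) ∈ (⨆ q, ⨆ (_ : p ≤ q), T.H q).map T.P.mulVecLin := by
      rw [T.comp]
      exact Submodule.subset_span ⟨_, h2, rfl⟩
    obtain ⟨y, hy, hy'⟩ := h3
    have h4 : (⨆ q, ⨆ (_ : p ≤ q), T.H q) ≤ LinearMap.ker π.mulVecLin := by
      refine iSup_le fun q => iSup_le fun hq x hx => ?_
      exact hπ.2 q hq x hx
    have h5 : π.mulVec y = 0 := h4 hy
    have h6 : (π * P' * rc Z) a l = (π * P').mulVec (fun j => algebraMap ℚ ℂ (Z j l)) a := rfl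
    rw [h6, ← hy', Matrix.mulVecLin_apply, Matrix.mulVec_mulVec, Matrix.mul_assoc, hP', Matrix.mul_one, h5]
    rfl
  rw [hZ, rc_sub, rc_one, rc_mul, mul_sub, Matrix.mul_one, sub_eq_zero, ← Matrix.mul_assoc] at h1
  exact h1.symm

end proj

/-! ### eigenspaces -/

theorem exists_coords' {N n l : ℕ} {B : Matrix (Fin N) (Fin n) ℚ} {X : Matrix (Fin N) (Fin l) ℚ}
    (h : ∀ x, X.mulVec x ∈ LinearMap.range B.mulVecLin) : ∃ C : Matrix (Fin n) (Fin l) ℚ, B * C = X := by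
  choose c hc using fun j => h (Pi.single j 1)
  refine ⟨Matrix.of fun i j => c j i, ?_⟩
  ext i j
  have h1 := congrFun (hc j) i
  have h2 : X.mulVec (Pi.single j 1) i = X i j := by simp
  rw [← h2, ← h1]
  rfl

theorem inj_cancel' {N n l : ℕ} {B : Matrix (Fin N) (Fin n) ℚ} (hB : Function.Injective B.mulVec)
    {X Y : Matrix (Fin n) (Fin l) ℚ} (h : B * X = B * Y) : X = Y := by
  ext i j
  have h1 : B.mulVec (X.mulVec (Pi.single j 1)) = B.mulVec (Y.mulVec (Pi.single j 1)) := by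
    rw [Matrix.mulVec_mulVec, Matrix.mulVec_mulVec, h]
  have h2 := congrFun (hB h1) i
  simpa using h2

theorem exists_right_inv' {N n : ℕ} {Q : Matrix (Fin n) (Fin N) ℚ} (h : Function.Surjective Q.mulVec) :
    ∃ R : Matrix (Fin N) (Fin n) ℚ, Q * R = 1 := by
  refine exists_coords' (B := Q) (X := (1 : Matrix (Fin n) (Fin n) ℚ)) fun x => ?_
  obtain ⟨y, hy⟩ := h x
  exact ⟨y, by rw [Matrix.mulVecLin_apply, hy, Matrix.one_mulVec]⟩

/-- the projection to the eigenspace `T^s` -/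
def eproj (T : PMot ℚ ℂ) (s : ℤˣ) : Matrix (Fin T.N) (Fin T.N) ℚ :=
  (1 / 2 : ℚ) • (1 + ((s : ℤ) : ℚ) • T.F)

theorem ssq (s : ℤˣ) : ((s : ℤ) : ℚ) * ((s : ℤ) : ℚ) = 1 := by
  rcases Int.units_eq_one_or s with rfl | rfl <;> simp

theorem mem_eig_iff (s : ℤˣ) (x : Fin T.N → ℚ) : x ∈ T.eig s ↔ T.F.mulVec x = ((s : ℤ) : ℚ) • x := by
  unfold PMot.eig
  rw [LinearMap.mem_ker, Matrix.mulVecLin_apply, Matrix.sub_mulVec, Matrix.smul_mulVec, Matrix.one_mulVec,
    sub_eq_zero]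

theorem eig_coords {n : ℕ} (s : ℤˣ) {B : Matrix (Fin T.N) (Fin n) ℚ}
    (hB : Function.Injective B.mulVec) (hB' : LinearMap.range B.mulVecLin = T.eig s) :
    ∃ C : Matrix (Fin n) (Fin T.N) ℚ, C * B = 1 ∧ B * C = eproj T s := by
  have h1 : ∀ x ∈ LinearMap.range B.mulVecLin, T.F.mulVec x = ((s : ℤ) : ℚ) • x := fun x hx => by
    rwa [hB', mem_eig_iff] at hx
  have hFB : T.F * B = ((s : ℤ) : ℚ) • B := by
    ext i j
    have h1 := congrFun (h1 (B.mulVec (Pi.single j 1)) ⟨_, rfl⟩) i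
    rw [Matrix.mulVec_mulVec] at h1
    simpa using h1
  have hX : T.F * eproj T s = ((s : ℤ) : ℚ) • eproj T s := by
    unfold eproj
    rw [Matrix.mul_smul, Matrix.mul_add, Matrix.mul_one, Matrix.mul_smul, T.F_sq, smul_comm ((s : ℤ) : ℚ),
      smul_add ((s : ℤ) : ℚ), smul_smul ((s : ℤ) : ℚ) ((s : ℤ) : ℚ) T.F, ssq, one_smul, add_comm]
  obtain ⟨C, hC⟩ := exists_coords' (B := B) (X := eproj T s) fun x => by
    rw [hB', mem_eig_iff, Matrix.mulVec_mulVec, hX, Matrix.smul_mulVec]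
  refine ⟨C, inj_cancel' hB ?_, hC⟩
  rw [← Matrix.mul_assoc, hC, eproj, Matrix.smul_mul, Matrix.add_mul, Matrix.one_mul, Matrix.smul_mul, hFB,
    Matrix.mul_one, smul_smul ((s : ℤ) : ℚ), ssq, one_smul, ← two_smul ℚ B, smul_smul]
  norm_num

theorem eproj_comm (s : ℤˣ) {X : Matrix (Fin T.N) (Fin T.N) ℂ} (hX : X * rc T.F = rc T.F * X) :
    X * rc (eproj T s) = rc (eproj T s) * X := by
  have h1 : rc (eproj T s) = (1 / 2 : ℂ) • (1 + ((s : ℤ) : ℂ) • rc T.F) := by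
    unfold eproj
    ext i j
    by_cases hij : i = j
    · subst hij
      simp
      ring
    · simp [hij]
  rw [h1, Matrix.mul_smul, Matrix.smul_mul, mul_add, add_mul, Matrix.mul_one, Matrix.one_mul, Matrix.mul_smul,
    Matrix.smul_mul, hX]

/-! ### the logarithmic derivative -/

theorem LD_det {φ : ℂ →ₐ[ℚ] DualNumber ℂ} {n : ℕ} {M Y Y' : Matrix (Fin n) (Fin n) ℂ}
    (hM : M.map φ = oe Y * il M * oe Y') : LD φ M.det (Y.trace + Y'.trace) := by
  unfold LD
  have h1 : φ M.det = (M.map φ).det := by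
    rw [← AlgHom.coe_toRingHom φ, RingHom.map_det]
    rfl
  rw [h1, hM, det_mul, det_mul, oe_det, oe_det, il_det]
  simp only [TrivSqZeroExt.snd_mul, TrivSqZeroExt.snd_add, TrivSqZeroExt.fst_mul, TrivSqZeroExt.fst_add,
    TrivSqZeroExt.fst_one, TrivSqZeroExt.snd_one, TrivSqZeroExt.fst_inl, TrivSqZeroExt.snd_inl, DualNumber.fst_eps,
    DualNumber.snd_eps, smul_eq_mul, MulOpposite.smul_eq_mul_unop, MulOpposite.unop_op]
  ring

theorem map_rc {φ : ℂ →ₐ[ℚ] DualNumber ℂ} {m n : Type} (X : Matrix m n ℚ) : (rc X).map φ = il (rc X) := by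
  refine Matrix.ext fun i j => ?_
  show φ (algebraMap ℚ ℂ (X i j)) = algebraMap ℂ (DualNumber ℂ) (algebraMap ℚ ℂ (X i j))
  rw [AlgHom.commutes, ← IsScalarTower.algebraMap_apply]

include h in
theorem HCoord.proj_idem {p : ℤ} {π : Matrix (Fin T.N) (Fin T.N) ℂ} (hπ : IsLowProj T p π) : π * π = π := by
  refine h.co_inj ?_
  ext k l
  rw [h.co_proj_mul hπ, h.co_proj hπ]
  by_cases hk : h.t k < p
  · rw [if_pos hk]
  · rw [if_neg hk]
    by_cases hkl : k = l ∧ h.t l < p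
    · exact absurd (hkl.1 ▸ hkl.2) hk
    · rw [if_neg hkl]

/-- the derivative of a period -/
theorem LD_period {φ : ℂ →ₐ[ℚ] DualNumber ℂ} {X : Matrix (Fin T.N) (Fin T.N) ℂ}
    (hX : T.P.map φ = il T.P * oe X) {s : ℤˣ} {p : ℤ} {c : ℂ} (hc : IsStepPeriod T s p c)
    {π : Matrix (Fin T.N) (Fin T.N) ℂ} (hπ : IsLowProj T p π) :
    LD φ c ((π * h.X0 X).trace + (h.Xh X * rc (eproj T s)).trace) := by
  obtain ⟨n, B, Q, hB, hB', hQ, hQ', rfl⟩ := hc
  obtain ⟨C, hCB, hBC⟩ := eig_coords s hB hB'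
  obtain ⟨R, hR⟩ := exists_right_inv' hQ
  obtain ⟨P', hP'⟩ : ∃ P', P' * T.P = 1 := ⟨_, T.P_unit.val_inv_mul⟩
  have hP'' : T.P * P' = 1 := mul_eq_one_comm.1 hP'
  set Xh := h.Xh X with hXh
  set Xp := X - Xh with hXp
  have hb := h.quot_proj hπ hQ'
  have ha := proj_quot hP' hπ hQ' hR
  have hcc : π * Xp = π * Xp * π := h.proj_Xp hπ X
  set Yh := rc C * Xh * rc B with hYh
  set Yp := rc Q * T.P * Xp * P' * rc R with hYp
  have e1 : rc B * Yh = Xh * rc B := by
    rw [hYh, ← Matrix.mul_assoc, ← Matrix.mul_assoc, ← rc_mul, hBC, ← eproj_comm s (h.Xh_comm X), Matrix.mul_assoc,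
      ← rc_mul, ← hBC, Matrix.mul_assoc, hCB, Matrix.mul_one]
  have e2 : Yp * (rc Q * T.P) = rc Q * T.P * Xp := by
    have f1 : rc Q * T.P * Xp = rc Q * T.P * (π * Xp * π) := by
      rw [← hcc, ← Matrix.mul_assoc, hb]
    have f3 : rc Q * T.P * Xp * π = rc Q * T.P * Xp := by
      rw [f1, Matrix.mul_assoc _ _ π, Matrix.mul_assoc _ π π, h.proj_idem hπ]
    have f2 : Yp = rc Q * T.P * Xp * (π * P' * rc R) := by
      rw [hYp, ← Matrix.mul_assoc, ← Matrix.mul_assoc, f3]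
    rw [f2, Matrix.mul_assoc, ← Matrix.mul_assoc (π * P' * rc R), ha, Matrix.mul_assoc π, hP', Matrix.mul_one, f3]
  have e3 : rc Q * T.P * X * rc B = Yp * (rc Q * T.P * rc B) + rc Q * T.P * rc B * Yh := by
    rw [← Matrix.mul_assoc Yp, e2, Matrix.mul_assoc (rc Q * T.P) (rc B) Yh, e1]
    have : X = Xp + Xh := by rw [hXp]; abel
    nth_rewrite 1 [this]
    rw [Matrix.mul_add, Matrix.add_mul]
    simp only [Matrix.mul_assoc]
  have hM : (rc Q * T.P * rc B).map φ = oe Yp * il (rc Q * T.P * rc B) * oe Yh := by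
    have g1 : (rc Q * T.P * rc B).map φ = il (rc Q) * (il T.P * oe X) * il (rc B) := by
      rw [Matrix.map_mul, Matrix.map_mul, map_rc, map_rc, hX]
    rw [g1]
    unfold oe
    have g2 : il (rc Q) * (il T.P * (1 + (DualNumber.eps : DualNumber ℂ) • il X)) * il (rc B) =
        il (rc Q * T.P * rc B) + (DualNumber.eps : DualNumber ℂ) • il (rc Q * T.P * X * rc B) := by
      rw [Matrix.mul_add, Matrix.mul_add, Matrix.add_mul, Matrix.mul_one, Matrix.mul_smul, Matrix.mul_smul,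
        Matrix.smul_mul]
      simp only [il_mul, Matrix.mul_assoc]
    rw [g2, e3, il_add, il_mul Yp, il_mul (rc Q * T.P * rc B) Yh]
    set W := il (rc Q * T.P * rc B)
    rw [add_mul, Matrix.one_mul, mul_add, Matrix.mul_one, Matrix.smul_mul, Matrix.mul_smul, add_mul, Matrix.smul_mul,
      smul_add, smul_add, smul_smul, DualNumber.eps_mul_eps, zero_smul, add_zero, ← add_assoc]
  have h5 := LD_det hM
  have t1 : Yh.trace = (Xh * rc (eproj T s)).trace := by
    rw [hYh, Matrix.trace_mul_comm, ← Matrix.mul_assoc, ← rc_mul, hBC, Matrix.trace_mul_comm]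
  have t2 : Yp.trace = (π * h.X0 X).trace := by
    rw [← h.trace_proj hπ X, hYp, Matrix.trace_mul_comm]
    set E := P' * rc R * rc Q * T.P with hE
    have u1 : π * E = π := by
      rw [hE, ← Matrix.mul_assoc, ← Matrix.mul_assoc, ← Matrix.mul_assoc, ha, Matrix.mul_assoc, hP', Matrix.mul_one]
    have u2 : E * π = E := by
      rw [hE, Matrix.mul_assoc (P' * rc R), Matrix.mul_assoc (P' * rc R), hb]
    have u3 : (rc R * (rc Q * T.P * Xp * P')).trace = (E * Xp).trace := by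
      rw [Matrix.trace_mul_comm, Matrix.mul_assoc, Matrix.trace_mul_comm, hE]
      simp only [Matrix.mul_assoc]
    have g1 : π * π = π := h.proj_idem hπ
    rw [u3]
    calc (E * Xp).trace = (E * (π * Xp)).trace := by rw [← Matrix.mul_assoc, u2]
      _ = (E * (π * Xp) * π).trace := by
        nth_rewrite 1 [hcc]
        rw [Matrix.mul_assoc E]
      _ = (π * E * (π * Xp)).trace := by rw [Matrix.trace_mul_comm, ← Matrix.mul_assoc]
      _ = (π * Xp).trace := by rw [u1, ← Matrix.mul_assoc, g1]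
  rw [t1, t2] at h5
  exact h5

end Pool.Agent.H97.MR
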