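import Pool.Agent.H97.MR.Exp

set_option autoImplicit false
set_option linter.unusedSectionVars false

/-!
# Exponentials of elements of the Lie algebra of a closed subgroup
-/

namespace Pool.Agent.H97.MR

open Matrix NormedSpace

section

variable {ι : Type} {N : ι → ℕ}

open scoped Matrix.Norms.Operator in
theorem exp_mul_neg {n : ℕ} (X : Matrix (Fin n) (Fin n) ℂ) : exp X * exp (-X) = 1 := by
  rw [← exp_add_of_commute X (-X) (Commute.neg_right (Commute.refl X)), add_neg_cancel, exp_zero]

/-- the one-parameter subgroup `t ↦ exp (t X)` -/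
noncomputable def gam (X : Mats N) (t : ℂ) : GLs N ℂ := fun i =>
  { val := exp (t • X i)
    inv := exp (-(t • X i))
    val_inv := exp_mul_neg _
    inv_val := mul_eq_one_comm.1 (exp_mul_neg _) }

theorem gam_zero (X : Mats N) : gam X 0 = 1 := by
  funext i
  apply Units.ext
  show exp ((0 : ℂ) • X i) = 1
  rw [zero_smul, exp_zero]

open scoped Matrix.Norms.Operator in
theorem hasDeriv_entry {n : ℕ} (X : Matrix (Fin n) (Fin n) ℂ) (a b : Fin n) (t : ℂ) :
    HasDerivAt (fun t : ℂ => exp (t • X) a b) ((exp (t • X) * X) a b) t := by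
  have h1 : HasDerivAt (fun t : ℂ => exp (t • X)) (exp (t • X) * X) t := hasDerivAt_exp_smul_const X t
  let L : Matrix (Fin n) (Fin n) ℂ →L[ℂ] ℂ := LinearMap.toContinuousLinearMap
    { toFun := fun M => M a b, map_add' := fun _ _ => rfl, map_smul' := fun _ _ => rfl }
  exact L.hasFDerivAt.comp_hasDerivAt t h1

open scoped Matrix.Norms.Operator in
theorem hasDeriv_entry' {n : ℕ} (X : Matrix (Fin n) (Fin n) ℂ) (a b : Fin n) (t : ℂ) :
    HasDerivAt (fun t : ℂ => exp (-(t • X)) a b) (-(X * exp (-(t • X))) a b) t := by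
  have h1 : HasDerivAt (fun t : ℂ => exp (t • (-X))) (-X * exp (t • (-X))) t := hasDerivAt_exp_smul_const' (-X) t
  let L : Matrix (Fin n) (Fin n) ℂ →L[ℂ] ℂ := LinearMap.toContinuousLinearMap
    { toFun := fun M => M a b, map_add' := fun _ _ => rfl, map_smul' := fun _ _ => rfl }
  have h2 := L.hasFDerivAt.comp_hasDerivAt t h1
  simp only [smul_neg] at h2
  have h3 : L (-X * exp (-(t • X))) = -(X * exp (-(t • X))) a b := by
    show (-X * exp (-(t • X))) a b = _
    rw [Matrix.neg_mul]
    rfl
  exact h2.congr_deriv h3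

/-- the derivative of a regular function along `g exp (t X)` -/
theorem hasDeriv_value (X : Mats N) (g : GLs N ℂ) (f : MvPolynomial (Co N) ℂ) (t : ℂ) :
    HasDerivAt (fun t => value f (g * gam X t)) (value (dX X f) (g * gam X t)) t := by
  induction f using MvPolynomial.induction_on with
  | C a =>
    have e2 : ∀ g : GLs N ℂ, value (MvPolynomial.C a : MvPolynomial (Co N) ℂ) g = a := fun g => MvPolynomial.aeval_C _ _
    have e3 : dX X (MvPolynomial.C a : MvPolynomial (Co N) ℂ) = 0 := (dX X).map_algebraMap a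
    have e4 : ∀ g : GLs N ℂ, value (0 : MvPolynomial (Co N) ℂ) g = 0 := fun g => map_zero _
    rw [e3, e4]
    simp only [e2]
    exact hasDerivAt_const t a
  | add p q hp hq =>
    have e1 : ∀ g : GLs N ℂ, value (p + q) g = value p g + value q g := fun g => map_add _ _ _
    have e2 : ∀ g : GLs N ℂ, value (dX X (p + q)) g = value (dX X p) g + value (dX X q) g := fun g => by
      rw [map_add]
      exact map_add _ _ _
    rw [e2]
    simp only [e1]
    exact hp.add hq
  | mul_X p n hp =>
    have e1 : ∀ g : GLs N ℂ, value (p * MvPolynomial.X n) g = value p g * coords g n := by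
      intro g
      unfold value
      rw [map_mul, MvPolynomial.aeval_X]
    have e2 : ∀ g : GLs N ℂ, value (dX X (p * MvPolynomial.X n)) g =
        value (dX X p) g * coords g n + value p g * value (dX X (MvPolynomial.X n)) g := by
      intro g
      unfold value
      rw [Derivation.leibniz, map_add, smul_eq_mul, smul_eq_mul, map_mul, map_mul, MvPolynomial.aeval_X]
      ring
    have h3 : HasDerivAt (fun t => coords (g * gam X t) n) (value (dX X (MvPolynomial.X n)) (g * gam X t)) t := by
      rcases n with ⟨i, a, b⟩ | ⟨i, a, b⟩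
      · rw [value_dX_inl]
        have e3 : (fun t => coords (g * gam X t) (Sum.inl ⟨i, a, b⟩)) = fun t =>
            ∑ c, (g i : Matrix (Fin (N i)) (Fin (N i)) ℂ) a c * exp (t • X i) c b := by
          funext t
          exact Matrix.mul_apply
        have e4 : (((g * gam X t) i : GL (Fin (N i)) ℂ) : Matrix (Fin (N i)) (Fin (N i)) ℂ) *
            (X i).map (algebraMap ℂ ℂ) = (g i : Matrix (Fin (N i)) (Fin (N i)) ℂ) * (exp (t • X i) * X i) := by
          rw [← Matrix.mul_assoc]
          rfl
        rw [e3, e4, Matrix.mul_apply]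
        exact HasDerivAt.fun_sum fun c _ => (hasDeriv_entry (X i) c b t).const_mul _
      · rw [value_dX_inr]
        have e5 : ∀ t, (((g * gam X t) i)⁻¹ : GL (Fin (N i)) ℂ) = (gam X t i)⁻¹ * (g i)⁻¹ := fun t =>
          _root_.mul_inv_rev _ _
        have e3 : (fun t => coords (g * gam X t) (Sum.inr ⟨i, a, b⟩)) = fun t =>
            ∑ c, exp (-(t • X i)) a c * (((g i)⁻¹ : GL (Fin (N i)) ℂ) : Matrix (Fin (N i)) (Fin (N i)) ℂ) c b := by
          funext t
          show (((((g * gam X t) i)⁻¹ : GL (Fin (N i)) ℂ)) : Matrix (Fin (N i)) (Fin (N i)) ℂ) a b = _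
          rw [e5]
          exact Matrix.mul_apply
        have e4 : (X i).map (algebraMap ℂ ℂ) *
            ((((g * gam X t) i)⁻¹ : GL (Fin (N i)) ℂ) : Matrix (Fin (N i)) (Fin (N i)) ℂ) =
            (X i * exp (-(t • X i))) * (((g i)⁻¹ : GL (Fin (N i)) ℂ) : Matrix (Fin (N i)) (Fin (N i)) ℂ) := by
          rw [e5, Matrix.mul_assoc]
          rfl
        rw [e3, e4, Matrix.mul_apply, ← Finset.sum_neg_distrib]
        refine HasDerivAt.fun_sum fun c _ => ?_
        have := (hasDeriv_entry' (X i) a c t).mul_const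
          ((((g i)⁻¹ : GL (Fin (N i)) ℂ) : Matrix (Fin (N i)) (Fin (N i)) ℂ) c b)
        rwa [neg_mul] at this
    rw [e2]
    simp only [e1]
    exact hp.mul h3

theorem iter_zero {F : ℕ → ℂ → ℂ} (h : ∀ n t, HasDerivAt (F n) (F (n + 1) t) t) (h0 : ∀ n, F n 0 = 0) (t : ℂ) :
    F 0 t = 0 := by
  have h1 : ∀ n m, iteratedDeriv n (F m) = F (m + n) := by
    intro n
    induction n with
    | zero =>
      intro m
      rw [iteratedDeriv_zero, add_zero]
    | succ n ih =>
      intro m
      rw [iteratedDeriv_succ', show deriv (F m) = F (m + 1) from funext fun t => (h m t).deriv, ih]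
      congr 1
      ring
  have h2 : Differentiable ℂ (F 0) := fun t => (h 0 t).differentiableAt
  have h3 := Complex.taylorSeries_eq_of_entire' (c := 0) (z := t) h2
  rw [← h3]
  have h4 : ∀ n : ℕ, (↑n.factorial)⁻¹ * iteratedDeriv n (F 0) 0 * (t - 0) ^ n = 0 := by
    intro n
    rw [h1, zero_add, h0, mul_zero, zero_mul]
  simp only [h4, tsum_zero]

/-- regular functions that vanish on `G` vanish on the one-parameter subgroups of the elements of the Lie algebra -/
theorem Van.gam {G : SubgroupFunctor N} {X : Mats N} (hX : X ∈ G.lie) {f : MvPolynomial (Co N) ℂ} (hf : Van G f)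
    (t : ℂ) : value f (gam X t) = 0 := by
  let D : ℕ → MvPolynomial (Co N) ℂ := fun n => (Pool.Agent.H97.MR.dX X)^[n] f
  have hD : ∀ n, Van G (D n) := by
    intro n
    induction n with
    | zero => exact hf
    | succ n ih =>
      show Van G ((Pool.Agent.H97.MR.dX X)^[n + 1] f)
      rw [Function.iterate_succ_apply']
      exact ih.dX hX
  have h1 := iter_zero (F := fun n t => value (D n) (Pool.Agent.H97.MR.gam X t)) (fun n t => ?_) (fun n => ?_) t
  · exact h1
  · have h2 := hasDeriv_value X 1 (D n) t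
    simp only [one_mul] at h2
    have h3 : D (n + 1) = Pool.Agent.H97.MR.dX X (D n) := Function.iterate_succ_apply' _ _ _
    show HasDerivAt (fun t => value (D n) (Pool.Agent.H97.MR.gam X t)) (value (D (n + 1)) _) t
    rw [h3]
    exact h2
  · show value (D n) (Pool.Agent.H97.MR.gam X 0) = 0
    rw [gam_zero]
    exact hD n ℂ _ (one_mem _)

/-- the exponentials of the elements of the Lie algebra of a closed subgroup are in the subgroup -/
theorem gam_mem {G : SubgroupFunctor N} (hG : IsClosedQ (N := N) fun A _ _ => (G.pts A : Set (GLs N A))) {X : Mats N}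
    (hX : X ∈ G.lie) (t : ℂ) : gam X t ∈ G.pts ℂ := by
  obtain ⟨J, hJ⟩ := hG
  have h1 := hJ ℂ (gam X t)
  refine h1.2 fun f hf => ?_
  have h2 : ∀ (A : Type) [CommRing A] [Algebra ℂ A] [Algebra ℚ A] (g : GLs N A),
      value (MvPolynomial.map (algebraMap ℚ ℂ) f) g = value f g := by
    intro A _ _ _ g
    unfold value
    have : IsScalarTower ℚ ℂ A := IsScalarTower.of_algebraMap_eq' (Subsingleton.elim _ _)
    exact MvPolynomial.aeval_map_algebraMap _ _ _
  have h3 : Van G (MvPolynomial.map (algebraMap ℚ ℂ) f) := by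
    intro A _ _ _ g hg
    rw [h2]
    exact (hJ A g).1 hg f hf
  rw [← h2]
  exact h3.gam hX t

end

end Pool.Agent.H97.MR
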