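import Pool.Agent.H97.MR.Rat
import Pool.Agent.H97.MR.Nonz
import Pool.Agent.H97.MR.Bracket

set_option autoImplicit false
set_option linter.unusedSectionVars false

/-!
# The rank of the group generated by the periods
-/

namespace Pool.Agent.H97.MR

open Matrix Cardinal Pool.Agent.X33.DP

section descent

/-- a transcendental number is moved by an automorphism -/
theorem exists_shift {x : ℂ} (hx : Transcendental ℚ x) : ∃ σ : ℂ ≃+* ℂ, σ x = x + 1 := by
  have hx' : Transcendental ℚ (x + 1) := by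
    intro h
    refine hx ?_
    have h1 : IsAlgebraic ℚ (x + 1 - 1) := h.sub isAlgebraic_one
    rwa [add_sub_cancel_right] at h1
  let K := FractionRing (Polynomial ℚ)
  have hK : #K ≤ ℵ₀ := by
    rw [Cardinal.mk_fractionRing]
    exact Polynomial.cardinalMk_le_max.trans (by simp)
  have key : ∀ y : ℂ, Transcendental ℚ y → ∃ f : K →+* ℂ, f (algebraMap (Polynomial ℚ) K Polynomial.X) = y := by
    intro y hy
    have h1 : Function.Injective ((Polynomial.aeval y : Polynomial ℚ →ₐ[ℚ] ℂ) : Polynomial ℚ →+* ℂ) :=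
      transcendental_iff_injective.1 hy
    refine ⟨IsFractionRing.lift (K := K) h1, ?_⟩
    rw [IsFractionRing.lift_algebraMap]
    exact Polynomial.aeval_X y
  obtain ⟨f, hf⟩ := key x hx
  obtain ⟨g, hg⟩ := key (x + 1) hx'
  obtain ⟨σ, hσ⟩ := exists_equiv hK f g
  refine ⟨σ, ?_⟩
  rw [← hg, ← hσ, hf]

/-- a number fixed by all automorphisms is rational -/
theorem rational_of_fixed' {x : ℂ} (h : ∀ σ : ℂ ≃+* ℂ, σ x = x) : ∃ q : ℚ, x = q := by
  by_cases hx : IsAlgebraic ℚ x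
  · exact rational_of_fixed hx.isIntegral h
  · exfalso
    obtain ⟨σ, hσ⟩ := exists_shift hx
    rw [h σ] at hσ
    exact one_ne_zero (left_eq_add.1 hσ)

/-- a subspace stable under all automorphisms of `ℂ` contains an integral vector -/
theorem exists_integral {κ : Type} [Fintype κ] (N : Submodule ℂ (κ → ℂ))
    (hN : ∀ σ : ℂ ≃+* ℂ, ∀ v ∈ N, (fun k => σ (v k)) ∈ N) (hne : N ≠ ⊥) :
    ∃ w : κ → ℤ, w ≠ 0 ∧ (fun k => (w k : ℂ)) ∈ N := by
  classical
  let m : (κ → ℂ) → ℕ := fun v => (Finset.univ.filter fun k => v k ≠ 0).card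
  obtain ⟨v₀, hv₀, hv₀'⟩ := Submodule.exists_mem_ne_zero_of_ne_bot hne
  have hex : ∃ n, ∃ v ∈ N, v ≠ 0 ∧ m v = n := ⟨_, v₀, hv₀, hv₀', rfl⟩
  obtain ⟨v, hv, hv', hmv⟩ := Nat.find_spec hex
  have hmin : ∀ u ∈ N, u ≠ 0 → m v ≤ m u := fun u hu hu' => by
    rw [hmv]
    exact Nat.find_min' hex ⟨u, hu, hu', rfl⟩
  obtain ⟨k₀, hk₀⟩ := Function.ne_iff.1 hv'
  have hk₀' : v k₀ ≠ 0 := hk₀
  set u : κ → ℂ := (v k₀)⁻¹ • v with hu
  have huN : u ∈ N := N.smul_mem _ hv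
  have hu1 : u k₀ = 1 := inv_mul_cancel₀ hk₀'
  have hu0 : ∀ k, v k = 0 → u k = 0 := fun k hk => by rw [hu, Pi.smul_apply, hk, smul_zero]
  have hfix : ∀ (σ : ℂ ≃+* ℂ) (k : κ), σ (u k) = u k := by
    intro σ k
    by_contra hne'
    have h1 : (fun k => σ (u k)) - u ∈ N := N.sub_mem (hN σ u huN) huN
    have h2 : (fun k => σ (u k)) - u ≠ 0 := by
      intro h0
      exact hne' (sub_eq_zero.1 (congrFun h0 k))
    have h3 := hmin _ h1 h2
    have h4 : m ((fun k => σ (u k)) - u) < m v := by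
      refine Finset.card_lt_card ⟨fun k hk => ?_, fun hsub => ?_⟩
      · rw [Finset.mem_filter] at hk ⊢
        refine ⟨Finset.mem_univ _, fun h0 => hk.2 ?_⟩
        show σ (u k) - u k = 0
        rw [hu0 k h0, map_zero, sub_zero]
      · have h5 := hsub (Finset.mem_filter.2 ⟨Finset.mem_univ k₀, hk₀'⟩)
        rw [Finset.mem_filter] at h5
        refine h5.2 ?_
        show σ (u k₀) - u k₀ = 0
        rw [hu1, map_one, sub_self]
    exact absurd h3 (not_le.2 h4)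
  choose q hq using fun k => rational_of_fixed' fun σ => hfix σ k
  set D : ℕ := ∏ k, (q k).den with hD
  have hD0 : D ≠ 0 := Finset.prod_ne_zero_iff.2 fun k _ => (q k).den_nz
  have hdiv : ∀ k, (q k).den ∣ D := fun k => Finset.dvd_prod_of_mem _ (Finset.mem_univ k)
  have hw : ∀ k, (((q k).num * ((D / (q k).den : ℕ) : ℤ) : ℤ) : ℂ) = (D : ℂ) * u k := by
    intro k
    obtain ⟨c, hc⟩ := hdiv k
    have hd0 : ((q k).den : ℂ) ≠ 0 := Nat.cast_ne_zero.2 (q k).den_nz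
    have h1 : D / (q k).den = c := by
      rw [hc, Nat.mul_div_cancel_left _ (Nat.pos_of_ne_zero (q k).den_nz)]
    have h2 : ((q k : ℚ) : ℂ) = ((q k).num : ℂ) / ((q k).den : ℂ) := Rat.cast_def (q k)
    rw [h1, hq k, h2, hc]
    push_cast
    field_simp
  refine ⟨fun k => (q k).num * ((D / (q k).den : ℕ) : ℤ), fun h0 => ?_, ?_⟩
  · have h1 := congrFun h0 k₀
    have h2 := hw k₀
    rw [hu1, mul_one] at h2
    have h3 : (((q k₀).num * ((D / (q k₀).den : ℕ) : ℤ) : ℤ) : ℂ) = 0 := by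
      have : (q k₀).num * ((D / (q k₀).den : ℕ) : ℤ) = 0 := h1
      rw [this, Int.cast_zero]
    rw [h3] at h2
    exact hD0 (Nat.cast_eq_zero.1 h2.symm)
  · have h1 : (fun k => (((q k).num * ((D / (q k).den : ℕ) : ℤ) : ℤ) : ℂ)) = (D : ℂ) • u := by
      funext k
      exact hw k
    rw [h1]
    exact N.smul_mem _ huN

end descent

section glue

variable {V : Type} [AddCommGroup V] [Module ℂ V]

/-- linear forms on two subspaces which agree on the intersection are restrictions of a linear form -/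
theorem exists_glue (K L : Submodule ℂ V) (f g : V →ₗ[ℂ] ℂ) (h : ∀ x ∈ K, x ∈ L → f x = g x) :
    ∃ φ : V →ₗ[ℂ] ℂ, (∀ x ∈ K, φ x = f x) ∧ ∀ x ∈ L, φ x = g x := by
  let f' : V →ₗ.[ℂ] ℂ := ⟨K, f ∘ₗ K.subtype⟩
  let g' : V →ₗ.[ℂ] ℂ := ⟨L, g ∘ₗ L.subtype⟩
  have hfg : ∀ (x : f'.domain) (y : g'.domain), (x : V) = y → f' x = g' y := by
    rintro ⟨x, hx⟩ ⟨y, hy⟩ hxy
    have hxy' : x = y := hxy
    subst hxy'
    exact h x hx hy
  let e := f'.sup g' hfg
  obtain ⟨φ, hφ⟩ := LinearMap.exists_extend e.toFun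
  refine ⟨φ, fun x hx => ?_, fun x hx => ?_⟩
  · have h1 := (LinearPMap.left_le_sup f' g' hfg).2 (x := ⟨x, hx⟩) (y := ⟨x, Submodule.mem_sup_left hx⟩) rfl
    have h2 := LinearMap.congr_fun hφ ⟨x, Submodule.mem_sup_left hx⟩
    exact h2.trans h1.symm
  · have h1 := (LinearPMap.right_le_sup f' g' hfg).2 (x := ⟨x, hx⟩) (y := ⟨x, Submodule.mem_sup_right hx⟩) rfl
    have h2 := LinearMap.congr_fun hφ ⟨x, Submodule.mem_sup_right hx⟩
    exact h2.trans h1.symm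

/-- more than `dim A - dim D` linear forms on `A` which vanish on `D` are linearly dependent -/
theorem exists_dep [FiniteDimensional ℂ V] {A D : Submodule ℂ V} (hDA : D ≤ A) {κ : Type} [Fintype κ]
    (φ : κ → V →ₗ[ℂ] ℂ) (hφ : ∀ k, ∀ x ∈ D, φ k x = 0)
    (hcard : Module.finrank ℂ A - Module.finrank ℂ D < Fintype.card κ) :
    ∃ g : κ → ℂ, (∀ x ∈ A, ∑ k, g k * φ k x = 0) ∧ ∃ k, g k ≠ 0 := by
  let D' : Submodule ℂ A := D.comap A.subtype
  have h1 : Module.finrank ℂ D' = Module.finrank ℂ D := (Submodule.comapSubtypeEquivOfLe hDA).finrank_eq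
  have h2 := Subspace.finrank_add_finrank_dualAnnihilator_eq D'
  let c : κ → D'.dualAnnihilator := fun k => ⟨φ k ∘ₗ A.subtype, by
    rw [Submodule.mem_dualAnnihilator]
    intro w hw
    exact hφ k _ hw⟩
  have hli : ¬ LinearIndependent ℂ c := by
    intro hli
    have h3 := hli.fintype_card_le_finrank
    omega
  obtain ⟨g, hg, hne⟩ := Fintype.not_linearIndependent_iff.1 hli
  refine ⟨g, fun x hx => ?_, hne⟩
  have h4 := congrArg (fun z : D'.dualAnnihilator => (z : Module.Dual ℂ A) ⟨x, hx⟩) hg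
  simp only [Submodule.coe_sum, Submodule.coe_smul, LinearMap.sum_apply, LinearMap.smul_apply, Submodule.coe_zero,
    LinearMap.zero_apply, smul_eq_mul] at h4
  exact h4

end glue

section

variable {ι : Type} {T : ι → PMot ℚ ℂ}

/-- the elements of the Lie algebra that preserve the Hodge decompositions -/
def LL (G : SubgroupFunctor (rks T)) : Submodule ℂ (Mats (rks T)) where
  carrier := {X | X ∈ G.lie ∧ ∀ i q, ∀ x ∈ (T i).H q, (X i).mulVec x ∈ (T i).H q}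
  add_mem' := fun {X Y} hX hY => ⟨G.lie.add_mem hX.1 hY.1, fun i q x hx => by
    show (X i + Y i).mulVec x ∈ _
    rw [Matrix.add_mulVec]
    exact Submodule.add_mem _ (hX.2 i q x hx) (hY.2 i q x hx)⟩
  zero_mem' := ⟨G.lie.zero_mem, fun i q x _ => by
    show (0 : Matrix (Fin (T i).N) (Fin (T i).N) ℂ).mulVec x ∈ _
    rw [Matrix.zero_mulVec]
    exact Submodule.zero_mem _⟩
  smul_mem' := fun c X hX => ⟨G.lie.smul_mem c hX.1, fun i q x hx => by
    show (c • X i).mulVec x ∈ _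
    rw [Matrix.smul_mulVec]
    exact Submodule.smul_mem _ _ (hX.2 i q x hx)⟩

/-- the trace on the Betti side -/
noncomputable def kf (s : (ι × ℤˣ) ⊕ ι) : Mats (rks T) →ₗ[ℂ] ℂ :=
  match s with
  | Sum.inl (i, t) => (Matrix.traceLinearMap (Fin (T i).N) ℂ ℂ) ∘ₗ (LinearMap.mulRight ℂ (rc (eproj (T i) t))) ∘ₗ
      (LinearMap.proj i : (∀ i, Matrix (Fin (T i).N) (Fin (T i).N) ℂ) →ₗ[ℂ] _)
  | Sum.inr i => (Matrix.traceLinearMap (Fin (T i).N) ℂ ℂ) ∘ₗ
      (LinearMap.proj i : (∀ i, Matrix (Fin (T i).N) (Fin (T i).N) ℂ) →ₗ[ℂ] _)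

/-- the trace on the side of the Hodge decomposition -/
noncomputable def lf (π : ∀ i, ℤˣ → Matrix (Fin (T i).N) (Fin (T i).N) ℂ) (s : (ι × ℤˣ) ⊕ ι) :
    Mats (rks T) →ₗ[ℂ] ℂ :=
  match s with
  | Sum.inl (i, t) => (Matrix.traceLinearMap (Fin (T i).N) ℂ ℂ) ∘ₗ (LinearMap.mulLeft ℂ (π i t)) ∘ₗ
      (LinearMap.proj i : (∀ i, Matrix (Fin (T i).N) (Fin (T i).N) ℂ) →ₗ[ℂ] _)
  | Sum.inr i => (Matrix.traceLinearMap (Fin (T i).N) ℂ ℂ) ∘ₗ
      (LinearMap.proj i : (∀ i, Matrix (Fin (T i).N) (Fin (T i).N) ℂ) →ₗ[ℂ] _)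

/-- the trace on the de Rham side -/
noncomputable def wf {n : ι → ℤˣ → ℕ} (Q : ∀ i s, Matrix (Fin (n i s)) (Fin (T i).N) ℚ)
    (R : ∀ i s, Matrix (Fin (T i).N) (Fin (n i s)) ℚ) (s : (ι × ℤˣ) ⊕ ι) (Y : Mats (rks T)) : ℂ :=
  match s with
  | Sum.inl (i, t) => (rc (Q i t) * Y i * rc (R i t)).trace
  | Sum.inr i => (Y i).trace

theorem kf_inl (i : ι) (t : ℤˣ) (X : Mats (rks T)) : kf (Sum.inl (i, t)) X = (X i * rc (eproj (T i) t)).trace := rfl

theorem kf_inr (i : ι) (X : Mats (rks T)) : kf (Sum.inr i) X = (X i).trace := rfl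

theorem lf_inl (π : ∀ i, ℤˣ → Matrix (Fin (T i).N) (Fin (T i).N) ℂ) (i : ι) (t : ℤˣ) (X : Mats (rks T)) :
    lf π (Sum.inl (i, t)) X = (π i t * X i).trace := rfl

theorem lf_inr (π : ∀ i, ℤˣ → Matrix (Fin (T i).N) (Fin (T i).N) ℂ) (i : ι) (X : Mats (rks T)) :
    lf π (Sum.inr i) X = (X i).trace := rfl

theorem trace_map' (σ : ℂ →+* ℂ) {n : ℕ} (X : Matrix (Fin n) (Fin n) ℂ) : (X.map σ).trace = σ X.trace := by
  unfold Matrix.trace
  rw [map_sum]
  rfl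

theorem kf_conj (σ : ℂ →+* ℂ) (s : (ι × ℤˣ) ⊕ ι) (X : Mats (rks T)) : kf s (sm σ X) = σ (kf s X) := by
  rcases s with ⟨i, t⟩ | i
  · rw [kf_inl, kf_inl, ← trace_map', Matrix.map_mul, rc_map]
    rfl
  · rw [kf_inr, kf_inr, ← trace_map']
    rfl

theorem wf_conj (σ : ℂ →+* ℂ) {n : ι → ℤˣ → ℕ} (Q : ∀ i s, Matrix (Fin (n i s)) (Fin (T i).N) ℚ)
    (R : ∀ i s, Matrix (Fin (T i).N) (Fin (n i s)) ℚ) (s : (ι × ℤˣ) ⊕ ι) (Y : Mats (rks T)) :
    wf Q R s (sm σ Y) = σ (wf Q R s Y) := by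
  rcases s with ⟨i, t⟩ | i
  · show (rc (Q i t) * sm σ Y i * rc (R i t)).trace = σ (rc (Q i t) * Y i * rc (R i t)).trace
    rw [← trace_map', Matrix.map_mul, Matrix.map_mul, rc_map, rc_map]
    rfl
  · show (sm σ Y i).trace = σ (Y i).trace
    rw [← trace_map']
    rfl

variable {G : SubgroupFunctor (rks T)} {P : TorsorFunctor (rks T)}

theorem pres_of_LL {X : Mats (rks T)} (hX : X ∈ LL G) (i : ι) : PresFil (T i) (adj (comps T) X i) := by
  let H : HCoord (T i) := (exists_hcoord (T i)).some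
  have hup : H.Up (X i) := by
    intro k l hkl
    exact (H.entry (X i) k l).trans (H.repr_zero (hX.2 i _ _ (H.v_mem l)) hkl.ne)
  exact H.pres_of_up (inv_comps_val i) hup

theorem adj_inv (X : Mats (rks T)) (i : ι) :
    (((comps T)⁻¹ i : GL (Fin (T i).N) ℂ) : Matrix (Fin (T i).N) (Fin (T i).N) ℂ) *
        adj (comps T) X i * (T i).P = X i := by
  rw [← adj_inv_comps, adj_mul, inv_mul_cancel, adj_one]

theorem wf_of_lf (h : IsGrp T G P) {p : ι → ℤˣ → ℤ}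
    {π : ∀ i, ℤˣ → Matrix (Fin (T i).N) (Fin (T i).N) ℂ} (hπ : ∀ i s, IsLowProj (T i) (p i s) (π i s))
    {n : ι → ℤˣ → ℕ} {Q : ∀ i s, Matrix (Fin (n i s)) (Fin (T i).N) ℚ}
    (hQ : ∀ i s, LinearMap.ker (Q i s).mulVecLin = (T i).fil (p i s))
    {R : ∀ i s, Matrix (Fin (T i).N) (Fin (n i s)) ℚ} (hR : ∀ i s, Q i s * R i s = 1)
    {X : Mats (rks T)} (hX : X ∈ LL G) : ∃ Y ∈ WW G, ∀ s, wf Q R s Y = lf π s X := by
  refine ⟨adj (comps T) X, ⟨adj_mem_HH h h.comp hX.1, fun i => pres_of_LL hX i⟩, fun s => ?_⟩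
  rcases s with ⟨i, t⟩ | i
  · let H : HCoord (T i) := (exists_hcoord (T i)).some
    show (rc (Q i t) * adj (comps T) X i * rc (R i t)).trace = (π i t * X i).trace
    rw [trace_quot H (hπ i t) (inv_comps_val i) (pres_of_LL hX i) (hQ i t) (hR i t), adj_inv,
      ← H.trace_proj_up (hπ i t)]
  · exact adj_trace (comps T) X i

theorem lf_of_wf (h : IsGrp T G P) {p : ι → ℤˣ → ℤ}
    {π : ∀ i, ℤˣ → Matrix (Fin (T i).N) (Fin (T i).N) ℂ} (hπ : ∀ i s, IsLowProj (T i) (p i s) (π i s))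
    {n : ι → ℤˣ → ℕ} {Q : ∀ i s, Matrix (Fin (n i s)) (Fin (T i).N) ℚ}
    (hQ : ∀ i s, LinearMap.ker (Q i s).mulVecLin = (T i).fil (p i s))
    {R : ∀ i s, Matrix (Fin (T i).N) (Fin (n i s)) ℚ} (hR : ∀ i s, Q i s * R i s = 1)
    [Fintype ι] {Y : Mats (rks T)} (hY : Y ∈ WW G) : ∃ X ∈ LL G, ∀ s, lf π s X = wf Q R s Y := by
  let H : ∀ i, HCoord (T i) := fun i => (exists_hcoord (T i)).some
  set X : Mats (rks T) := adj (comps T)⁻¹ Y with hX
  have hXl : X ∈ G.lie := hY.1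
  have hX0 : (fun i => (H i).X0 (X i) : Mats (rks T)) ∈ G.lie :=
    part_mem G (fun i => (H i).V) (fun i => (H i).t) (cochar h H) _ hXl
  refine ⟨_, ⟨hX0, fun i q x hx => (H i).X0_hodge (X i) q x hx⟩, fun s => ?_⟩
  rcases s with ⟨i, t⟩ | i
  · show (π i t * (H i).X0 (X i)).trace = (rc (Q i t) * Y i * rc (R i t)).trace
    rw [trace_quot (H i) (hπ i t) (inv_comps_val i) (hY.2 i) (hQ i t) (hR i t), hX, adj_inv_comps]
  · show ((H i).X0 (X i)).trace = (Y i).trace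
    rw [← (H i).trace_up, hX, adj_trace]

theorem kf_comm {X Y : Mats (rks T)} (hX : X ∈ VV G) (s : (ι × ℤˣ) ⊕ ι) :
    kf s (X * Y - Y * X) = 0 := by
  rcases s with ⟨i, t⟩ | i
  · show ((X i * Y i - Y i * X i) * rc (eproj (T i) t)).trace = 0
    have h1 : X i * rc (eproj (T i) t) = rc (eproj (T i) t) * X i := eproj_comm t (hX.2 i)
    rw [Matrix.sub_mul, Matrix.trace_sub, Matrix.mul_assoc (Y i), h1, ← Matrix.mul_assoc (Y i),
      Matrix.trace_mul_comm _ (X i), ← Matrix.mul_assoc, sub_self]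
  · show (X i * Y i - Y i * X i).trace = 0
    rw [Matrix.trace_sub, Matrix.trace_mul_comm, sub_self]

theorem proj_comm {p : ℤ} {i : ι} {π : Matrix (Fin (T i).N) (Fin (T i).N) ℂ} (hπ : IsLowProj (T i) p π)
    {X : Mats (rks T)} (hX : X ∈ LL G) : π * X i = X i * π := by
  let H : HCoord (T i) := (exists_hcoord (T i)).some
  refine H.co_inj ?_
  ext k l
  rw [H.co_proj_mul hπ, H.co_mul_proj hπ]
  have h1 : H.t k ≠ H.t l → H.co (X i) k l = 0 := fun hkl =>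
    (H.entry (X i) k l).trans (H.repr_zero (hX.2 i _ _ (H.v_mem l)) hkl)
  by_cases hkl : H.t k = H.t l
  · rw [hkl]
  · rw [h1 hkl, ite_self, ite_self]

theorem lf_comm {p : ι → ℤˣ → ℤ} {π : ∀ i, ℤˣ → Matrix (Fin (T i).N) (Fin (T i).N) ℂ}
    (hπ : ∀ i s, IsLowProj (T i) (p i s) (π i s)) {X Y : Mats (rks T)} (hX : X ∈ LL G) (s : (ι × ℤˣ) ⊕ ι) :
    lf π s (X * Y - Y * X) = 0 := by
  rcases s with ⟨i, t⟩ | i
  · show (π i t * (X i * Y i - Y i * X i)).trace = 0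
    rw [Matrix.mul_sub, Matrix.trace_sub, ← Matrix.mul_assoc, proj_comm (hπ i t) hX, Matrix.mul_assoc,
      Matrix.trace_mul_comm (X i), Matrix.mul_assoc, sub_self]
  · show (X i * Y i - Y i * X i).trace = 0
    rw [Matrix.trace_sub, Matrix.trace_mul_comm, sub_self]

/-- the traces on `T^s` and on `T / F^p` are equal on the intersection -/
theorem kf_eq_lf {p : ι → ℤˣ → ℤ} {π : ∀ i, ℤˣ → Matrix (Fin (T i).N) (Fin (T i).N) ℂ}
    (hπ : ∀ i s, IsLowProj (T i) (p i s) (π i s))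
    {n : ι → ℤˣ → ℕ} {Q : ∀ i s, Matrix (Fin (n i s)) (Fin (T i).N) ℚ}
    {B : ∀ i s, Matrix (Fin (T i).N) (Fin (n i s)) ℚ}
    (hB : ∀ i s, Function.Injective (B i s).mulVec)
    (hB' : ∀ i s, LinearMap.range (B i s).mulVecLin = (T i).eig s)
    (hQ : ∀ i s, LinearMap.ker (Q i s).mulVecLin = (T i).fil (p i s))
    {R : ∀ i s, Matrix (Fin (T i).N) (Fin (n i s)) ℚ} (hR : ∀ i s, Q i s * R i s = 1)
    (hne : ∀ i s, (rc (Q i s) * (T i).P * rc (B i s)).det ≠ 0)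
    {X : Mats (rks T)} (hXV : X ∈ VV G) (hXL : X ∈ LL G) (s : (ι × ℤˣ) ⊕ ι) : kf s X = lf π s X := by
  rcases s with ⟨i, t⟩ | i
  · show (X i * rc (eproj (T i) t)).trace = (π i t * X i).trace
    let H : HCoord (T i) := (exists_hcoord (T i)).some
    obtain ⟨C, hCB, hBC⟩ := eig_coords t (hB i t) (hB' i t)
    obtain ⟨Y, hY⟩ : ∃ Y, Y = adj (comps T) X i := ⟨_, rfl⟩
    have hYP : Y * (T i).P = (T i).P * X i := by
      rw [hY]
      show (T i).P * X i * (((comps T i)⁻¹ : GL (Fin (T i).N) ℂ) : Matrix (Fin (T i).N) (Fin (T i).N) ℂ) *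
        (T i).P = _
      rw [Matrix.mul_assoc]
      have h0 : (((comps T i)⁻¹ : GL (Fin (T i).N) ℂ) : Matrix (Fin (T i).N) (Fin (T i).N) ℂ) * (T i).P = 1 :=
        inv_comps_val i
      rw [h0, Matrix.mul_one]
    have hpres : PresFil (T i) Y := hY ▸ pres_of_LL hXL i
    have e1 : (rc (Q i t) * Y * rc (R i t)).trace = (π i t * X i).trace := by
      rw [trace_quot H (hπ i t) (inv_comps_val i) hpres (hQ i t) (hR i t), hY, adj_inv,
        ← H.trace_proj_up (hπ i t)]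
    have e2 : (rc C * X i * rc (B i t)).trace = (X i * rc (eproj (T i) t)).trace := by
      rw [Matrix.mul_assoc, Matrix.trace_mul_comm, Matrix.mul_assoc, ← rc_mul, hBC]
    rw [← e1, ← e2]
    set A := rc (Q i t) * (T i).P * rc (B i t) with hA
    set x := rc C * X i * rc (B i t) with hx
    set y := rc (Q i t) * Y * rc (R i t) with hy
    have f1 : rc (B i t) * x = X i * rc (B i t) := by
      rw [hx, ← Matrix.mul_assoc, ← Matrix.mul_assoc, ← rc_mul, hBC, ← eproj_comm t (hXV.2 i), Matrix.mul_assoc,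
        ← rc_mul, ← hBC, Matrix.mul_assoc, hCB, Matrix.mul_one]
    have f2 : y * rc (Q i t) = rc (Q i t) * Y := (quot_pres hpres (hQ i t) (hR i t)).symm
    have f3 : A * x = y * A := by
      calc A * x = rc (Q i t) * ((T i).P * (rc (B i t) * x)) := by rw [hA]; simp only [Matrix.mul_assoc]
        _ = rc (Q i t) * (((T i).P * X i) * rc (B i t)) := by rw [f1, Matrix.mul_assoc (T i).P]
        _ = (rc (Q i t) * Y) * (T i).P * rc (B i t) := by rw [← hYP]; simp only [Matrix.mul_assoc]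
        _ = y * A := by rw [← f2, hA]; simp only [Matrix.mul_assoc]
    have hAu : IsUnit A.det := isUnit_iff_ne_zero.2 (hne i t)
    have f4 : x = A⁻¹ * (y * A) := by
      rw [← f3, ← Matrix.mul_assoc, Matrix.nonsing_inv_mul A hAu, Matrix.one_mul]
    rw [f4, Matrix.trace_mul_comm, Matrix.mul_assoc, Matrix.mul_nonsing_inv A hAu, Matrix.mul_one]
  · rfl

theorem sum_symb [Fintype ι] (w : (ι × ℤˣ) ⊕ ι → ℂ) (f : (ι × ℤˣ) ⊕ ι → ℂ) :
    ∑ s, w s * f s = ∑ i, (∑ t, w (Sum.inl (i, t)) * f (Sum.inl (i, t)) + w (Sum.inr i) * f (Sum.inr i)) := by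
  rw [Fintype.sum_sum_type, Fintype.sum_prod_type, ← Finset.sum_add_distrib]

theorem comm_mem_VV (hG : IsClosedQ (N := rks T) fun A _ _ => (G.pts A : Set (GLs (rks T) A)))
    {X Y : Mats (rks T)} (hX : X ∈ VV G) (hY : Y ∈ VV G) : X * Y - Y * X ∈ VV G := by
  refine ⟨lie_comm hG hX.1 hY.1, fun i => ?_⟩
  show (X i * Y i - Y i * X i) * rc (T i).F = rc (T i).F * (X i * Y i - Y i * X i)
  rw [Matrix.sub_mul, Matrix.mul_sub, Matrix.mul_assoc, hY.2, ← Matrix.mul_assoc, hX.2, Matrix.mul_assoc,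
    Matrix.mul_assoc (Y i), hX.2, ← Matrix.mul_assoc (Y i), hY.2, Matrix.mul_assoc (rc (T i).F) (Y i)]

theorem comm_mem_LL (hG : IsClosedQ (N := rks T) fun A _ _ => (G.pts A : Set (GLs (rks T) A)))
    {X Y : Mats (rks T)} (hX : X ∈ LL G) (hY : Y ∈ LL G) : X * Y - Y * X ∈ LL G := by
  refine ⟨lie_comm hG hX.1 hY.1, fun i q x hx => ?_⟩
  show (X i * Y i - Y i * X i).mulVec x ∈ (T i).H q
  rw [Matrix.sub_mulVec, ← Matrix.mulVec_mulVec, ← Matrix.mulVec_mulVec]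
  exact Submodule.sub_mem _ (hX.2 i q _ (hY.2 i q x hx)) (hY.2 i q _ (hX.2 i q x hx))

/-- **The rank.** Every set of more than `r` symbols carries an integral relation. -/
theorem exists_relation [Fintype ι] (h : IsGrp T G P)
    (hG : IsClosedQ (N := rks T) fun A _ _ => (G.pts A : Set (GLs (rks T) A))) (p : ι → ℤˣ → ℤ)
    (π : ∀ i, ℤˣ → Matrix (Fin (T i).N) (Fin (T i).N) ℂ) (hπ : ∀ i s, IsLowProj (T i) (p i s) (π i s))
    {n : ι → ℤˣ → ℕ} {Q : ∀ i s, Matrix (Fin (n i s)) (Fin (T i).N) ℚ}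
    {B : ∀ i s, Matrix (Fin (T i).N) (Fin (n i s)) ℚ}
    (hB : ∀ i s, Function.Injective (B i s).mulVec)
    (hB' : ∀ i s, LinearMap.range (B i s).mulVecLin = (T i).eig s)
    (hQ0 : ∀ i s, Function.Surjective (Q i s).mulVec)
    (hQ : ∀ i s, LinearMap.ker (Q i s).mulVecLin = (T i).fil (p i s))
    (A D : Submodule ℂ (Mats (rks T))) (hDA : D ≤ A) (hAV : VV G ≤ A) (hAL : LL G ≤ A)
    (hD : D ≤ Submodule.span ℂ {Z | ∃ X Y : Mats (rks T), (X ∈ VV G ∧ Y ∈ VV G ∨ X ∈ LL G ∧ Y ∈ LL G) ∧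
      Z = X * Y - Y * X})
    (S : Finset ((ι × ℤˣ) ⊕ ι)) (hS : Module.finrank ℂ A - Module.finrank ℂ D < S.card) :
    ∃ w : (ι × ℤˣ) ⊕ ι → ℤ, w ≠ 0 ∧ (∀ s, s ∉ S → w s = 0) ∧
      (∀ X ∈ VV G, ∑ i, (∑ t, (w (Sum.inl (i, t)) : ℂ) * (X i * rc (eproj (T i) t)).trace +
        (w (Sum.inr i) : ℂ) * (X i).trace) = 0) ∧
      (∀ X ∈ LL G, ∑ i, (∑ t, (w (Sum.inl (i, t)) : ℂ) * (π i t * X i).trace +
        (w (Sum.inr i) : ℂ) * (X i).trace) = 0) := by
  classical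
  choose R hR using fun i s => exists_right_inv' (hQ0 i s)
  have hne : ∀ i s, (rc (Q i s) * (T i).P * rc (B i s)).det ≠ 0 := by
    intro i s
    have h1 : IsStepPeriod (T i) s (p i s) (rc (Q i s) * (T i).P * rc (B i s)).det :=
      ⟨n i s, B i s, Q i s, hB i s, hB' i s, hQ0 i s, hQ i s, rfl⟩
    exact h1.ne_zero
  let N : Submodule ℂ ((ι × ℤˣ) ⊕ ι → ℂ) :=
    { carrier := {e | (∀ s, s ∉ S → e s = 0) ∧ (∀ X ∈ VV G, ∑ s, e s * kf s X = 0) ∧
        ∀ X ∈ LL G, ∑ s, e s * lf π s X = 0}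
      add_mem' := fun {e f} he hf => ⟨fun s hs => by
          rw [Pi.add_apply, he.1 s hs, hf.1 s hs, add_zero], fun X hX => by
          simp only [Pi.add_apply, add_mul, Finset.sum_add_distrib]
          rw [he.2.1 X hX, hf.2.1 X hX, add_zero], fun X hX => by
          simp only [Pi.add_apply, add_mul, Finset.sum_add_distrib]
          rw [he.2.2 X hX, hf.2.2 X hX, add_zero]⟩
      zero_mem' := ⟨fun s _ => rfl, fun X _ => by simp, fun X _ => by simp⟩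
      smul_mem' := fun c e he => ⟨fun s hs => by rw [Pi.smul_apply, he.1 s hs, smul_zero], fun X hX => by
          simp only [Pi.smul_apply, smul_eq_mul, mul_assoc]
          rw [← Finset.mul_sum, he.2.1 X hX, mul_zero], fun X hX => by
          simp only [Pi.smul_apply, smul_eq_mul, mul_assoc]
          rw [← Finset.mul_sum, he.2.2 X hX, mul_zero]⟩ }
  have hN : ∀ σ : ℂ ≃+* ℂ, ∀ v ∈ N, (fun k => σ (v k)) ∈ N := by
    rintro σ v ⟨hv0, hv1, hv2⟩
    refine ⟨fun s hs => (congrArg σ (hv0 s hs)).trans (map_zero σ), fun X hX => ?_, fun X hX => ?_⟩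
    · have h1 := congrArg σ (hv1 _ (VV_conj (σ.symm : ℂ →+* ℂ) hX))
      rw [map_zero, map_sum] at h1
      rw [← h1]
      refine Finset.sum_congr rfl fun s _ => ?_
      rw [map_mul]
      have h2 : σ (kf s (sm (σ.symm : ℂ →+* ℂ) X)) = kf s X := by
        have h3 := kf_conj (σ : ℂ →+* ℂ) s (sm (σ.symm : ℂ →+* ℂ) X)
        rw [sm_symm] at h3
        exact h3.symm
      rw [h2]
    · obtain ⟨Y, hY, hYX⟩ := wf_of_lf h hπ hQ hR hX
      obtain ⟨X', hX', hX'Y⟩ := lf_of_wf h hπ hQ hR (WW_conj h (σ.symm : ℂ →+* ℂ) hY)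
      have h1 := congrArg σ (hv2 _ hX')
      rw [map_zero, map_sum] at h1
      rw [← h1]
      refine Finset.sum_congr rfl fun s _ => ?_
      rw [map_mul, hX'Y]
      have h2 : σ (wf Q R s (sm (σ.symm : ℂ →+* ℂ) Y)) = wf Q R s Y := by
        have h3 := wf_conj (σ : ℂ →+* ℂ) Q R s (sm (σ.symm : ℂ →+* ℂ) Y)
        rw [sm_symm] at h3
        exact h3.symm
      rw [h2, hYX]
  have hNbot : N ≠ ⊥ := by
    choose φ hφ1 hφ2 using fun s : S => exists_glue (VV G) (LL G) (kf (s : (ι × ℤˣ) ⊕ ι)) (lf π s)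
      fun X hX hX' => kf_eq_lf hπ hB hB' hQ hR hne hX hX' s
    have hφD : ∀ s, ∀ Z ∈ D, φ s Z = 0 := by
      intro s Z hZ
      have h1 : D ≤ LinearMap.ker (φ s) := by
        refine hD.trans (Submodule.span_le.2 ?_)
        rintro Z ⟨X, Y, hXY, rfl⟩
        rcases hXY with ⟨hX, hY⟩ | ⟨hX, hY⟩
        · show φ s (X * Y - Y * X) = 0
          have hZV : X * Y - Y * X ∈ VV G := comm_mem_VV hG hX hY
          rw [hφ1 s _ hZV]
          exact kf_comm hX _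
        · show φ s (X * Y - Y * X) = 0
          have hZL : X * Y - Y * X ∈ LL G := comm_mem_LL hG hX hY
          rw [hφ2 s _ hZL]
          exact lf_comm hπ hX _
      exact h1 hZ
    obtain ⟨g, hg, s₀, hs₀⟩ := exists_dep hDA φ hφD (by rwa [Fintype.card_coe])
    have hg1 : ∀ X ∈ VV G, ∑ s : S, g s * kf (s : (ι × ℤˣ) ⊕ ι) X = 0 := by
      intro X hX
      rw [← hg X (hAV hX)]
      exact Finset.sum_congr rfl fun s _ => by rw [hφ1 s X hX]
    have hg2 : ∀ X ∈ LL G, ∑ s : S, g s * lf π (s : (ι × ℤˣ) ⊕ ι) X = 0 := by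
      intro X hX
      rw [← hg X (hAL hX)]
      exact Finset.sum_congr rfl fun s _ => by rw [hφ2 s X hX]
    set e : (ι × ℤˣ) ⊕ ι → ℂ := fun s => if hs : s ∈ S then g ⟨s, hs⟩ else 0 with he
    have he0 : ∀ s, s ∉ S → e s = 0 := fun s hs => by rw [he]; exact dif_neg hs
    have he1 : ∀ s : S, e (s : (ι × ℤˣ) ⊕ ι) = g s := fun s => by rw [he]; exact dif_pos s.2
    have hsum : ∀ f : (ι × ℤˣ) ⊕ ι → ℂ, ∑ s, e s * f s = ∑ s : S, g s * f s := by
      intro f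
      rw [← Finset.sum_subset (Finset.subset_univ S) (fun s _ hs => by rw [he0 s hs, zero_mul]),
        ← Finset.sum_coe_sort S]
      refine Finset.sum_congr rfl fun s _ => ?_
      rw [he1]
    intro hbot
    have heN : e ∈ N := ⟨he0, fun X hX => by rw [hsum]; exact hg1 X hX, fun X hX => by rw [hsum]; exact hg2 X hX⟩
    rw [hbot, Submodule.mem_bot] at heN
    exact hs₀ (by rw [← he1, heN]; rfl)
  obtain ⟨w, hw0, hw1, hw2, hw3⟩ := exists_integral N hN hNbot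
  refine ⟨w, hw0, fun s hs => Int.cast_eq_zero.1 (hw1 s hs), fun X hX => ?_, fun X hX => ?_⟩
  · rw [← hw2 X hX, sum_symb]
    rfl
  · rw [← hw3 X hX, sum_symb]
    rfl

end

end Pool.Agent.H97.MR
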