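import Pool.Agent.H97.MR.Emb
import Pool.Agent.H97.MR.Lie

set_option autoImplicit false
set_option linter.unusedSectionVars false

/-!
# Regular functions on products of general linear groups, generic points
-/

namespace Pool.Agent.H97.MR

open Matrix Cardinal

section

variable {ι : Type} {N : ι → ℕ}

variable (N) in
/-- the index set of the coordinates of a point `g` of `∏ GL(T_i)`: the entries of `g` and those of `g⁻¹` -/
abbrev Co : Type := ((i : ι) × Fin (N i) × Fin (N i)) ⊕ ((i : ι) × Fin (N i) × Fin (N i))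

/-- the coordinates of `g`: the entries of the matrices `g i` and of their inverses -/
def coords {A : Type} [CommRing A] (g : GLs N A) : Co N → A :=
  Sum.elim (fun x => (g x.1 : Matrix (Fin (N x.1)) (Fin (N x.1)) A) x.2.1 x.2.2)
    (fun x => (((g x.1)⁻¹ : GL (Fin (N x.1)) A) : Matrix (Fin (N x.1)) (Fin (N x.1)) A) x.2.1 x.2.2)

/-- the value at `g` of the regular function given by a polynomial in the coordinates -/
noncomputable def value {k A : Type} [CommRing k] [CommRing A] [Algebra k A] (f : MvPolynomial (Co N) k)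
    (g : GLs N A) : A :=
  MvPolynomial.aeval (coords g) f

/-- the functor of points `S` is given by polynomial equations with rational coefficients in the coordinates -/
def IsClosedQ (S : ∀ (A : Type) [CommRing A] [Algebra ℚ A], Set (GLs N A)) : Prop :=
  ∃ J : Set (MvPolynomial (Co N) ℚ), ∀ (A : Type) [CommRing A] [Algebra ℚ A] (g : GLs N A),
    g ∈ S A ↔ ∀ f ∈ J, value f g = 0

/-- a set of points of `∏ GL(T_i)` is irreducible in the topology of Zariski: it is not empty, and if a product of
two regular functions vanishes on it, one of them does -/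
def IsIrr (Z : Set (GLs N ℂ)) : Prop :=
  Z.Nonempty ∧ ∀ f f' : MvPolynomial (Co N) ℂ, (∀ g ∈ Z, value f g * value f' g = 0) →
    (∀ g ∈ Z, value f g = 0) ∨ ∀ g ∈ Z, value f' g = 0

/-- the regular functions with coefficients in `k` -/
noncomputable def regHom (k : Subfield ℂ) : MvPolynomial (Co N) k →ₐ[k] (GLs N ℂ → ℂ) :=
  AlgHom.pi fun g => MvPolynomial.aeval (coords g)

/-- the regular functions with coefficients in `k` -/
noncomputable def Reg (N : ι → ℕ) (k : Subfield ℂ) : Subalgebra k (GLs N ℂ → ℂ) := (regHom (N := N) k).range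

theorem Reg.entry (k : Subfield ℂ) (i : ι) (a b : Fin (N i)) :
    (fun g : GLs N ℂ => (g i : Matrix (Fin (N i)) (Fin (N i)) ℂ) a b) ∈ Reg N k :=
  ⟨MvPolynomial.X (Sum.inl ⟨i, a, b⟩), funext fun g => MvPolynomial.aeval_X _ _⟩

theorem Reg.entry_inv (k : Subfield ℂ) (i : ι) (a b : Fin (N i)) :
    (fun g : GLs N ℂ => (((g i)⁻¹ : GL (Fin (N i)) ℂ) : Matrix (Fin (N i)) (Fin (N i)) ℂ) a b) ∈ Reg N k :=
  ⟨MvPolynomial.X (Sum.inr ⟨i, a, b⟩), funext fun g => MvPolynomial.aeval_X _ _⟩

theorem Reg.const {k : Subfield ℂ} {c : ℂ} (hc : c ∈ k) : (fun _ : GLs N ℂ => c) ∈ Reg N k := by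
  have := (Reg N k).algebraMap_mem ⟨c, hc⟩
  exact this

theorem Reg.of_poly {R : Type} [CommRing R] [Algebra R ℂ] (k : Subfield ℂ) (h : ∀ r : R, algebraMap R ℂ r ∈ k)
    (f : MvPolynomial (Co N) R) : (fun g : GLs N ℂ => value f g) ∈ Reg N k := by
  induction f using MvPolynomial.induction_on with
  | C a =>
    have e : (fun g : GLs N ℂ => value (MvPolynomial.C a : MvPolynomial (Co N) R) g) = fun _ => algebraMap R ℂ a := by
      funext g
      exact MvPolynomial.aeval_C _ _
    rw [e]
    exact Reg.const (h a)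
  | add p q hp hq =>
    have e : (fun g : GLs N ℂ => value (p + q) g) = (fun g => value p g) + fun g => value q g := by
      funext g
      exact map_add _ _ _
    rw [e]
    exact add_mem hp hq
  | mul_X p n hp =>
    have e : (fun g : GLs N ℂ => value (p * MvPolynomial.X n) g) = (fun g => value p g) * fun g => coords g n := by
      funext g
      refine (map_mul _ _ _).trans ?_
      rw [MvPolynomial.aeval_X]
      rfl
    rw [e]
    refine mul_mem hp ?_
    exact ⟨MvPolynomial.X n, funext fun g => MvPolynomial.aeval_X _ _⟩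

theorem Reg.det {k : Subfield ℂ} {n : Type} [Fintype n] [DecidableEq n] {M : GLs N ℂ → Matrix n n ℂ}
    (h : ∀ a b, (fun g => M g a b) ∈ Reg N k) : (fun g => (M g).det) ∈ Reg N k := by
  have e : (fun g => (M g).det) = ∑ σ : Equiv.Perm n, (fun _ : GLs N ℂ => ((Equiv.Perm.sign σ : ℤ) : ℂ)) *
      ∏ a, fun g => M g (σ a) a := by
    funext g
    rw [Matrix.det_apply', Finset.sum_apply]
    refine Finset.sum_congr rfl fun σ _ => ?_
    rw [Pi.mul_apply, Finset.prod_apply]
  rw [e]
  refine sum_mem fun σ _ => mul_mem (Reg.const (k.intCast_mem _)) (prod_mem fun a _ => h _ _)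

/-- `p` is a generic point of `Z` over `k` -/
def IsGen (k : Subfield ℂ) (Z : Set (GLs N ℂ)) (p : GLs N ℂ) : Prop :=
  ∀ F ∈ Reg N k, F p = 0 ↔ ∀ g ∈ Z, F g = 0

/-- generic points exist -/
theorem exists_gen [Finite ι] (k : Subfield ℂ) (hk : #k ≤ ℵ₀) {Z : Set (GLs N ℂ)} (hZ : IsIrr Z) :
    ∃ p, IsGen k Z p := by
  -- the vanishing ideal
  let J : Ideal (MvPolynomial (Co N) k) :=
    { carrier := {f | ∀ g ∈ Z, value f g = 0}
      add_mem' := fun {a b} ha hb g hg => by
        show value (a + b) g = 0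
        unfold value at *
        rw [map_add, ha g hg, hb g hg, add_zero]
      zero_mem' := fun g _ => map_zero _
      smul_mem' := fun c a ha g hg => by
        show value (c * a) g = 0
        unfold value at *
        rw [map_mul, ha g hg, mul_zero] }
  have hJ : ∀ f, f ∈ J ↔ ∀ g ∈ Z, value f g = 0 := fun f => Iff.rfl
  have hmap : ∀ (f : MvPolynomial (Co N) k) (g : GLs N ℂ), value (MvPolynomial.map (algebraMap k ℂ) f) g = value f g :=
    fun f g => MvPolynomial.aeval_map_algebraMap _ _ _
  have hprime : J.IsPrime := by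
    constructor
    · intro h
      have h1 : (1 : MvPolynomial (Co N) k) ∈ J := h ▸ Submodule.mem_top
      obtain ⟨g, hg⟩ := hZ.1
      have h2 := h1 g hg
      unfold value at h2
      rw [map_one] at h2
      exact one_ne_zero h2
    · intro f f' hff
      have h1 := hZ.2 (MvPolynomial.map (algebraMap k ℂ) f) (MvPolynomial.map (algebraMap k ℂ) f') (by
        intro g hg
        rw [hmap, hmap]
        have := hff g hg
        unfold value at *
        rwa [map_mul] at this)
      rcases h1 with h1 | h1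
      · exact Or.inl fun g hg => by rw [← hmap]; exact h1 g hg
      · exact Or.inr fun g hg => by rw [← hmap]; exact h1 g hg
  let A := MvPolynomial (Co N) k ⧸ J
  let K := FractionRing A
  have hK : #K ≤ ℵ₀ := by
    have h1 : #K = #A := Cardinal.mk_fractionRing A
    have h2 : #A ≤ #(MvPolynomial (Co N) k) := Cardinal.mk_le_of_surjective Ideal.Quotient.mk_surjective
    rw [h1]
    refine h2.trans (MvPolynomial.cardinalMk_le_max.trans ?_)
    refine max_le (max_le hk ?_) le_rfl
    exact Cardinal.mk_le_aleph0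
  obtain ⟨φ⟩ := exists_embed (k := k) (K := K) hk hK
  let ψ : MvPolynomial (Co N) k →ₐ[k] ℂ :=
    (φ.comp (IsScalarTower.toAlgHom k A K)).comp (Ideal.Quotient.mkₐ k J)
  have hψ : ∀ f, ψ f = 0 ↔ f ∈ J := by
    intro f
    show φ (algebraMap A K (Ideal.Quotient.mk J f)) = 0 ↔ _
    rw [map_eq_zero_iff φ φ.injective, map_eq_zero_iff _ (IsFractionRing.injective A K), Ideal.Quotient.eq_zero_iff_mem]
  let x : Co N → ℂ := fun c => ψ (MvPolynomial.X c)
  have hx : ∀ f, MvPolynomial.aeval x f = ψ f := by
    intro f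
    have : (MvPolynomial.aeval x : MvPolynomial (Co N) k →ₐ[k] ℂ) = ψ := by
      refine MvPolynomial.algHom_ext fun c => ?_
      rw [MvPolynomial.aeval_X]
    rw [this]
  let a : ∀ i, Matrix (Fin (N i)) (Fin (N i)) ℂ := fun i => Matrix.of fun u v => x (Sum.inl ⟨i, u, v⟩)
  let b : ∀ i, Matrix (Fin (N i)) (Fin (N i)) ℂ := fun i => Matrix.of fun u v => x (Sum.inr ⟨i, u, v⟩)
  have hab : ∀ i, a i * b i = 1 := by
    intro i
    ext u v
    let f : MvPolynomial (Co N) k := ∑ w, MvPolynomial.X (Sum.inl ⟨i, u, w⟩) * MvPolynomial.X (Sum.inr ⟨i, w, v⟩) -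
      MvPolynomial.C ((1 : Matrix (Fin (N i)) (Fin (N i)) k) u v)
    have h1 : f ∈ J := by
      intro g _
      have e1 : ((g i : Matrix (Fin (N i)) (Fin (N i)) ℂ) *
          (((g i)⁻¹ : GL (Fin (N i)) ℂ) : Matrix (Fin (N i)) (Fin (N i)) ℂ)) u v =
          (1 : Matrix (Fin (N i)) (Fin (N i)) ℂ) u v := by
        rw [Units.mul_inv]
      rw [Matrix.mul_apply] at e1
      show MvPolynomial.aeval (coords g) f = 0
      simp only [f, map_sub, map_sum, map_mul, MvPolynomial.aeval_X, MvPolynomial.aeval_C]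
      rw [sub_eq_zero]
      refine Eq.trans e1 ?_
      by_cases huv : u = v
      · subst huv
        simp
      · simp [huv]
    have h2 := (hψ f).2 h1
    rw [← hx] at h2
    simp only [f, map_sub, map_sum, map_mul, MvPolynomial.aeval_X, MvPolynomial.aeval_C, sub_eq_zero] at h2
    rw [Matrix.mul_apply]
    refine Eq.trans h2 ?_
    by_cases huv : u = v
    · subst huv
      simp
    · simp [huv]
  let p : GLs N ℂ := fun i => ⟨a i, b i, hab i, mul_eq_one_comm.1 (hab i)⟩
  have hp : coords p = x := by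
    funext c
    rcases c with c | c <;> rfl
  refine ⟨p, ?_⟩
  rintro F ⟨f, rfl⟩
  have e1 : ∀ g, (regHom k f) g = value f g := fun g => rfl
  simp only [AlgHom.toRingHom_eq_coe, RingHom.coe_coe]
  simp only [e1]
  rw [← hJ, ← hψ, ← hx, ← hp]
  rfl

end

end Pool.Agent.H97.MR
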